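import Mathlib

/-!
The reduced Euler-Lagrange expression, as a polynomial in jets over any commutative ring,
its naturality under ring maps and its linearisation at the Hopf field.
-/

set_option autoImplicit false

open Matrix

namespace Pool.Agent.Work.MP_3fb46c_gt

/-- A value with two first derivatives. -/
structure Jet (R : Type*) where
  v : R
  d0 : R
  d1 : R

def Jet.map {R S : Type*} (φ : R → S) (g : Jet R) : Jet S := ⟨φ g.v, φ g.d0, φ g.d1⟩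

section defs

variable {R S : Type*} [CommRing R] [CommRing S]

/-- Gram matrix of the frame. -/
def Gm (ν : R) : Matrix (Fin 3) (Fin 3) R := !![-1, 0, 0; 0, 0, ν; 0, ν, 0]

/-- Matrix of the complex structure in the frame. -/
def Dm (R : Type*) [CommRing R] : Matrix (Fin 3) (Fin 3) R := !![0, 0, 0; 0, 1, 0; 0, 0, -1]

def E00 (R : Type*) [CommRing R] : Matrix (Fin 3) (Fin 3) R := !![1, 0, 0; 0, 0, 0; 0, 0, 0]

lemma Gm_map (φ : R →+* S) (ν : R) : (Gm ν).map φ = Gm (φ ν) := by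
  ext i j; fin_cases i <;> fin_cases j <;> simp [Gm]

lemma Dm_map (φ : R →+* S) : (Dm R).map φ = Dm S := by
  ext i j; fin_cases i <;> fin_cases j <;> simp [Dm]

lemma E00_map (φ : R →+* S) : (E00 R).map φ = E00 S := by
  ext i j; fin_cases i <;> fin_cases j <;> simp [E00]

/-- Input of the first stage. -/
structure In1 (R : Type*) where
  z : R
  w : R
  ν : R
  ρ : R
  o0 : Jet R
  o1 : Jet R
  o2 : Jet R

def In1.map {R S : Type*} (φ : R → S) (I : In1 R) : In1 S :=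
  ⟨φ I.z, φ I.w, φ I.ν, φ I.ρ, I.o0.map φ, I.o1.map φ, I.o2.map φ⟩

namespace In1

variable (I : In1 R)

def a : R := -(I.z * I.o1.v) - I.w * I.o2.v
def b : R := I.o0.v - I.z * I.o1.v + I.w * I.o2.v
def N : Matrix (Fin 3) (Fin 3) R :=
  !![I.z * I.o0.d0 - I.w * I.o0.d1 - I.o1.v * I.z - I.o2.v * I.w, I.o0.d0 - I.o1.v,
      I.o0.d1 + I.o2.v;
    I.z * I.o1.d0 - I.w * I.o1.d1, I.o1.d0, I.o1.d1;
    I.z * I.o2.d0 - I.w * I.o2.d1, I.o2.d0, I.o2.d1]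
def lam : R := 1 - I.ρ * (I.a * I.a - I.b * I.b)
def M : Matrix (Fin 3) (Fin 3) R :=
  (-I.ρ) • (-(I.b * I.b) • E00 R + I.a • (I.N + I.Nᵀ) - I.b • (Dm R * I.N + I.Nᵀ * Dm R) +
    I.Nᵀ * Gm I.ν * I.N)
def B : Matrix (Fin 3) (Fin 3) R := I.lam • (1 : Matrix (Fin 3) (Fin 3) R) + I.M * Gm I.ν
def Δ : R := I.B.det
def CM : Matrix (Fin 3) (Fin 3) R := I.B.adjugate * I.M
def n : Matrix (Fin 3) (Fin 3) R :=
  I.Δ • I.N - I.a • I.CM - I.b • (Dm R * I.CM) - I.N * Gm I.ν * I.CM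
def KA : R := I.a * I.Δ
def KB : R := I.b * I.Δ

variable (φ : R →+* S)

lemma a_map : (I.map φ).a = φ I.a := by simp [a, In1.map, Jet.map]
lemma b_map : (I.map φ).b = φ I.b := by simp [b, In1.map, Jet.map]
lemma N_map : (I.map φ).N = I.N.map φ := by
  ext i j; fin_cases i <;> fin_cases j <;> simp [N, In1.map, Jet.map]
lemma lam_map : (I.map φ).lam = φ I.lam := by
  simp only [lam, a_map, b_map, map_sub, map_mul, map_one]; rfl

lemma map_smul_mat (c : R) (X : Matrix (Fin 3) (Fin 3) R) : (c • X).map φ = φ c • X.map φ := by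
  ext i j; simp

lemma map_add_mat (X Y : Matrix (Fin 3) (Fin 3) R) : (X + Y).map φ = X.map φ + Y.map φ := by
  ext i j; simp

lemma map_sub_mat (X Y : Matrix (Fin 3) (Fin 3) R) : (X - Y).map φ = X.map φ - Y.map φ := by
  ext i j; simp

lemma M_map : (I.map φ).M = I.M.map φ := by
  simp only [M, a_map, b_map, N_map, map_smul_mat, map_add_mat, map_sub_mat, Matrix.map_mul,
    Gm_map, Dm_map, E00_map, Matrix.transpose_map, map_neg, map_mul]
  rfl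

lemma B_map : (I.map φ).B = I.B.map φ := by
  simp only [B, lam_map, M_map, map_smul_mat, map_add_mat, Matrix.map_mul, Gm_map,
    Matrix.map_one _ (map_zero φ) (map_one φ)]
  rfl

lemma Δ_map : (I.map φ).Δ = φ I.Δ := by
  rw [Δ, Δ, B_map, RingHom.map_det]; rfl

lemma CM_map : (I.map φ).CM = I.CM.map φ := by
  rw [CM, CM, B_map, M_map, Matrix.map_mul]
  congr 1
  exact (RingHom.map_adjugate φ I.B).symm

lemma n_map : (I.map φ).n = I.n.map φ := by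
  simp only [n, a_map, b_map, N_map, Δ_map, CM_map, map_smul_mat, map_sub_mat, Matrix.map_mul,
    Gm_map, Dm_map]
  rfl

lemma KA_map : (I.map φ).KA = φ I.KA := by simp only [KA, a_map, Δ_map, map_mul]
lemma KB_map : (I.map φ).KB = φ I.KB := by simp only [KB, b_map, Δ_map, map_mul]

end In1

/-- Input of the second stage. -/
structure In2 (R : Type*) where
  z : R
  w : R
  ν : R
  o0 : R
  o1 : R
  A : Jet R
  B : Jet R
  Δ : Jet R
  n : Fin 3 → Fin 3 → Jet R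

def In2.map {R S : Type*} (φ : R → S) (I : In2 R) : In2 S :=
  ⟨φ I.z, φ I.w, φ I.ν, φ I.o0, φ I.o1, I.A.map φ, I.B.map φ, I.Δ.map φ,
    fun i j => (I.n i j).map φ⟩

namespace In2

variable (I : In2 R)

def row (i : Fin 3) : R :=
  -(I.z * (I.n i 0).d0 - I.w * (I.n i 0).d1) + I.ν * (I.n i 1).d1 + I.ν * (I.n i 2).d0 -
    4 * I.z * (I.n i 1).v - 4 * I.w * (I.n i 2).v
def dv0 : R :=
  I.z * I.A.d0 - I.w * I.A.d1 - 4 * I.B.v + I.row 0 + I.ν * ((I.n 2 1).v - (I.n 1 2).v)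
def dv1 : R := I.A.d0 + I.B.d0 + I.row 1 + (I.n 0 1).v - 2 * I.z * (I.n 1 1).v
def dv2 : R := I.A.d1 - I.B.d1 + I.row 2 - (I.n 0 2).v - 2 * I.w * (I.n 2 2).v
def q (i : Fin 3) : R :=
  -((I.n i 0).v * (I.z * I.Δ.d0 - I.w * I.Δ.d1)) + (I.n i 1).v * (I.ν * I.Δ.d1) +
    (I.n i 2).v * (I.ν * I.Δ.d0)
def k0 : R := I.A.v * (I.z * I.Δ.d0 - I.w * I.Δ.d1) + I.q 0
def k1 : R := I.A.v * I.Δ.d0 + I.B.v * I.Δ.d0 + I.q 1
def k2 : R := I.A.v * I.Δ.d1 - I.B.v * I.Δ.d1 + I.q 2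
def e0 : R := 2 * I.Δ.v * I.dv0 - I.k0
def e1 : R := 2 * I.Δ.v * I.dv1 - I.k1
def e2 : R := 2 * I.Δ.v * I.dv2 - I.k2
/-- The reduced Euler-Lagrange expression. -/
def F : R := I.o0 * I.e1 - I.o1 * I.e0

lemma F_map (φ : R →+* S) : (I.map φ).F = φ I.F := by
  simp only [F, e0, e1, dv0, dv1, k0, k1, q, row, In2.map, Jet.map, map_sub, map_add, map_mul,
    map_neg, map_ofNat]

end In2

end defs

section linear

open TrivSqZeroExt

variable {R : Type*} [CommRing R]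

/-- A dual number from its two parts. -/
def dn (a b : R) : DualNumber R := ⟨a, b⟩

@[simp] lemma fst_dn (a b : R) : (dn a b).fst = a := rfl
@[simp] lemma snd_dn (a b : R) : (dn a b).snd = b := rfl

lemma snd_two : (2 : DualNumber R).snd = 0 := by
  rw [← one_add_one_eq_two, snd_add]; simp
lemma fst_two : (2 : DualNumber R).fst = 2 := by
  rw [← one_add_one_eq_two, fst_add]; simp [one_add_one_eq_two]
lemma snd_four : (4 : DualNumber R).snd = 0 := by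
  rw [← two_add_two_eq_four, snd_add]; simp [snd_two]
lemma fst_four : (4 : DualNumber R).fst = 4 := by
  rw [← two_add_two_eq_four, fst_add]; simp [fst_two, two_add_two_eq_four]

/-- First-stage input along the first-order deformation of the Hopf field. -/
def lin1 (z w ν ρ : R) (k m : Jet R) : In1 (DualNumber R) :=
  ⟨dn z 0, dn w 0, dn ν 0, dn ρ 0, ⟨dn 1 0, dn 0 0, dn 0 0⟩,
    ⟨dn 0 k.v, dn 0 k.d0, dn 0 k.d1⟩, ⟨dn 0 (-m.v), dn 0 (-m.d0), dn 0 (-m.d1)⟩⟩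

variable (z w ν ρ : R) (k m : Jet R)

lemma lin1_a : (lin1 z w ν ρ k m).a = dn 0 (-(z * k.v) + w * m.v) := by
  ext <;> simp [In1.a, lin1, DualNumber.snd_mul]

lemma lin1_b : (lin1 z w ν ρ k m).b = dn 1 (-(z * k.v) - w * m.v) := by
  ext <;> simp [In1.b, lin1, DualNumber.snd_mul] <;> ring

lemma lin1_N : (lin1 z w ν ρ k m).N =
    !![dn 0 (-(z * k.v) + w * m.v), dn 0 (-k.v), dn 0 (-m.v);
      dn 0 (z * k.d0 - w * k.d1), dn 0 k.d0, dn 0 k.d1;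
      dn 0 (-(z * m.d0 - w * m.d1)), dn 0 (-m.d0), dn 0 (-m.d1)] := by
  ext i j <;> fin_cases i <;> fin_cases j <;> simp [In1.N, lin1, DualNumber.snd_mul] <;> ring

lemma lin1_lam : (lin1 z w ν ρ k m).lam = dn (1 + ρ) (2 * ρ * (-(z * k.v) - w * m.v)) := by
  rw [In1.lam, lin1_a, lin1_b]
  ext <;> simp [lin1, DualNumber.snd_mul] <;> ring

lemma transpose_three {α : Type*} (a b c d e f g h i : α) :
    !![a, b, c; d, e, f; g, h, i]ᵀ = !![a, d, g; b, e, h; c, f, i] := by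
  ext i j; fin_cases i <;> fin_cases j <;> rfl

lemma lin1_M : (lin1 z w ν ρ k m).M =
    !![dn ρ (2 * ρ * (-(z * k.v) - w * m.v)), dn 0 (ρ * (z * k.d0 - w * k.d1)),
        dn 0 (ρ * (z * m.d0 - w * m.d1));
      dn 0 (ρ * (z * k.d0 - w * k.d1)), dn 0 (2 * ρ * k.d0), dn 0 (ρ * (k.d1 + m.d0));
      dn 0 (ρ * (z * m.d0 - w * m.d1)), dn 0 (ρ * (k.d1 + m.d0)), dn 0 (2 * ρ * m.d1)] := by
  rw [In1.M, lin1_a, lin1_b, lin1_N, transpose_three]
  ext i j <;> fin_cases i <;> fin_cases j <;>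
    simp [lin1, DualNumber.snd_mul, E00, Dm, Gm, Matrix.mul_apply, Fin.sum_univ_three] <;> ring

lemma lin1_B : (lin1 z w ν ρ k m).B =
    !![dn 1 0, dn 0 (ρ * ν * (z * m.d0 - w * m.d1)), dn 0 (ρ * ν * (z * k.d0 - w * k.d1));
      dn 0 (-(ρ * (z * k.d0 - w * k.d1))),
        dn (1 + ρ) (2 * ρ * (-(z * k.v) - w * m.v) + ρ * ν * (k.d1 + m.d0)),
        dn 0 (2 * ρ * ν * k.d0);
      dn 0 (-(ρ * (z * m.d0 - w * m.d1))), dn 0 (2 * ρ * ν * m.d1),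
        dn (1 + ρ) (2 * ρ * (-(z * k.v) - w * m.v) + ρ * ν * (k.d1 + m.d0))] := by
  rw [In1.B, lin1_lam, lin1_M]
  ext i j <;> fin_cases i <;> fin_cases j <;>
    simp [lin1, DualNumber.snd_mul, Gm, Matrix.mul_apply, Fin.sum_univ_three] <;> ring

lemma lin1_Δ : (lin1 z w ν ρ k m).Δ = dn ((1 + ρ) ^ 2)
    (2 * (1 + ρ) * ρ * (2 * (-(z * k.v) - w * m.v) + ν * (k.d1 + m.d0))) := by
  rw [In1.Δ, lin1_B, Matrix.det_fin_three]
  ext <;> simp [DualNumber.snd_mul] <;> ring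

lemma lin1_CM : (lin1 z w ν ρ k m).CM =
    !![dn (ρ * (1 + ρ) ^ 2) (ρ * (2 * (1 + ρ) * ρ * (2 * (-(z * k.v) - w * m.v) + ν * (k.d1 + m.d0)))
          + (1 + ρ) ^ 2 * (2 * ρ * (-(z * k.v) - w * m.v))),
        dn 0 ((1 + ρ) ^ 2 * ρ * (z * k.d0 - w * k.d1)),
        dn 0 ((1 + ρ) ^ 2 * ρ * (z * m.d0 - w * m.d1));
      dn 0 ((1 + ρ) ^ 2 * ρ * (z * k.d0 - w * k.d1)), dn 0 ((1 + ρ) * (2 * ρ * k.d0)),
        dn 0 ((1 + ρ) * ρ * (k.d1 + m.d0));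
      dn 0 ((1 + ρ) ^ 2 * ρ * (z * m.d0 - w * m.d1)), dn 0 ((1 + ρ) * ρ * (k.d1 + m.d0)),
        dn 0 ((1 + ρ) * (2 * ρ * m.d1))] := by
  rw [In1.CM, lin1_B, lin1_M, Matrix.adjugate_fin_three]
  ext i j <;> fin_cases i <;> fin_cases j <;>
    simp [DualNumber.snd_mul, Matrix.mul_apply, Fin.sum_univ_three] <;> ring

lemma lin1_n : (lin1 z w ν ρ k m).n =
    !![dn 0 ((1 + ρ) ^ 2 * (-(z * k.v) + w * m.v)), dn 0 (-((1 + ρ) ^ 2 * k.v)),
        dn 0 (-((1 + ρ) ^ 2 * m.v));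
      dn 0 ((1 + ρ) ^ 2 * (z * k.d0 - w * k.d1)), dn 0 ((1 + ρ) * (1 - ρ) * k.d0),
        dn 0 ((1 + ρ) * (k.d1 - ρ * m.d0));
      dn 0 (-((1 + ρ) ^ 2 * (z * m.d0 - w * m.d1))), dn 0 ((1 + ρ) * (ρ * k.d1 - m.d0)),
        dn 0 (-((1 + ρ) * (1 - ρ) * m.d1))] := by
  rw [In1.n, lin1_a, lin1_b, lin1_N, lin1_Δ, lin1_CM]
  ext i j <;> fin_cases i <;> fin_cases j <;>
    simp [lin1, DualNumber.snd_mul, Dm, Gm, Matrix.mul_apply, Fin.sum_univ_three] <;> ring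

lemma lin1_KA : (lin1 z w ν ρ k m).KA = dn 0 ((1 + ρ) ^ 2 * (-(z * k.v) + w * m.v)) := by
  rw [In1.KA, lin1_a, lin1_Δ]
  ext <;> simp [DualNumber.snd_mul] <;> ring

lemma lin1_KB : (lin1 z w ν ρ k m).KB = dn ((1 + ρ) ^ 2) ((1 + ρ) ^ 2 * (-(z * k.v) - w * m.v) +
    2 * (1 + ρ) * ρ * (2 * (-(z * k.v) - w * m.v) + ν * (k.d1 + m.d0))) := by
  rw [In1.KB, lin1_b, lin1_Δ]
  ext <;> simp [DualNumber.snd_mul] <;> ring

/-- A jet with constant zeroth-order part. -/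
def dj (c : R) (g : Jet R) : Jet (DualNumber R) := ⟨dn c g.v, dn 0 g.d0, dn 0 g.d1⟩

/-- Second-stage input along the first-order deformation of the Hopf field. -/
def lin2 (z w ν c kv : R) (A B Δ : Jet R) (n : Fin 3 → Fin 3 → Jet R) : In2 (DualNumber R) :=
  ⟨dn z 0, dn w 0, dn ν 0, dn 1 0, dn 0 kv, dj 0 A, dj c B, dj c Δ, fun i j => dj 0 (n i j)⟩

lemma lin2_F (z w ν c kv : R) (A B Δ : Jet R) (n : Fin 3 → Fin 3 → Jet R) :
    (lin2 z w ν c kv A B Δ n).F = dn 0 (c * (2 * (A.d0 + B.d0 +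
      (-(z * (n 1 0).d0 - w * (n 1 0).d1) + ν * (n 1 1).d1 + ν * (n 1 2).d0 -
        4 * z * (n 1 1).v - 4 * w * (n 1 2).v) + (n 0 1).v - 2 * z * (n 1 1).v) - Δ.d0
        + 8 * c * kv)) := by
  ext <;> simp [In2.F, In2.e0, In2.e1, In2.dv0, In2.dv1, In2.k0, In2.k1, In2.q, In2.row, lin2, dj,
    DualNumber.snd_mul, fst_two, snd_two, fst_four, snd_four] <;> ring

end linear

end Pool.Agent.Work.MP_3fb46c_gt
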