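import Pool.Agent.Work.MP_3fb46c_gt.Eval
import Mathlib
import Pool.Agent.Work.MP_3fb46c_gt.Reduced

-- merged part: Pool.Agent.Work.MP_3fb46c_gt.Calc
section
/-!
Gradients, Jacobians and tangential divergences of the invariant objects.
-/

set_option autoImplicit false

open Matrix Complex

namespace Pool.Agent.Work.MP_3fb46c_gt

abbrev E6 := EuclideanSpace ℝ (Fin 6)

/-- The complexification of a real vector. -/
noncomputable def cx (y : E6) : V6 := fun i => (y i : ℂ)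

/-- The real-linear form `y ↦ c ⬝ y`. -/
noncomputable def gradL (c : V6) : E6 →L[ℝ] ℂ :=
  ∑ l, c l • (Complex.ofRealCLM.comp (EuclideanSpace.proj l : E6 →L[ℝ] ℝ))

lemma gradL_apply (c : V6) (y : E6) : gradL c y = c ⬝ᵥ cx y := by
  simp [gradL, dotProduct, cx]

/-- `f` has gradient `c` at `x`. -/
def HG (f : E6 → ℂ) (x : E6) (c : V6) : Prop := HasFDerivAt f (gradL c) x

namespace HG

variable {f g : E6 → ℂ} {x : E6} {c d : V6}

lemma of_eq {L : E6 →L[ℝ] ℂ} (h : HasFDerivAt f L x) (e : ∀ y, L y = c ⬝ᵥ cx y) : HG f x c :=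
  h.congr_fderiv (ContinuousLinearMap.ext fun y => by rw [e, gradL_apply])

lemma congr (h : HG f x c) (e : c = d) : HG f x d := e ▸ h

lemma const (a : ℂ) : HG (fun _ => a) x 0 := of_eq (hasFDerivAt_const a x) (by simp)

lemma add (h : HG f x c) (h' : HG g x d) : HG (fun y => f y + g y) x (c + d) :=
  of_eq (HasFDerivAt.add h h') (by simp [gradL_apply])

lemma sub (h : HG f x c) (h' : HG g x d) : HG (fun y => f y - g y) x (c - d) :=
  of_eq (HasFDerivAt.sub h h') (by simp [gradL_apply])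

lemma mul (h : HG f x c) (h' : HG g x d) : HG (fun y => f y * g y) x (f x • d + g x • c) :=
  of_eq (HasFDerivAt.mul h h') (by simp [gradL_apply])

lemma dot (c : V6) : HG (fun y => c ⬝ᵥ cx y) x c := by
  have : (fun y => c ⬝ᵥ cx y) = gradL c := funext fun y => (gradL_apply c y).symm
  rw [this]
  exact (gradL c).hasFDerivAt

lemma coord (i : Fin 6) : HG (fun y => cx y i) x (Pi.single i 1) := by
  have := dot (x := x) (Pi.single i 1)
  simpa using this

lemma sum {ι : Type*} (s : Finset ι) {f : ι → E6 → ℂ} {c : ι → V6} (h : ∀ i ∈ s, HG (f i) x (c i)) :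
    HG (fun y => ∑ i ∈ s, f i y) x (∑ i ∈ s, c i) :=
  of_eq (HasFDerivAt.fun_sum h) (by simp [gradL_apply, sum_dotProduct])

lemma cpow (h : HG f x c) (hs : f x ∈ slitPlane) (s : ℂ) :
    HG (fun y => f y ^ s) x ((s * f x ^ (s - 1)) • c) := by
  have h1 : HasDerivAt (fun u : ℂ => u ^ s) (s * f x ^ (s - 1)) (f x) := by
    simpa using (hasDerivAt_id (f x)).cpow_const (c := s) hs
  exact of_eq ((h1.hasFDerivAt.restrictScalars ℝ).comp x h) (by simp [gradL_apply, mul_comm])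

lemma fderiv_apply (h : HG f x c) (v : E6) : fderiv ℝ f x v = c ⬝ᵥ cx v := by
  rw [HasFDerivAt.fderiv h, gradL_apply]

end HG

/-- The point of the bidisc attached to a point of space. -/
noncomputable def pt (t : ℝ) (y : E6) : ℂ × ℂ := (zf t (cx y), wf t (cx y))

lemma HG.evS {f : PS} (hf : Summable (ac 1 f)) {t : ℝ} {x : E6} (hp : ‖pt t x‖ < 1) :
    HG (fun y => evS f (pt t y)) x
      (evS (MvPowerSeries.pderiv ℝ 0 f) (pt t x) • pv t +
        evS (MvPowerSeries.pderiv ℝ 1 f) (pt t x) • qv t) := by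
  have h1 : HasFDerivAt (pt t) ((gradL (pv t)).prod (gradL (qv t))) x :=
    HasFDerivAt.prodMk (HG.dot (pv t)) (HG.dot (qv t))
  exact HG.of_eq (((hasFDerivAt_evS hf hp).restrictScalars ℝ).comp x h1) (by simp [gradL_apply])

/-- `V` has Jacobian matrix `M` at `x`. -/
def HJv (V : E6 → V6) (x : E6) (M : M6) : Prop := ∀ i, HG (fun y => V y i) x (M i)

namespace HJv

variable {V W : E6 → V6} {x : E6} {M N : M6}

lemma congr (h : HJv V x M) (e : M = N) : HJv V x N := e ▸ h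

lemma const (a : V6) : HJv (fun _ => a) x 0 := fun i => HG.const (a i)

lemma id : HJv cx x 1 := fun i => (HG.coord i).congr (by
  ext j; simp [Matrix.one_apply, Pi.single_apply, eq_comm])

lemma add (h : HJv V x M) (h' : HJv W x N) : HJv (fun y => V y + W y) x (M + N) :=
  fun i => (h i).add (h' i)

lemma sub (h : HJv V x M) (h' : HJv W x N) : HJv (fun y => V y - W y) x (M - N) :=
  fun i => (h i).sub (h' i)

lemma smul {g : E6 → ℂ} {c : V6} (hg : HG g x c) (h : HJv V x M) :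
    HJv (fun y => g y • V y) x (g x • M + vecMulVec (V x) c) :=
  fun i => (hg.mul (h i)).congr (by ext j; simp [vecMulVec_apply])

lemma Tv : HJv (fun y => Tv (cx y)) x jm := fun i => HG.dot (jm i)

end HJv

noncomputable def JZ (t : ℝ) (x : V6) : M6 :=
  -(zf t x • (1 : M6) + vecMulVec x (pv t)) - (zf t x • jm + vecMulVec (Tv x) (pv t))
noncomputable def JZb (t : ℝ) (x : V6) : M6 :=
  -(wf t x • (1 : M6) + vecMulVec x (qv t)) + (wf t x • jm + vecMulVec (Tv x) (qv t))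
noncomputable def Jf (t : ℝ) (x : V6) : Fin 3 → M6 := ![jm, JZ t x, JZb t x]

lemma hjv_Zv (t : ℝ) (x : E6) : HJv (fun y => Zv t (cx y)) x (JZ t (cx x)) :=
  (((HJv.const (pv t)).sub (HJv.smul (HG.dot (pv t)) HJv.id)).sub
    (HJv.smul (HG.dot (pv t)) HJv.Tv)).congr (by rw [zero_sub]; rfl)

lemma hjv_Zb (t : ℝ) (x : E6) : HJv (fun y => Zb t (cx y)) x (JZb t (cx x)) :=
  (((HJv.const (qv t)).sub (HJv.smul (HG.dot (qv t)) HJv.id)).add
    (HJv.smul (HG.dot (qv t)) HJv.Tv)).congr (by rw [zero_sub]; rfl)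

lemma hjv_fr (t : ℝ) (x : E6) (k : Fin 3) : HJv (fun y => fr t (cx y) k) x (Jf t (cx x) k) := by
  fin_cases k
  · exact HJv.Tv
  · exact hjv_Zv t x
  · exact hjv_Zb t x

/-- The tangential part of the tangential divergence of `K` at `x` is `d`. -/
def HD (K : E6 → M6) (x : E6) (d : V6) : Prop :=
  ∃ C : Fin 6 → Fin 6 → V6, (∀ i j, HG (fun y => K y i j) x (C i j)) ∧
    Pm (cx x) *ᵥ (fun i => ∑ j, (Pm (cx x) *ᵥ C i j) j) = d

namespace HD

variable {K K' : E6 → M6} {x : E6} {d d' : V6}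

lemma congr (h : HD K x d) (e : d = d') : HD K x d' := e ▸ h

lemma const (A : M6) : HD (fun _ => A) x 0 :=
  ⟨fun _ _ => 0, fun i j => HG.const _, by simp; exact mulVec_zero _⟩

lemma add (h : HD K x d) (h' : HD K' x d') : HD (fun y => K y + K' y) x (d + d') := by
  obtain ⟨C, h1, h2⟩ := h
  obtain ⟨C', h1', h2'⟩ := h'
  refine ⟨fun i j => C i j + C' i j, fun i j => (h1 i j).add (h1' i j), ?_⟩
  rw [← h2, ← h2', ← mulVec_add]
  congr 1
  ext i
  simp [mulVec_add, Finset.sum_add_distrib]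

lemma sub (h : HD K x d) (h' : HD K' x d') : HD (fun y => K y - K' y) x (d - d') := by
  obtain ⟨C, h1, h2⟩ := h
  obtain ⟨C', h1', h2'⟩ := h'
  refine ⟨fun i j => C i j - C' i j, fun i j => (h1 i j).sub (h1' i j), ?_⟩
  rw [← h2, ← h2', ← mulVec_sub]
  congr 1
  ext i
  simp [mulVec_sub, Finset.sum_sub_distrib]

lemma smul {g : E6 → ℂ} {c : V6} (hg : HG g x c) (h : HD K x d) :
    HD (fun y => g y • K y) x (Pm (cx x) *ᵥ (K x *ᵥ (Pm (cx x) *ᵥ c)) + g x • d) := by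
  obtain ⟨C, h1, h2⟩ := h
  refine ⟨fun i j => g x • C i j + K x i j • c, fun i j => hg.mul (h1 i j), ?_⟩
  rw [← h2, ← mulVec_smul, ← mulVec_add]
  congr 1
  ext i
  simp only [mulVec_add, mulVec_smul, Pi.add_apply, Pi.smul_apply, smul_eq_mul,
    Finset.sum_add_distrib, Finset.mul_sum]
  rw [add_comm]
  rfl

lemma vmv {b c : E6 → V6} {B C : M6} (hb : HJv b x B) (hc : HJv c x C) :
    HD (fun y => vecMulVec (b y) (c y)) x
      (Pm (cx x) *ᵥ (B *ᵥ (Pm (cx x) *ᵥ c x)) + (C * Pm (cx x)).trace • (Pm (cx x) *ᵥ b x)) := by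
  refine ⟨fun i j => b x i • C j + c x j • B i, fun i j => (hb i).mul (hc j), ?_⟩
  rw [← mulVec_smul, ← mulVec_add]
  congr 1
  ext i
  simp only [mulVec_add, mulVec_smul, Pi.add_apply, Pi.smul_apply, smul_eq_mul,
    Finset.sum_add_distrib]
  rw [add_comm]
  congr 1
  · change c x ⬝ᵥ (Pm (cx x) *ᵥ B i) = B i ⬝ᵥ (Pm (cx x) *ᵥ c x)
    rw [dotProduct_mulVec, ← mulVec_transpose, Pm_transpose, dotProduct_comm]
  · rw [← Finset.mul_sum, mul_comm]
    congr 1
    conv_rhs => rw [← Pm_transpose]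
    simp only [Matrix.trace, diag, Matrix.mul_apply, transpose_apply, mulVec, dotProduct, mul_comm]

lemma sum {ι : Type*} (s : Finset ι) {K : ι → E6 → M6} {d : ι → V6}
    (h : ∀ i ∈ s, HD (K i) x (d i)) : HD (fun y => ∑ i ∈ s, K i y) x (∑ i ∈ s, d i) := by
  classical
  induction s using Finset.induction_on with
  | empty => simpa using const (x := x) 0
  | insert a s ha ih =>
    simp only [Finset.sum_insert ha]
    exact (h a (Finset.mem_insert_self _ _)).add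
      (ih fun i hi => h i (Finset.mem_insert_of_mem hi))

end HD

lemma ten_eq_sum (t : ℝ) (x : V6) (a b : ℂ) (N : M3) : ten t x a b N =
    a • Pm x + b • Ps x + ∑ i, ∑ j, N i j • vecMulVec (fr t x i) (fr t x j) := by
  unfold ten
  congr 1
  ext k l
  simp only [Matrix.mul_apply, Em, of_apply, transpose_apply, Matrix.sum_apply, Matrix.smul_apply,
    vecMulVec_apply, smul_eq_mul, Finset.sum_mul]
  rw [Finset.sum_comm]
  refine Finset.sum_congr rfl fun i _ => Finset.sum_congr rfl fun j _ => by ring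

section sphere

variable {x : E6} (hx : cx x ⬝ᵥ cx x = 1) (t : ℝ)
include hx

lemma trace_Pm : (Pm (cx x)).trace = 5 := by
  rw [Pm, trace_sub, trace_one, trace_vecMulVec, hx]; norm_num

omit hx in
lemma trace_jm_Pm : (jm * Pm (cx x)).trace = 0 := by
  rw [Pm, Matrix.mul_sub, Matrix.mul_one, trace_sub, trace_jm, mul_vecMulVec, trace_vecMulVec,
    ← Tv, Tv_x]
  simp

omit hx in
lemma trace_vmv_Pm (u v : V6) : (vecMulVec u v * Pm (cx x)).trace = v ⬝ᵥ (Pm (cx x) *ᵥ u) := by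
  rw [trace_mul_comm, mul_vecMulVec, trace_vecMulVec, dotProduct_comm]

lemma hd_Pm : HD (fun y => Pm (cx y)) x 0 :=
  ((HD.const 1).sub (HD.vmv HJv.id HJv.id)).congr (by simp [Pm_x hx])

lemma hd_Ps : HD (fun y => Ps (cx y)) x ((-4 : ℂ) • Tv (cx x)) :=
  (((HD.const jm).add (HD.vmv HJv.id HJv.Tv)).sub (HD.vmv HJv.Tv HJv.id)).congr (by
    simp only [Pm_x hx, Pm_Tv, one_mulVec, Matrix.one_mul, trace_Pm hx, mulVec_zero]
    module)

lemma trace_Jf : ∀ j, (Jf t (cx x) j * Pm (cx x)).trace =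
    ![0, -4 * zf t (cx x), -4 * wf t (cx x)] j := by
  intro j
  fin_cases j
  · exact trace_jm_Pm
  · change (JZ t (cx x) * Pm (cx x)).trace = -4 * zf t (cx x)
    simp only [JZ, Matrix.sub_mul, Matrix.neg_mul, Matrix.add_mul, Matrix.smul_mul, Matrix.one_mul,
      trace_sub, trace_neg, trace_add, trace_smul, trace_Pm hx, trace_jm_Pm, trace_vmv_Pm,
      Pm_x hx, Pm_Tv, pv_Tv, dotProduct_zero, smul_eq_mul]
    ring
  · change (JZb t (cx x) * Pm (cx x)).trace = -4 * wf t (cx x)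
    simp only [JZb, Matrix.sub_mul, Matrix.neg_mul, Matrix.add_mul, Matrix.smul_mul, Matrix.one_mul,
      trace_sub, trace_neg, trace_add, trace_smul, trace_Pm hx, trace_jm_Pm, trace_vmv_Pm,
      Pm_x hx, Pm_Tv, qv_Tv, dotProduct_zero, smul_eq_mul]
    ring

lemma Pm_fr (k : Fin 3) : Pm (cx x) *ᵥ fr t (cx x) k = fr t (cx x) k := by
  fin_cases k
  · exact Pm_Tv
  · exact Pm_Zv hx t
  · exact Pm_Zb hx t

lemma nabla_fr : ∀ i j, Pm (cx x) *ᵥ (Jf t (cx x) i *ᵥ fr t (cx x) j) =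
    ![![0, Zv t (cx x), -Zb t (cx x)],
      ![0, (-2 * zf t (cx x)) • Zv t (cx x), (-nuf t (cx x)) • Tv (cx x)],
      ![0, nuf t (cx x) • Tv (cx x), (-2 * wf t (cx x)) • Zb t (cx x)]] i j := by
  intro i j
  fin_cases i <;> fin_cases j <;>
    simp only [Jf, fr, JZ, JZb, Fin.zero_eta, Fin.mk_one, Fin.reduceFinMk, cons_val, cons_val_zero,
      cons_val_one, sub_mulVec, add_mulVec, neg_mulVec, smul_mulVec, one_mulVec, vmv, mulVec_sub,
      mulVec_add, mulVec_neg, mulVec_smul, jm_Tv, jm_Zv, jm_Zb, Pm_x hx, Pm_Tv, Pm_Zv hx, Pm_Zb hx,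
      pv_Tv, qv_Tv, pv_Zv, pv_Zb, qv_Zv, qv_Zb] <;> module

/-- `g` has value and gradient described by the jet `G`. -/
def HGJ (t : ℝ) (g : E6 → ℂ) (x : E6) (G : Jet ℂ) : Prop :=
  g x = G.v ∧ HG g x (G.d0 • pv t + G.d1 • qv t)

omit hx in
lemma Pm_grad (a b : ℂ) : Pm (cx x) *ᵥ (a • pv t + b • qv t) =
    Em t (cx x) *ᵥ ![zf t (cx x) * a - wf t (cx x) * b, a, b] := by
  rw [mulVec_add, mulVec_smul, mulVec_smul, Pm_pv, Pm_qv, Em_mulVec]
  simp only [cons_val]
  module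

theorem hd_ten (J : In2 ℂ) (hz : J.z = zf t (cx x)) (hw : J.w = wf t (cx x))
    (hν : J.ν = nuf t (cx x)) {A B : E6 → ℂ} {n : E6 → M3} (hA : HGJ t A x J.A)
    (hB : HGJ t B x J.B) (hn : ∀ i j, HGJ t (fun y => n y i j) x (J.n i j)) :
    HD (fun y => ten t (cx y) (A y) (B y) (n y)) x (Em t (cx x) *ᵥ ![J.dv0, J.dv1, J.dv2]) := by
  simp only [ten_eq_sum]
  refine (((HD.smul hA.2 (hd_Pm hx)).add (HD.smul hB.2 (hd_Ps hx))).add
    (HD.sum _ fun i _ => HD.sum _ fun j _ =>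
      HD.smul (hn i j).2 (HD.vmv (hjv_fr t x i) (hjv_fr t x j)))).congr ?_
  have hv : ∀ i j, n x i j = (J.n i j).v := fun i j => (hn i j).1
  simp only [Pm_fr hx, nabla_fr hx, trace_Jf hx, Pm_pv, Pm_qv, mulVec_sub, vmv, mulVec_smul, hA.1, hB.1, hv,
    Fin.sum_univ_three, cons_val, Em_mulVec, mulVec_add, Pm_Tv, Pm_Zv hx, Pm_Zb hx, Ps_Tv hx,
    Ps_Zv hx, Ps_Zb hx, mulVec_neg, mulVec_zero]
  simp only [fr, cons_val, dotProduct_add, dotProduct_sub, dotProduct_smul, Tv_Tv hx, Tv_Zv hx, Tv_Zb hx, Zv_Tv hx,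
    Zb_Tv hx, Zv_Zv hx, Zb_Zb hx, Zv_Zb hx, Zb_Zv hx, In2.dv0, In2.dv1, In2.dv2, In2.row, hz, hw,
    hν, smul_eq_mul]
  module

theorem hjv_field (J : In1 ℂ) (hz : J.z = zf t (cx x)) (hw : J.w = wf t (cx x))
    {o0 o1 o2 : E6 → ℂ} (h0 : HGJ t o0 x J.o0) (h1 : HGJ t o1 x J.o1) (h2 : HGJ t o2 x J.o2) :
    ∃ M, HJv (fun y => o0 y • Tv (cx y) + o1 y • Zv t (cx y) + o2 y • Zb t (cx y)) x M ∧
      Pm (cx x) * M * Pm (cx x) = ten t (cx x) J.a J.b J.N := by
  refine ⟨_, ((HJv.smul h0.2 HJv.Tv).add (HJv.smul h1.2 (hjv_Zv t x))).add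
    (HJv.smul h2.2 (hjv_Zb t x)), ?_⟩
  rw [ext_iff_mulVec]
  intro v
  have e1 : pv t ⬝ᵥ (Pm (cx x) *ᵥ v) = Zv t (cx x) ⬝ᵥ v + zf t (cx x) * (Tv (cx x) ⬝ᵥ v) := by
    rw [dotProduct_mulVec, ← mulVec_transpose, Pm_transpose, Pm_pv]; simp
  have e2 : qv t ⬝ᵥ (Pm (cx x) *ᵥ v) = Zb t (cx x) ⬝ᵥ v - wf t (cx x) * (Tv (cx x) ⬝ᵥ v) := by
    rw [dotProduct_mulVec, ← mulVec_transpose, Pm_transpose, Pm_qv]; simp
  have e3 : Pm (cx x) *ᵥ (jm *ᵥ (Pm (cx x) *ᵥ v)) = Ps (cx x) *ᵥ v := by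
    rw [mulVec_mulVec, mulVec_mulVec, Pm_jm_Pm hx]
  have e4 : Pm (cx x) *ᵥ (Pm (cx x) *ᵥ v) = Pm (cx x) *ᵥ v := by rw [mulVec_mulVec, Pm_Pm hx]
  simp only [ten, ← mulVec_mulVec, add_mulVec, sub_mulVec, neg_mulVec, smul_mulVec, one_mulVec, JZ,
    JZb, vmv, mulVec_add, mulVec_sub, mulVec_neg, mulVec_smul, e3, e4, Pm_x hx, Pm_Tv, Pm_Zv hx,
    Pm_Zb hx, add_dotProduct, smul_dotProduct, e1, e2, EmT_mulVec, Em_mulVec, h0.1, h1.1, h2.1,
    In1.a, In1.b, hz, hw, smul_eq_mul]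
  simp only [In1.N, mulVec, dotProduct, Fin.sum_univ_three, of_apply, cons_val, hz, hw]
  module

end sphere

end Pool.Agent.Work.MP_3fb46c_gt
end

-- merged part: Pool.Agent.Work.MP_3fb46c_gt.FirstVar
section
-- merged part: Pool.Agent.Work.MP_3fb46c_gt.Sphere
section
/-!
Differentiation of integrals over the unit sphere, rotation invariance, the divergence theorem
and tangential derivatives.
-/

set_option autoImplicit false

open MeasureTheory Metric Set Filter Topology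
open scoped Pointwise

namespace Pool.Agent.Work.MP_3fb46c_gt

section general

variable {E : Type*} [NormedAddCommGroup E] [InnerProductSpace ℝ E] [FiniteDimensional ℝ E]
  [MeasurableSpace E] [BorelSpace E]
  {F : Type*} [NormedAddCommGroup F] [NormedSpace ℝ F]

lemma integrable_sphere {g : sphere (0 : E) 1 → F} (hg : Continuous g) :
    Integrable g (volume : Measure E).toSphere :=
  hg.integrable_of_hasCompactSupport (HasCompactSupport.of_compactSpace g)

lemma hasDerivAt_integral_sphere (G G' : ℝ → sphere (0 : E) 1 → F)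
    (hG : Continuous (Function.uncurry G)) (hG' : Continuous (Function.uncurry G'))
    (hd : ∀ t x, HasDerivAt (fun s => G s x) (G' t x) t) :
    HasDerivAt (fun t => ∫ x, G t x ∂(volume : Measure E).toSphere)
      (∫ x, G' 0 x ∂(volume : Measure E).toSphere) 0 := by
  obtain ⟨C, hC⟩ := ((isCompact_closedBall (0 : ℝ) 1).prod
    (isCompact_univ (X := sphere (0 : E) 1))).exists_bound_of_continuousOn hG'.continuousOn
  have h1 : ∀ t, Continuous (G t) := fun t => hG.uncurry_left t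
  have h2 : ∀ t, Continuous (G' t) := fun t => hG'.uncurry_left t
  exact (hasDerivAt_integral_of_dominated_loc_of_deriv_le (bound := fun _ => C)
    (closedBall_mem_nhds (0 : ℝ) one_pos)
    (Eventually.of_forall fun t => (h1 t).aestronglyMeasurable) (integrable_sphere (h1 0))
    (h2 0).aestronglyMeasurable
    (Eventually.of_forall fun x t ht => hC (t, x) ⟨ht, mem_univ _⟩) (integrable_const C)
    (Eventually.of_forall fun x t _ => hd t x)).2

/-- The map of the unit sphere induced by a linear isometry. -/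
def sphMap (L : E ≃ₗᵢ[ℝ] E) (x : sphere (0 : E) 1) : sphere (0 : E) 1 :=
  ⟨L x, by simp⟩

omit [FiniteDimensional ℝ E] [MeasurableSpace E] [BorelSpace E] in
lemma continuous_sphMap (L : E ≃ₗᵢ[ℝ] E) : Continuous (sphMap L) :=
  (L.continuous.comp continuous_subtype_val).subtype_mk _

lemma map_sphMap (L : E ≃ₗᵢ[ℝ] E) :
    (volume : Measure E).toSphere.map (sphMap L) = (volume : Measure E).toSphere := by
  have hm : Measurable (sphMap L) := (continuous_sphMap L).measurable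
  ext s hs
  rw [Measure.map_apply hm hs, Measure.toSphere_apply' _ hs, Measure.toSphere_apply' _ (hm hs)]
  congr 1
  have h1 : MeasurePreserving L.toHomeomorph.toMeasurableEquiv (volume : Measure E) volume :=
    L.measurePreserving
  rw [← h1.measure_preimage_equiv (Ioo (0 : ℝ) 1 • ((↑) '' s : Set E))]
  congr 1
  ext y
  constructor
  · rintro ⟨r, hr, _, ⟨u, hu, rfl⟩, rfl⟩
    exact ⟨r, hr, _, ⟨sphMap L u, hu, rfl⟩, by simp [sphMap]⟩
  · rintro ⟨r, hr, _, ⟨u, hu, rfl⟩, h⟩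
    refine ⟨r, hr, _, ⟨sphMap L.symm u, ?_, rfl⟩, ?_⟩
    · have : sphMap L (sphMap L.symm u) = u := Subtype.ext (by simp [sphMap])
      rwa [mem_preimage, this]
    · apply L.injective
      simpa [sphMap] using h

lemma integral_sphMap (L : E ≃ₗᵢ[ℝ] E) {g : sphere (0 : E) 1 → F} (hg : Continuous g) :
    ∫ x, g (sphMap L x) ∂(volume : Measure E).toSphere = ∫ x, g x ∂(volume : Measure E).toSphere := by
  rw [← integral_map (continuous_sphMap L).measurable.aemeasurable hg.aestronglyMeasurable,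
    map_sphMap]

omit [FiniteDimensional ℝ E] [MeasurableSpace E] [BorelSpace E] in
/-- A function that vanishes on the sphere has vanishing tangential derivatives. -/
lemma fderiv_tangent_eq_zero {f : E → F} {L : E →L[ℝ] F} {x v : E} (hx : ‖x‖ = 1)
    (hv : inner ℝ x v = 0) (hf : HasFDerivAt f L x) (h0 : ∀ y : E, ‖y‖ = 1 → f y = 0) :
    L v = 0 := by
  let c : ℝ → E := fun s => ‖x + s • v‖⁻¹ • (x + s • v)
  have hn : ∀ s : ℝ, ‖x + s • v‖ ^ 2 = 1 + s ^ 2 * ‖v‖ ^ 2 := by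
    intro s
    rw [norm_add_sq_real, inner_smul_right, hv, hx, norm_smul, mul_pow]
    simp
  have hne : ∀ s : ℝ, ‖x + s • v‖ ≠ 0 := by
    intro s h
    have := hn s
    rw [h] at this
    nlinarith [mul_nonneg (sq_nonneg s) (sq_nonneg ‖v‖)]
  have hc1 : ∀ s, ‖c s‖ = 1 := by
    intro s
    simp only [c, norm_smul, norm_inv, norm_norm]
    exact inv_mul_cancel₀ (hne s)
  have h1 : HasDerivAt (fun s : ℝ => x + s • v) v 0 := by
    simpa using ((hasDerivAt_id (0 : ℝ)).smul_const v).const_add x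
  have h2 : HasDerivAt (fun s : ℝ => ‖x + s • v‖) 0 0 := by
    have e : (fun s : ℝ => ‖x + s • v‖) = fun s => Real.sqrt (1 + s ^ 2 * ‖v‖ ^ 2) := by
      funext s
      rw [← hn, Real.sqrt_sq (norm_nonneg _)]
    rw [e]
    have h3 : HasDerivAt (fun s : ℝ => 1 + s ^ 2 * ‖v‖ ^ 2) 0 0 := by
      simpa using (((hasDerivAt_id (0 : ℝ)).pow 2).mul_const (‖v‖ ^ 2)).const_add 1
    simpa using h3.sqrt (by simp)
  have hc : HasDerivAt c v 0 := by
    have := (h2.inv (hne 0)).smul h1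
    simp only [zero_smul, add_zero, neg_zero, zero_div, Pi.inv_apply, hx, inv_one, one_smul] at this
    exact this
  have hc0 : c 0 = x := by simp [c, hx]
  have h4 : HasDerivAt (fun s => f (c s)) (L v) 0 :=
    HasFDerivAt.comp_hasDerivAt_of_eq (0 : ℝ) hf hc hc0.symm
  have h5 : (fun s => f (c s)) = fun _ => 0 := funext fun s => h0 _ (hc1 s)
  rw [h5] at h4
  exact h4.unique (hasDerivAt_const _ _)

/-- Rotation in the plane of the orthonormal pair `u`, `v`. -/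
noncomputable def rotL (u v : E) (θ : ℝ) : E →ₗ[ℝ] E where
  toFun y := y + (Real.cos θ - 1) • (inner ℝ u y • u + inner ℝ v y • v) +
    Real.sin θ • (inner ℝ u y • v - inner ℝ v y • u)
  map_add' y z := by simp only [inner_add_right]; module
  map_smul' c y := by simp only [inner_smul_right, RingHom.id_apply]; module

omit [FiniteDimensional ℝ E] [MeasurableSpace E] [BorelSpace E] in
lemma norm_rotL {u v : E} (hu : inner ℝ u u = 1) (hv : inner ℝ v v = 1) (huv : inner ℝ u v = 0)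
    (θ : ℝ) (y : E) : ‖rotL u v θ y‖ = ‖y‖ := by
  have hvu : inner ℝ v u = 0 := by rw [real_inner_comm, huv]
  have h : inner ℝ (rotL u v θ y) (rotL u v θ y) = inner ℝ y y := by
    simp only [rotL, LinearMap.coe_mk, AddHom.coe_mk, inner_add_left, inner_add_right,
      inner_sub_left, inner_sub_right, inner_smul_left, inner_smul_right, hu, hv, huv, hvu,
      real_inner_comm u y, real_inner_comm v y, conj_trivial]
    linear_combination (inner ℝ u y ^ 2 + inner ℝ v y ^ 2) * Real.cos_sq_add_sin_sq θ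
  rw [real_inner_self_eq_norm_sq, real_inner_self_eq_norm_sq] at h
  exact (pow_left_inj₀ (norm_nonneg _) (norm_nonneg _) two_ne_zero).1 h

lemma integral_rot_eq_zero [CompleteSpace F] {u v : E} (hu : inner ℝ u u = 1)
    (hv : inner ℝ v v = 1) (huv : inner ℝ u v = 0) {f : E → F}
    (hf : ∀ x : E, ‖x‖ = 1 → ContDiffAt ℝ 1 f x) :
    ∫ x : sphere (0 : E) 1, fderiv ℝ f x (inner ℝ u (x : E) • v - inner ℝ v (x : E) • u)
      ∂(volume : Measure E).toSphere = 0 := by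
  let R : ℝ → E ≃ₗᵢ[ℝ] E := fun θ =>
    LinearIsometry.toLinearIsometryEquiv ⟨rotL u v θ, norm_rotL hu hv huv θ⟩ rfl
  have hR : ∀ θ y, R θ y = rotL u v θ y := fun _ _ => rfl
  let R' : ℝ → E → E := fun θ y => (-Real.sin θ) • (inner ℝ u y • u + inner ℝ v y • v) +
    Real.cos θ • (inner ℝ u y • v - inner ℝ v y • u)
  have hRd : ∀ θ y, HasDerivAt (fun s => R s y) (R' θ y) θ := by
    intro θ y
    exact ((((Real.hasDerivAt_cos θ).sub_const 1).smul_const _).const_add y).add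
      ((Real.hasDerivAt_sin θ).smul_const _)
  have hn : ∀ θ (x : sphere (0 : E) 1), ‖R θ x‖ = 1 := fun θ x => by
    rw [LinearIsometryEquiv.norm_map]; simp
  have hRc : Continuous fun p : ℝ × sphere (0 : E) 1 => R p.1 p.2 := by
    simp only [hR, rotL, LinearMap.coe_mk, AddHom.coe_mk]
    fun_prop
  have hR'c : Continuous fun p : ℝ × sphere (0 : E) 1 => R' p.1 p.2 := by
    simp only [R']
    fun_prop
  have hfc : Continuous fun p : ℝ × sphere (0 : E) 1 => f (R p.1 p.2) :=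
    continuous_iff_continuousAt.2 fun p =>
      ContinuousAt.comp (hf _ (hn p.1 p.2)).continuousAt hRc.continuousAt
  have hdc : Continuous fun p : ℝ × sphere (0 : E) 1 => fderiv ℝ f (R p.1 p.2) :=
    continuous_iff_continuousAt.2 fun p =>
      ContinuousAt.comp ((hf _ (hn p.1 p.2)).fderiv_right (m := 0) (by simp)).continuousAt
        hRc.continuousAt
  have key := hasDerivAt_integral_sphere (fun θ x => f (R θ x))
    (fun θ x => fderiv ℝ f (R θ x) (R' θ x)) hfc (hdc.clm_apply hR'c)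
    (fun θ x => ((hf _ (hn θ x)).differentiableAt one_ne_zero).hasFDerivAt.comp_hasDerivAt θ
      (hRd θ x))
  have hg : Continuous fun x : sphere (0 : E) 1 => f x :=
    continuous_iff_continuousAt.2 fun x =>
      ContinuousAt.comp (hf _ (by simp)).continuousAt continuous_subtype_val.continuousAt
  have hconst : (fun θ => ∫ x : sphere (0 : E) 1, f (R θ x) ∂(volume : Measure E).toSphere) =
      fun _ => ∫ x : sphere (0 : E) 1, f x ∂(volume : Measure E).toSphere :=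
    funext fun θ => integral_sphMap (R θ) hg
  rw [hconst] at key
  have := key.unique (hasDerivAt_const _ _)
  simpa [hR, rotL, R'] using this

end general

/-- The divergence theorem on the unit sphere for a tangent field with complex components. -/
theorem integral_tdiv_eq_zero {n : ℕ} (Y : Fin n → EuclideanSpace ℝ (Fin n) → ℂ)
    (hY : ∀ j x, ‖x‖ = 1 → ContDiffAt ℝ 1 (Y j) x)
    (ht : ∀ x : EuclideanSpace ℝ (Fin n), ‖x‖ = 1 → ∑ j, (x j : ℂ) * Y j x = 0) :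
    ∫ x : sphere (0 : EuclideanSpace ℝ (Fin n)) 1,
      ∑ j, fderiv ℝ (Y j) x (EuclideanSpace.single j 1 - (x : EuclideanSpace ℝ (Fin n)) j • x.1)
      ∂(volume : Measure (EuclideanSpace ℝ (Fin n))).toSphere = 0 := by
  let g : Fin n → Fin n → EuclideanSpace ℝ (Fin n) → ℂ := fun i j y => (y i : ℂ) * Y j y
  have hco : ∀ i : Fin n, ContDiff ℝ 1 fun y : EuclideanSpace ℝ (Fin n) => (y i : ℂ) := fun i =>
    (Complex.ofRealCLM.comp (EuclideanSpace.proj i : EuclideanSpace ℝ (Fin n) →L[ℝ] ℝ)).contDiff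
  have hg : ∀ i j x, ‖x‖ = 1 → ContDiffAt ℝ 1 (g i j) x := fun i j x hx =>
    (hco i).contDiffAt.mul (hY j x hx)
  let w : Fin n → Fin n → EuclideanSpace ℝ (Fin n) → EuclideanSpace ℝ (Fin n) := fun i j x =>
    x i • EuclideanSpace.single j 1 - x j • EuclideanSpace.single i 1
  have hint : ∀ i j, ∫ x : sphere (0 : EuclideanSpace ℝ (Fin n)) 1, fderiv ℝ (g i j) x (w i j x)
      ∂(volume : Measure (EuclideanSpace ℝ (Fin n))).toSphere = 0 := by
    intro i j
    by_cases h : i = j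
    · simp [w, h]
    · have := integral_rot_eq_zero (u := EuclideanSpace.single i (1 : ℝ))
        (v := EuclideanSpace.single j (1 : ℝ)) (by simp) (by simp)
        (by simp [EuclideanSpace.inner_single_left, h]) (hg i j)
      simpa [EuclideanSpace.inner_single_left, w] using this
  have hcont : ∀ i j, Continuous fun x : sphere (0 : EuclideanSpace ℝ (Fin n)) 1 =>
      fderiv ℝ (g i j) x (w i j x) := by
    intro i j
    refine Continuous.clm_apply (continuous_iff_continuousAt.2 fun x => ContinuousAt.comp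
      ((hg i j _ (by simp)).fderiv_right (m := 0) (by simp)).continuousAt
      continuous_subtype_val.continuousAt) ?_
    simp only [w]
    fun_prop
  have hpt : ∀ x : sphere (0 : EuclideanSpace ℝ (Fin n)) 1,
      ∑ j, fderiv ℝ (Y j) x (EuclideanSpace.single j 1 - (x : EuclideanSpace ℝ (Fin n)) j • x.1) =
        ∑ i, ∑ j, fderiv ℝ (g i j) x (w i j x) := by
    rintro ⟨x, hx⟩
    have hx1 : ‖x‖ = 1 := by simpa using hx
    have hsq : ∑ i, x i * x i = 1 := by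
      have := EuclideanSpace.real_norm_sq_eq x
      rw [hx1] at this
      simpa [sq] using this.symm
    have hd : ∀ i j v, fderiv ℝ (g i j) x v = (x i : ℂ) * fderiv ℝ (Y j) x v + Y j x * (v i : ℂ) := by
      intro i j v
      have h1 : HasFDerivAt (fun y : EuclideanSpace ℝ (Fin n) => (y i : ℂ))
          (Complex.ofRealCLM.comp (EuclideanSpace.proj i : EuclideanSpace ℝ (Fin n) →L[ℝ] ℝ)) x :=
        (Complex.ofRealCLM.comp
          (EuclideanSpace.proj i : EuclideanSpace ℝ (Fin n) →L[ℝ] ℝ)).hasFDerivAt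
      rw [(h1.fun_mul ((hY j x hx1).differentiableAt one_ne_zero).hasFDerivAt).fderiv]
      simp
    have hw : ∀ j, ∑ i, x i • w i j x = EuclideanSpace.single j 1 - x j • x := by
      intro j
      simp only [w, smul_sub, Finset.sum_sub_distrib, smul_smul, ← Finset.sum_smul, hsq, one_smul]
      congr 1
      ext k
      simp [Pi.single_apply, mul_comm]
    simp only [hd, Finset.sum_add_distrib]
    have e1 : ∑ i, ∑ j, (x i : ℂ) * fderiv ℝ (Y j) x (w i j x) =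
        ∑ j, fderiv ℝ (Y j) x (EuclideanSpace.single j 1 - x j • x) := by
      rw [Finset.sum_comm]
      refine Finset.sum_congr rfl fun j _ => ?_
      rw [← hw, map_sum]
      refine Finset.sum_congr rfl fun i _ => ?_
      rw [map_smul, Complex.real_smul]
    have e2 : ∑ i, ∑ j, Y j x * ((w i j x) i : ℂ) = 0 := by
      have h0 := ht x hx1
      have : ∀ i, ∑ j, Y j x * ((w i j x) i : ℂ) = x i * Y i x - ∑ j, (x j : ℂ) * Y j x := by
        intro i
        simp [w, Pi.single_apply, mul_sub, Finset.sum_sub_distrib, mul_comm,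
          apply_ite ((↑) : ℝ → ℂ)]
      simp only [this, Finset.sum_sub_distrib, h0]
      simp
    rw [e1, e2, add_zero]
  simp only [hpt]
  rw [integral_finsetSum _ fun i _ => integrable_finsetSum _ fun j _ =>
    integrable_sphere (hcont i j)]
  refine Finset.sum_eq_zero fun i _ => ?_
  rw [integral_finsetSum _ fun j _ => integrable_sphere (hcont i j)]
  exact Finset.sum_eq_zero fun j _ => hint i j

end Pool.Agent.Work.MP_3fb46c_gt
end

-- merged part: Pool.Agent.Work.MP_3fb46c_gt.FirstVar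
section
/-!
The first variation of the volume of a vector field on the unit sphere.
-/

set_option autoImplicit false

open MeasureTheory Metric Matrix

namespace Pool.Agent.Work.MP_3fb46c_gt

variable {n : ℕ}

lemma hasDerivAt_det {L : ℝ → Matrix (Fin n) (Fin n) ℝ} {L' : Matrix (Fin n) (Fin n) ℝ} {t : ℝ}
    (h : ∀ i j, HasDerivAt (fun s => L s i j) (L' i j) t) :
    HasDerivAt (fun s => (L s).det) ((L t).adjugate * L').trace t := by
  simp only [Matrix.det_apply']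
  have h1 := HasDerivAt.fun_sum (u := Finset.univ) fun (σ : Equiv.Perm (Fin n)) _ =>
    (HasDerivAt.fun_finsetProd (u := Finset.univ) fun (i : Fin n) _ => h (σ i) i).const_mul
      ((Equiv.Perm.sign σ : ℤ) : ℝ)
  refine h1.congr_deriv ?_
  have h2 : ((L t).adjugate * L').trace = ∑ i, ((L t).updateCol i fun k => L' k i).det := by
    simp only [Matrix.trace, diag]
    refine Finset.sum_congr rfl fun i _ => ?_
    rw [← cramer_apply, cramer_eq_adjugate_mulVec]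
    rfl
  rw [h2]
  simp only [Matrix.det_apply', Finset.mul_sum]
  rw [Finset.sum_comm]
  refine Finset.sum_congr rfl fun i _ => Finset.sum_congr rfl fun σ _ => ?_
  congr 1
  rw [← Finset.mul_prod_erase _ _ (Finset.mem_univ i), smul_eq_mul, mul_comm, updateCol_self]
  congr 1
  refine Finset.prod_congr rfl fun j hj => ?_
  rw [updateCol_ne (Finset.ne_of_mem_erase hj)]

/-- The Gram matrix of the graph. -/
def Lm (m : Matrix (Fin n) (Fin n) ℝ) : Matrix (Fin n) (Fin n) ℝ := 1 + mᵀ * m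

lemma det_Lm_pos (m : Matrix (Fin n) (Fin n) ℝ) : 0 < (Lm m).det := by
  have := Matrix.PosDef.one.add_posSemidef (posSemidef_conjTranspose_mul_self m)
  rw [conjTranspose_eq_transpose_of_trivial] at this
  exact this.det_pos

/-- The derivative of the volume density. -/
noncomputable def Kmat (m : Matrix (Fin n) (Fin n) ℝ) : Matrix (Fin n) (Fin n) ℝ :=
  (Real.sqrt (Lm m).det)⁻¹ • (m * (Lm m).adjugate)

lemma hasDerivAt_vol {m : ℝ → Matrix (Fin n) (Fin n) ℝ} {m' : Matrix (Fin n) (Fin n) ℝ} {t : ℝ}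
    (h : ∀ i j, HasDerivAt (fun s => m s i j) (m' i j) t) :
    HasDerivAt (fun s => Real.sqrt (Lm (m s)).det) ((Kmat (m t))ᵀ * m').trace t := by
  have h1 : ∀ i j, HasDerivAt (fun s => Lm (m s) i j) ((m'ᵀ * m t + (m t)ᵀ * m') i j) t := by
    intro i j
    simp only [Lm, Matrix.add_apply, Matrix.mul_apply, transpose_apply]
    rw [← Finset.sum_add_distrib]
    exact (HasDerivAt.fun_sum fun k _ => (h k i).mul (h k j)).const_add _
  refine ((hasDerivAt_det h1).sqrt (det_Lm_pos _).ne').congr_deriv ?_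
  have hs : (Lm (m t))ᵀ = Lm (m t) := by simp [Lm, transpose_mul]
  have ha : (Lm (m t)).adjugateᵀ = (Lm (m t)).adjugate := by rw [adjugate_transpose, hs]
  have h2 : ((Lm (m t)).adjugate * (m'ᵀ * m t)).trace =
      ((Lm (m t)).adjugate * ((m t)ᵀ * m')).trace := by
    rw [← trace_transpose, transpose_mul, transpose_mul, transpose_transpose, ha, trace_mul_comm]
  have h3 : 0 < Real.sqrt (Lm (m t)).det := Real.sqrt_pos.2 (det_Lm_pos _)
  rw [Matrix.mul_add, trace_add, h2, Kmat, transpose_smul, transpose_mul, ha, Matrix.smul_mul,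
    trace_smul, Matrix.mul_assoc, smul_eq_mul]
  field_simp
  ring

lemma continuous_Lm : Continuous (Lm (n := n)) :=
  continuous_const.add (continuous_id.matrix_transpose.matrix_mul continuous_id)

lemma continuous_Kmat : Continuous (Kmat (n := n)) :=
  ((continuous_Lm.matrix_det.sqrt).inv₀ fun m => (Real.sqrt_pos.2 (det_Lm_pos m)).ne').smul
    (continuous_id.matrix_mul continuous_Lm.matrix_adjugate)

abbrev En (n : ℕ) := EuclideanSpace ℝ (Fin n)

/-- The matrix of a continuous linear map in the standard basis. -/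
noncomputable def mat (A : En n →L[ℝ] En n) : Matrix (Fin n) (Fin n) ℝ :=
  LinearMap.toMatrix (EuclideanSpace.basisFun (Fin n) ℝ).toBasis
    (EuclideanSpace.basisFun (Fin n) ℝ).toBasis (A : En n →ₗ[ℝ] En n)

lemma mat_apply (A : En n →L[ℝ] En n) (i j : Fin n) :
    mat A i j = A (EuclideanSpace.single j 1) i := by
  simp [mat, LinearMap.toMatrix_apply]

lemma mat_comp (A B : En n →L[ℝ] En n) : mat (A ∘L B) = mat A * mat B := by
  unfold mat
  rw [← LinearMap.toMatrix_comp]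
  rfl

lemma mat_adjoint (A : En n →L[ℝ] En n) : mat (ContinuousLinearMap.adjoint A) = (mat A)ᵀ := by
  ext i j
  rw [transpose_apply, mat_apply, mat_apply]
  have := ContinuousLinearMap.adjoint_inner_right A (EuclideanSpace.single i (1 : ℝ))
    (EuclideanSpace.single j (1 : ℝ))
  simpa [EuclideanSpace.inner_single_left, EuclideanSpace.inner_single_right] using this

/-- The orthogonal projection onto the tangent space. -/
noncomputable def PiL (x : En n) : En n →L[ℝ] En n :=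
  ContinuousLinearMap.id ℝ (En n) - (innerSL ℝ x).smulRight x

/-- The matrix of the orthogonal projection onto the tangent space. -/
def Pr (x : En n) : Matrix (Fin n) (Fin n) ℝ := 1 - vecMulVec x.ofLp x.ofLp

lemma mat_PiL (x : En n) : mat (PiL x) = Pr x := by
  ext i j
  simp [mat_apply, PiL, Pr, vecMulVec_apply, EuclideanSpace.inner_single_right, Matrix.one_apply,
    Pi.single_apply, mul_comm]

/-- The volume density as it appears in the statement. -/
noncomputable def volInt (A : En n →L[ℝ] En n) (x : En n) : ℝ :=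
  Real.sqrt (LinearMap.det ((ContinuousLinearMap.id ℝ (En n) +
    (ContinuousLinearMap.adjoint (PiL x ∘L A ∘L PiL x)) ∘L (PiL x ∘L A ∘L PiL x) :
      En n →L[ℝ] En n) : En n →ₗ[ℝ] En n))

lemma volInt_eq (A : En n →L[ℝ] En n) (x : En n) :
    volInt A x = Real.sqrt (Lm (Pr x * mat A * Pr x)).det := by
  unfold volInt
  congr 1
  rw [← LinearMap.det_toMatrix (EuclideanSpace.basisFun (Fin n) ℝ).toBasis]
  congr 1
  have e : ∀ B : En n →L[ℝ] En n, mat (ContinuousLinearMap.id ℝ (En n) + B) = 1 + mat B := by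
    intro B
    ext i j
    simp [mat_apply, Matrix.one_apply, Pi.single_apply]
  change mat _ = _
  rw [e, mat_comp, mat_adjoint, mat_comp, mat_comp, mat_PiL, Lm, Matrix.mul_assoc (Pr x)]

lemma continuous_Pr : Continuous (Pr (n := n)) := by
  refine continuous_const.sub (continuous_matrix fun i j => ?_)
  simp only [vecMulVec_apply]
  fun_prop

/-- The variation field. -/
noncomputable def varF (Φ : ℝ → En n → En n) (y : En n) : En n :=
  fderiv ℝ (fun p : ℝ × En n => Φ p.1 p.2) (0, y) (1, 0)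

lemma two_le_infty : (2 : WithTop ℕ∞) ≤ ((⊤ : ℕ∞) : WithTop ℕ∞) :=
  WithTop.coe_le_coe.2 (le_top : (2 : ℕ∞) ≤ ⊤)

section variation

variable {Φ : ℝ → En n → En n}
  (hΦ : ContDiff ℝ ((⊤ : ℕ∞) : WithTop ℕ∞) (fun p : ℝ × En n => Φ p.1 p.2))
include hΦ

lemma contDiff_D1 : ContDiff ℝ 1 (fderiv ℝ (fun p : ℝ × En n => Φ p.1 p.2)) :=
  hΦ.fderiv_right (m := 1) (by rw [one_add_one_eq_two]; exact two_le_infty)

lemma contDiff_varF : ContDiff ℝ 1 (varF Φ) :=
  ((contDiff_D1 hΦ).comp (contDiff_const.prodMk contDiff_id)).clm_apply contDiff_const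

lemma hasFDerivAt_slice (t : ℝ) (x : En n) : HasFDerivAt (Φ t)
    ((fderiv ℝ (fun p : ℝ × En n => Φ p.1 p.2) (t, x)).comp (ContinuousLinearMap.inr ℝ ℝ (En n)))
    x :=
  ((hΦ.differentiable (by simp)) (t, x)).hasFDerivAt.comp x (hasFDerivAt_prodMk_right t x)

lemma hasDerivAt_time (x : En n) : HasDerivAt (fun t => Φ t x) (varF Φ x) 0 := by
  have h4 : HasDerivAt (fun t : ℝ => (t, x)) ((1 : ℝ), (0 : En n)) 0 :=
    (hasDerivAt_id' (0 : ℝ)).prodMk (hasDerivAt_const _ _)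
  exact ((hΦ.differentiable (by simp)) (0, x)).hasFDerivAt.comp_hasDerivAt (0 : ℝ) h4

theorem first_variation :
    HasDerivAt (fun t : ℝ => ∫ x : sphere (0 : En n) 1, volInt (fderiv ℝ (Φ t) x) x
        ∂(volume : Measure (En n)).toSphere)
      (∫ x : sphere (0 : En n) 1, ((Kmat (Pr x.1 * mat (fderiv ℝ (Φ 0) x) * Pr x.1))ᵀ *
        (Pr x.1 * mat (fderiv ℝ (varF Φ) x) * Pr x.1)).trace
        ∂(volume : Measure (En n)).toSphere) 0 := by
  set D1 := fderiv ℝ (fun p : ℝ × En n => Φ p.1 p.2) with hD1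
  have hc1 : ContDiff ℝ 1 D1 := contDiff_D1 hΦ
  set D2 := fderiv ℝ D1 with hD2
  have hc2 : Continuous D2 := hc1.continuous_fderiv one_ne_zero
  let A : ℝ → En n → Matrix (Fin n) (Fin n) ℝ := fun t x =>
    of fun i j => D1 (t, x) (0, EuclideanSpace.single j 1) i
  let A' : ℝ → En n → Matrix (Fin n) (Fin n) ℝ := fun t x =>
    of fun i j => D2 (t, x) (1, 0) (0, EuclideanSpace.single j 1) i
  have hA : ∀ t x, mat (fderiv ℝ (Φ t) x) = A t x := by
    intro t x
    ext i j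
    rw [mat_apply, (hasFDerivAt_slice hΦ t x).fderiv]
    rfl
  have hA' : ∀ x, mat (fderiv ℝ (varF Φ) x) = A' 0 x := by
    intro x
    ext i j
    have h1 : HasFDerivAt (varF Φ)
        ((ContinuousLinearMap.apply ℝ (En n) ((1 : ℝ), (0 : En n))).comp
          ((D2 (0, x)).comp (ContinuousLinearMap.inr ℝ ℝ (En n)))) x :=
      (ContinuousLinearMap.apply ℝ (En n) ((1 : ℝ), (0 : En n))).hasFDerivAt.comp x
        ((hc1.differentiable one_ne_zero (0, x)).hasFDerivAt.comp x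
          (hasFDerivAt_prodMk_right (0 : ℝ) x))
    rw [mat_apply, h1.fderiv]
    have h2 := (hΦ.contDiffAt (x := (0, x))).isSymmSndFDerivAt
      (by simp only [minSmoothness_of_isRCLikeNormedField]; exact two_le_infty)
    exact congrArg (fun v : En n => v i) (h2.eq _ _)
  have hAd : ∀ t x i j, HasDerivAt (fun s => A s x i j) (A' t x i j) t := by
    intro t x i j
    have h4 : HasDerivAt (fun s : ℝ => (s, x)) ((1 : ℝ), (0 : En n)) t :=
      (hasDerivAt_id' t).prodMk (hasDerivAt_const _ _)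
    have h5 := (hc1.differentiable one_ne_zero (t, x)).hasFDerivAt.comp_hasDerivAt t h4
    exact ((EuclideanSpace.proj i : En n →L[ℝ] ℝ).comp
      (ContinuousLinearMap.apply ℝ (En n) ((0 : ℝ), EuclideanSpace.single j (1 : ℝ)))).hasFDerivAt.comp_hasDerivAt t h5
  have hmd : ∀ t x i j, HasDerivAt (fun s => (Pr x * A s x * Pr x) i j)
      ((Pr x * A' t x * Pr x) i j) t := by
    intro t x i j
    simp only [Matrix.mul_apply]
    exact HasDerivAt.fun_sum fun k _ =>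
      (HasDerivAt.fun_sum fun l _ => (hAd t x l k).const_mul _).mul_const _
  have hval : Continuous fun p : ℝ × sphere (0 : En n) 1 => (p.1, p.2.1) := by fun_prop
  have hP : Continuous fun p : ℝ × sphere (0 : En n) 1 => Pr p.2.1 :=
    continuous_Pr.comp (continuous_subtype_val.comp continuous_snd)
  have hAc : Continuous fun p : ℝ × sphere (0 : En n) 1 => A p.1 p.2.1 :=
    continuous_matrix fun i j => (EuclideanSpace.proj i : En n →L[ℝ] ℝ).continuous.comp
      ((hc1.continuous.comp hval).clm_apply continuous_const)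
  have hA'c : Continuous fun p : ℝ × sphere (0 : En n) 1 => A' p.1 p.2.1 :=
    continuous_matrix fun i j => (EuclideanSpace.proj i : En n →L[ℝ] ℝ).continuous.comp
      (((hc2.comp hval).clm_apply continuous_const).clm_apply continuous_const)
  have hm := (hP.matrix_mul hAc).matrix_mul hP
  simp only [volInt_eq, hA, hA']
  exact hasDerivAt_integral_sphere
    (fun t x => Real.sqrt (Lm (Pr x.1 * A t x.1 * Pr x.1)).det)
    (fun t x => ((Kmat (Pr x.1 * A t x.1 * Pr x.1))ᵀ * (Pr x.1 * A' t x.1 * Pr x.1)).trace)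
    (continuous_Lm.comp hm).matrix_det.sqrt
    ((continuous_Kmat.comp hm).matrix_transpose.matrix_mul
      ((hP.matrix_mul hA'c).matrix_mul hP)).matrix_trace
    (fun t x => hasDerivAt_vol (hmd t x.1))

end variation

end Pool.Agent.Work.MP_3fb46c_gt
end
end

-- merged part: Pool.Agent.Work.MP_3fb46c_gt.Point
section
/-!
Pointwise identities linking the volume density with the reduced expressions.
-/

set_option autoImplicit false

open Matrix Complex
open scoped ComplexOrder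

namespace Pool.Agent.Work.MP_3fb46c_gt

/-- Complexification of a real matrix. -/
noncomputable def cm (m : Matrix (Fin 6) (Fin 6) ℝ) : M6 := ofRealHom.mapMatrix m

lemma cm_apply (m : Matrix (Fin 6) (Fin 6) ℝ) (i j : Fin 6) : cm m i j = (m i j : ℂ) := rfl
lemma cm_mul (m m' : Matrix (Fin 6) (Fin 6) ℝ) : cm (m * m') = cm m * cm m' := map_mul _ _ _
lemma cm_transpose (m : Matrix (Fin 6) (Fin 6) ℝ) : cm mᵀ = (cm m)ᵀ := rfl
lemma cm_smul (c : ℝ) (m : Matrix (Fin 6) (Fin 6) ℝ) : cm (c • m) = (c : ℂ) • cm m := by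
  ext i j; simp [cm_apply]
lemma cm_det (m : Matrix (Fin 6) (Fin 6) ℝ) : (cm m).det = (m.det : ℂ) :=
  (ofRealHom.map_det m).symm
lemma cm_adjugate (m : Matrix (Fin 6) (Fin 6) ℝ) : cm m.adjugate = (cm m).adjugate :=
  ofRealHom.map_adjugate m
lemma cm_trace (m : Matrix (Fin 6) (Fin 6) ℝ) : (cm m).trace = (m.trace : ℂ) := by
  simp [Matrix.trace, cm_apply]
lemma cm_Lm (m : Matrix (Fin 6) (Fin 6) ℝ) : cm (Lm m) = 1 + (cm m)ᵀ * cm m := by
  rw [Lm, ← cm_transpose, ← cm_mul]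
  exact (map_add _ _ _).trans (by rw [map_one]; rfl)
lemma cm_Pr (x : E6) : cm (Pr x) = Pm (cx x) := by
  ext i j
  simp [cm_apply, Pr, Pm, cx, vecMulVec_apply, Matrix.one_apply, apply_ite ((↑) : ℝ → ℂ)]

lemma cx_dot (u v : E6) : cx u ⬝ᵥ cx v = ((inner ℝ u v : ℝ) : ℂ) := by
  simp [cx, dotProduct, PiLp.inner_apply, mul_comm]

lemma cx_dot_self {x : E6} (hx : ‖x‖ = 1) : cx x ⬝ᵥ cx x = 1 := by
  rw [cx_dot, real_inner_self_eq_norm_sq, hx]; simp

section algebra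

variable {x : V6} (hx : x ⬝ᵥ x = 1) {t : ℝ} (J : In1 ℂ) (hν : J.ν = nuf t x)
include hx hν

lemma gram_eq : 1 - J.ρ • ((ten t x J.a J.b J.N)ᵀ * ten t x J.a J.b J.N) =
    vecMulVec x x + ten t x J.lam 0 J.M := by
  rw [ten_transpose, ten_mul hx, ← hν]
  simp only [ten, In1.lam, In1.M, Pm, Matrix.mul_add, Matrix.add_mul, Matrix.mul_sub,
    Matrix.sub_mul, Matrix.mul_smul, Matrix.smul_mul]
  module

lemma gram_det (hl : J.lam ≠ 0) :
    (vecMulVec x x + ten t x J.lam 0 J.M).det = J.lam ^ 2 * J.Δ := by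
  rw [det_ten hx t _ hl, ← hν]; rfl

lemma gram_inv : (vecMulVec x x + ten t x J.lam 0 J.M) *
    (ten t x J.Δ 0 (-J.CM) + (J.lam * J.Δ) • vecMulVec x x) = (J.lam * J.Δ) • (1 : M6) := by
  have h1 : ∀ a b N, ten t x a b N * vecMulVec x x = 0 := fun a b N => by
    rw [mul_vecMulVec, ten_x hx]; simp
  have h2 : vecMulVec x x * ten t x J.Δ 0 (-J.CM) = 0 := by
    have := congrArg transpose (h1 J.Δ (-0) (-J.CM)ᵀ)
    rwa [transpose_mul, transpose_vecMulVec, ← ten_transpose, transpose_transpose,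
      transpose_zero] at this
  have h3 : vecMulVec x x * vecMulVec x x = vecMulVec x x := by
    rw [vecMulVec_mul_vecMulVec, hx, one_smul]
  have h4 : J.lam • J.CM + J.M * Gm J.ν * J.CM = J.Δ • J.M := by
    have : J.B * J.CM = J.Δ • J.M := by
      rw [In1.CM, ← Matrix.mul_assoc, mul_adjugate, Matrix.smul_mul, Matrix.one_mul]; rfl
    rw [← this, In1.B, Matrix.add_mul, Matrix.smul_mul, Matrix.one_mul]
  have h5 : ten t x J.lam 0 J.M * ten t x J.Δ 0 (-J.CM) = (J.lam * J.Δ) • Pm x := by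
    rw [ten_mul hx, ← hν]
    have : ((0 : ℂ) * 0) • E00 ℂ + J.lam • (-J.CM) + J.Δ • J.M + (0 : ℂ) • (Dm ℂ * (-J.CM)) -
        (0 : ℂ) • (J.M * Dm ℂ) + J.M * Gm J.ν * (-J.CM) = 0 := by
      rw [← h4, Matrix.mul_neg (J.M * Gm J.ν)]; module
    rw [this]
    simp [ten]
  rw [Matrix.add_mul, Matrix.mul_add, Matrix.mul_add, Matrix.mul_smul, Matrix.mul_smul, h1, h2, h3,
    h5, Pm]
  module

lemma gram_adj (hl : J.lam ≠ 0) (hΔ : J.Δ ≠ 0) :
    ten t x J.a J.b J.N * (vecMulVec x x + ten t x J.lam 0 J.M).adjugate =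
      J.lam • ten t x J.KA J.KB J.n := by
  have h1 : ∀ a b N, ten t x a b N * vecMulVec x x = 0 := fun a b N => by
    rw [mul_vecMulVec, ten_x hx]; simp
  have h2 : (vecMulVec x x + ten t x J.lam 0 J.M).adjugate =
      J.lam • (ten t x J.Δ 0 (-J.CM) + (J.lam * J.Δ) • vecMulVec x x) := by
    have h3 := congrArg (fun A => (vecMulVec x x + ten t x J.lam 0 J.M).adjugate * A)
      (gram_inv hx J hν)
    simp only [← Matrix.mul_assoc, adjugate_mul, gram_det hx J hν hl, Matrix.smul_mul,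
      Matrix.one_mul, Matrix.mul_smul, Matrix.mul_one] at h3
    apply smul_right_injective M6 (mul_ne_zero hl hΔ)
    simp only
    rw [← h3, smul_smul]
    congr 1
    ring
  rw [h2, Matrix.mul_smul, Matrix.mul_add, Matrix.mul_smul, h1, smul_zero, add_zero, ten_mul hx,
    ← hν]
  congr 2
  · simp [In1.KA]
  · simp [In1.KB]
  · simp only [In1.n, Matrix.mul_neg]; module

lemma Kmat_eq {r l : ℝ} (hr : (r : ℂ) ^ 2 = J.ρ) (hl : 0 < l) (hlam : J.lam = l)
    {m : Matrix (Fin 6) (Fin 6) ℝ} (hm : cm m = (r * I) • ten t x J.a J.b J.N) :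
    J.Δ ∈ slitPlane ∧
      cm (Kmat m) = (r * I * J.Δ ^ (-(1 / 2) : ℂ)) • ten t x J.KA J.KB J.n := by
  have hl' : J.lam ≠ 0 := by rw [hlam]; exact_mod_cast hl.ne'
  have h1 : cm (Lm m) = vecMulVec x x + ten t x J.lam 0 J.M := by
    rw [cm_Lm, hm, ← gram_eq hx J hν, transpose_smul, Matrix.smul_mul, Matrix.mul_smul, smul_smul,
      sub_eq_add_neg, ← neg_smul]
    congr 2
    rw [← hr]
    linear_combination (r : ℂ) ^ 2 * I_mul_I
  have hD := det_Lm_pos m
  have h2 : J.Δ = (((Lm m).det / l ^ 2 : ℝ) : ℂ) := by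
    have := gram_det hx J hν hl'
    rw [← h1, cm_det, hlam] at this
    have hl2 : (l : ℂ) ≠ 0 := by exact_mod_cast hl.ne'
    push_cast
    rw [this]
    field_simp
  have hpos : 0 < (Lm m).det / l ^ 2 := by positivity
  have hΔ : J.Δ ≠ 0 := by rw [h2]; exact_mod_cast hpos.ne'
  refine ⟨by rw [h2]; exact ofReal_mem_slitPlane.2 hpos, ?_⟩
  have h3 : J.Δ ^ (-(1 / 2) : ℂ) = (((Real.sqrt (Lm m).det)⁻¹ * l : ℝ) : ℂ) := by
    have e : (-(1 / 2) : ℂ) = ((-(1 / 2) : ℝ) : ℂ) := by push_cast; ring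
    rw [h2, e, ← ofReal_cpow hpos.le]
    congr 1
    rw [Real.rpow_neg hpos.le, ← Real.sqrt_eq_rpow, Real.sqrt_div hD.le, Real.sqrt_sq hl.le,
      inv_div, div_eq_inv_mul]
  rw [Kmat, cm_smul, cm_mul, cm_adjugate, h1, hm, Matrix.smul_mul, gram_adj hx J hν hl' hΔ, h3,
    hlam, smul_smul, smul_smul]
  congr 1
  push_cast
  ring

end algebra

/-- The tangential projection of a basis vector. -/
noncomputable def tv (x : E6) (j : Fin 6) : E6 := EuclideanSpace.single j 1 - x j • x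

lemma cx_tv (x : E6) (j : Fin 6) : cx (tv x j) = Pm (cx x) j := by
  ext l
  simp [cx, tv, Pm, vecMulVec_apply, Matrix.one_apply, Pi.single_apply, eq_comm,
    apply_ite ((↑) : ℝ → ℂ)]

lemma inner_tv {x : E6} (hx : ‖x‖ = 1) (j : Fin 6) : inner ℝ x (tv x j) = 0 := by
  rw [tv, inner_sub_right, inner_smul_right, real_inner_self_eq_norm_sq, hx]
  simp [EuclideanSpace.inner_single_right]

lemma Pm_mulVec_apply (x : E6) (c : V6) (j : Fin 6) : (Pm (cx x) *ᵥ c) j = c ⬝ᵥ cx (tv x j) := by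
  rw [cx_tv, dotProduct_comm]; rfl

lemma star_Pm_mulVec (x : E6) (c : V6) : star (Pm (cx x) *ᵥ c) = Pm (cx x) *ᵥ star c := by
  rw [← cm_Pr]
  ext i
  simp [mulVec, dotProduct, cm_apply]

lemma HD.real {K : E6 → M6} {x : E6} {d : V6} (h : HD K x d) (hx : ‖x‖ = 1)
    (hK : ∀ y : E6, ‖y‖ = 1 → ∀ i j, (K y i j).im = 0) : star d = d := by
  obtain ⟨C, h1, h2⟩ := h
  rw [← h2, star_Pm_mulVec]
  congr 1
  ext i
  simp only [Pi.star_apply, star_sum]
  refine Finset.sum_congr rfl fun j _ => ?_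
  have h3 := fderiv_tangent_eq_zero hx (inner_tv hx j)
    (imCLM.hasFDerivAt.comp x (h1 i j)) (fun y hy => hK y hy i j)
  rw [Pm_mulVec_apply, ← gradL_apply]
  exact conj_eq_iff_im.2 h3

lemma mat_mulVec (A : E6 →L[ℝ] E6) (v : E6) : cm (mat A) *ᵥ cx v = cx (A v) := by
  ext i
  have : v = ∑ j, v j • EuclideanSpace.single j (1 : ℝ) := by
    ext k; simp [Pi.single_apply]
  conv_rhs => rw [this]
  simp [mulVec, dotProduct, cm_apply, mat_apply, cx, mul_comm]

lemma hg_comp {Ψ : E6 → E6} {x : E6} (h : DifferentiableAt ℝ Ψ x) :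
    HJv (fun y => cx (Ψ y)) x (cm (mat (fderiv ℝ Ψ x))) := fun i =>
  HG.of_eq ((gradL (Pi.single i 1)).hasFDerivAt.comp x h.hasFDerivAt |>.congr_of_eventuallyEq
    (Filter.Eventually.of_forall fun y => by simp [gradL_apply])) (fun v => by
      simp only [ContinuousLinearMap.coe_comp, Function.comp_apply, gradL_apply]
      rw [← mat_mulVec]
      simp [mulVec])

lemma HD.pairing {K : E6 → M6} {x : E6} {d : V6} (h : HD K x d) {Ψ : E6 → E6}
    (hΨ : DifferentiableAt ℝ Ψ x) (h0 : cx x ⬝ᵥ cx (Ψ x) = 0) :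
    ∑ j, fderiv ℝ (fun y => ∑ i, K y i j * cx (Ψ y) i) x (tv x j) =
      d ⬝ᵥ cx (Ψ x) + ((K x)ᵀ * (cm (mat (fderiv ℝ Ψ x)) * Pm (cx x))).trace := by
  obtain ⟨C, h1, h2⟩ := h
  have h3 : ∀ j, HG (fun y => ∑ i, K y i j * cx (Ψ y) i) x
      (∑ i, (K x i j • cm (mat (fderiv ℝ Ψ x)) i + cx (Ψ x) i • C i j)) := fun j =>
    HG.sum _ fun i _ => (h1 i j).mul (hg_comp hΨ i)
  have h4 : Pm (cx x) *ᵥ cx (Ψ x) = cx (Ψ x) := by rw [Pm_mulVec, h0]; simp
  simp only [(h3 _).fderiv_apply, sum_dotProduct, add_dotProduct, smul_dotProduct, smul_eq_mul,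
    Finset.sum_add_distrib]
  rw [add_comm]
  congr 1
  · rw [← h2, dotProduct_comm, dotProduct_mulVec, ← mulVec_transpose, Pm_transpose, h4,
      Finset.sum_comm]
    simp only [dotProduct.eq_1 (cx (Ψ x)), Pm_mulVec_apply, Finset.mul_sum]
  · simp only [Matrix.trace, diag, Matrix.mul_apply, transpose_apply, cx_tv]
    refine Finset.sum_congr rfl fun j _ => Finset.sum_congr rfl fun i _ => ?_
    congr 1
    conv_rhs => rw [← Pm_transpose]
    rfl

lemma tangential_jac {x : E6} (hx : ‖x‖ = 1) {φ : E6 → E6} (hφ : DifferentiableAt ℝ φ x)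
    {V : E6 → V6} {M : M6} (hV : HJv V x M) (he : ∀ y : E6, ‖y‖ = 1 → cx (φ y) = V y) :
    cm (mat (fderiv ℝ φ x)) * Pm (cx x) = M * Pm (cx x) := by
  ext i l
  have h1 := fderiv_tangent_eq_zero hx (inner_tv hx l) ((hg_comp hφ).sub hV i)
    (fun y hy => by simp [he y hy])
  rw [gradL_apply, cx_tv] at h1
  change (cm (mat (fderiv ℝ φ x)) i - M i) ⬝ᵥ _ = 0 at h1
  rw [sub_dotProduct, sub_eq_zero] at h1
  conv_lhs => rw [← Pm_transpose]
  conv_rhs => rw [← Pm_transpose]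
  exact h1

lemma star_cx (y : E6) : star (cx y) = cx y := by ext i; simp [cx]

lemma star_Tv (y : E6) : star (Tv (cx y)) = -Tv (cx y) := by
  ext i
  fin_cases i <;> simp [Tv, jm, cx, mulVec, dotProduct, Fin.sum_univ_six]

lemma star_pv (t : ℝ) : star (pv t) = qv t := by
  ext i; fin_cases i <;> simp [pv, qv]

lemma wf_eq (t : ℝ) (y : E6) : wf t (cx y) = (starRingEnd ℂ) (zf t (cx y)) := by
  simp [wf, zf, pv, qv, cx, dotProduct, Fin.sum_univ_six]

lemma star_Zv (t : ℝ) (y : E6) : star (Zv t (cx y)) = Zb t (cx y) := by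
  rw [Zv, Zb, star_sub, star_sub, star_smul, star_smul, star_pv, star_cx, star_Tv, wf_eq]
  simp

lemma star_Zb (t : ℝ) (y : E6) : star (Zb t (cx y)) = Zv t (cx y) := by
  rw [← star_Zv, star_star]

/-- If a real vector is a combination of the field and of the antiholomorphic frame vector, then it
is a multiple of the field. -/
lemma parallel_of_real {x : E6} (hx : ‖x‖ = 1) (t : ℝ) {o0 o1 o2 e0 e1 e2 : ℂ} (h0 : o0 ≠ 0)
    (hW : star (o0 • Tv (cx x) + o1 • Zv t (cx x) + o2 • Zb t (cx x)) =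
      -(o0 • Tv (cx x) + o1 • Zv t (cx x) + o2 • Zb t (cx x)))
    (hd : star (e0 • Tv (cx x) + e1 • Zv t (cx x) + e2 • Zb t (cx x)) =
      e0 • Tv (cx x) + e1 • Zv t (cx x) + e2 • Zb t (cx x))
    (hF : o0 * e1 - o1 * e0 = 0) :
    e0 • Tv (cx x) + e1 • Zv t (cx x) + e2 • Zb t (cx x) =
      (e0 / o0) • (o0 • Tv (cx x) + o1 • Zv t (cx x) + o2 • Zb t (cx x)) := by
  have hx' := cx_dot_self hx
  set W := o0 • Tv (cx x) + o1 • Zv t (cx x) + o2 • Zb t (cx x) with hWd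
  set d := e0 • Tv (cx x) + e1 • Zv t (cx x) + e2 • Zb t (cx x) with hdd
  have h1 : d = (e0 / o0) • W + (e2 - e0 / o0 * o2) • Zb t (cx x) := by
    have a1 : e0 = e0 / o0 * o0 := by field_simp
    have a2 : e1 = e0 / o0 * o1 := by field_simp; linear_combination hF
    rw [hdd, hWd]
    conv_lhs => rw [a1, a2]
    module
  have h2 := congrArg star h1
  rw [hd, star_add, star_smul, star_smul, hW, star_Zb] at h2
  have hTW : Tv (cx x) ⬝ᵥ W = -o0 := by
    simp [hWd, Tv_Tv hx', Tv_Zv hx', Tv_Zb hx']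
  have h3 : star (e0 / o0) = -(e0 / o0) := by
    have b1 := congrArg (fun v => Tv (cx x) ⬝ᵥ v) h1
    have b2 := congrArg (fun v => Tv (cx x) ⬝ᵥ v) h2
    simp only [dotProduct_add, dotProduct_smul, dotProduct_neg, hTW, Tv_Zv hx', Tv_Zb hx',
      smul_eq_mul] at b1 b2
    apply mul_right_cancel₀ h0
    linear_combination b1 - b2
  have h4 : star ((e2 - e0 / o0 * o2) • Zb t (cx x)) = (e2 - e0 / o0 * o2) • Zb t (cx x) := by
    rw [star_smul, star_Zb]
    rw [h3, neg_smul_neg] at h2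
    exact add_left_cancel (h2.symm.trans h1)
  have h5 : (e2 - e0 / o0 * o2) • Zb t (cx x) = 0 := by
    rw [← dotProduct_star_self_eq_zero, h4]
    simp [Zb_Zb hx']
  rw [h1, h5, add_zero]

end Pool.Agent.Work.MP_3fb46c_gt
end

-- merged part: Pool.Agent.Work.MP_3fb46c_gt.Exist
section
-- merged part: Pool.Agent.Work.MP_3fb46c_gt.Closure
section
/-!
Smoothness and first-order jets of the reduced expressions along families of inputs.
-/

set_option autoImplicit false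

namespace Pool.Agent.Work.MP_3fb46c_gt

section generic

variable {A : Type*} [CommRing A] (S : Subring A)

def Jet.inS (g : Jet A) : Prop := g.v ∈ S ∧ g.d0 ∈ S ∧ g.d1 ∈ S

def Jet.lift (g : Jet A) (h : g.inS S) : Jet S := ⟨⟨g.v, h.1⟩, ⟨g.d0, h.2.1⟩, ⟨g.d1, h.2.2⟩⟩

lemma In1.out_mem (I : In1 A) (hz : I.z ∈ S) (hw : I.w ∈ S) (hν : I.ν ∈ S) (hρ : I.ρ ∈ S)
    (h0 : I.o0.inS S) (h1 : I.o1.inS S) (h2 : I.o2.inS S) :
    I.KA ∈ S ∧ I.KB ∈ S ∧ I.Δ ∈ S ∧ ∀ i j, I.n i j ∈ S := by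
  let I' : In1 S := ⟨⟨I.z, hz⟩, ⟨I.w, hw⟩, ⟨I.ν, hν⟩, ⟨I.ρ, hρ⟩, I.o0.lift S h0, I.o1.lift S h1,
    I.o2.lift S h2⟩
  have e : I = I'.map S.subtype := rfl
  rw [e, In1.KA_map, In1.KB_map, In1.Δ_map, In1.n_map]
  exact ⟨I'.KA.2, I'.KB.2, I'.Δ.2, fun i j => (I'.n i j).2⟩

lemma In2.out_mem (I : In2 A) (hz : I.z ∈ S) (hw : I.w ∈ S) (hν : I.ν ∈ S) (h0 : I.o0 ∈ S)
    (h1 : I.o1 ∈ S) (hA : I.A.inS S) (hB : I.B.inS S) (hΔ : I.Δ.inS S)
    (hn : ∀ i j, (I.n i j).inS S) : I.F ∈ S := by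
  let I' : In2 S := ⟨⟨I.z, hz⟩, ⟨I.w, hw⟩, ⟨I.ν, hν⟩, ⟨I.o0, h0⟩, ⟨I.o1, h1⟩, I.A.lift S hA,
    I.B.lift S hB, I.Δ.lift S hΔ, fun i j => (I.n i j).lift S (hn i j)⟩
  have e : I = I'.map S.subtype := rfl
  rw [e, In2.F_map]
  exact I'.F.2

end generic

section smooth

variable {P : Type*} [NormedAddCommGroup P] [NormedSpace ℝ P]
  {R : Type*} [NormedCommRing R] [NormedAlgebra ℝ R]

/-- Functions of class `C^n` at a point. -/
def cdSub (R : Type*) [NormedCommRing R] [NormedAlgebra ℝ R] (n : WithTop ℕ∞) (p0 : P) :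
    Subring (P → R) where
  carrier := {f | ContDiffAt ℝ n f p0}
  mul_mem' := fun hf hg => ContDiffAt.mul hf hg
  one_mem' := contDiffAt_const
  add_mem' := fun hf hg => ContDiffAt.add hf hg
  zero_mem' := contDiffAt_const
  neg_mem' := fun hf => ContDiffAt.neg hf

def Jet.pi {P R : Type*} (g : P → Jet R) : Jet (P → R) :=
  ⟨fun p => (g p).v, fun p => (g p).d0, fun p => (g p).d1⟩

def JetCD (n : WithTop ℕ∞) (g : P → Jet R) (p0 : P) : Prop :=
  ContDiffAt ℝ n (fun p => (g p).v) p0 ∧ ContDiffAt ℝ n (fun p => (g p).d0) p0 ∧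
    ContDiffAt ℝ n (fun p => (g p).d1) p0

lemma In1.out_contDiffAt {n : WithTop ℕ∞} {p0 : P} (I : P → In1 R)
    (hz : ContDiffAt ℝ n (fun p => (I p).z) p0) (hw : ContDiffAt ℝ n (fun p => (I p).w) p0)
    (hν : ContDiffAt ℝ n (fun p => (I p).ν) p0) (hρ : ContDiffAt ℝ n (fun p => (I p).ρ) p0)
    (h0 : JetCD n (fun p => (I p).o0) p0) (h1 : JetCD n (fun p => (I p).o1) p0)
    (h2 : JetCD n (fun p => (I p).o2) p0) :
    ContDiffAt ℝ n (fun p => (I p).KA) p0 ∧ ContDiffAt ℝ n (fun p => (I p).KB) p0 ∧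
      ContDiffAt ℝ n (fun p => (I p).Δ) p0 ∧ ∀ i j, ContDiffAt ℝ n (fun p => (I p).n i j) p0 := by
  let J : In1 (P → R) := ⟨fun p => (I p).z, fun p => (I p).w, fun p => (I p).ν, fun p => (I p).ρ,
    Jet.pi fun p => (I p).o0, Jet.pi fun p => (I p).o1, Jet.pi fun p => (I p).o2⟩
  have e : ∀ p, I p = J.map (Pi.evalRingHom (fun _ => R) p) := fun p => rfl
  obtain ⟨a, b, c, d⟩ := J.out_mem (cdSub R n p0) hz hw hν hρ h0 h1 h2
  simp only [e, In1.KA_map, In1.KB_map, In1.Δ_map, In1.n_map]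
  exact ⟨a, b, c, d⟩

lemma In2.out_contDiffAt {n : WithTop ℕ∞} {p0 : P} (I : P → In2 R)
    (hz : ContDiffAt ℝ n (fun p => (I p).z) p0) (hw : ContDiffAt ℝ n (fun p => (I p).w) p0)
    (hν : ContDiffAt ℝ n (fun p => (I p).ν) p0) (h0 : ContDiffAt ℝ n (fun p => (I p).o0) p0)
    (h1 : ContDiffAt ℝ n (fun p => (I p).o1) p0)
    (hA : JetCD n (fun p => (I p).A) p0) (hB : JetCD n (fun p => (I p).B) p0)
    (hΔ : JetCD n (fun p => (I p).Δ) p0) (hn : ∀ i j, JetCD n (fun p => (I p).n i j) p0) :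
    ContDiffAt ℝ n (fun p => (I p).F) p0 := by
  let J : In2 (P → R) := ⟨fun p => (I p).z, fun p => (I p).w, fun p => (I p).ν, fun p => (I p).o0,
    fun p => (I p).o1, Jet.pi fun p => (I p).A, Jet.pi fun p => (I p).B, Jet.pi fun p => (I p).Δ,
    fun i j => Jet.pi fun p => (I p).n i j⟩
  have e : ∀ p, I p = J.map (Pi.evalRingHom (fun _ => R) p) := fun p => rfl
  have a := J.out_mem (cdSub R n p0) hz hw hν h0 h1 hA hB hΔ hn
  simp only [e, In2.F_map]
  exact a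

/-- `f` has value and derivative at `0` given by the dual number `x`. -/
def HJ (f : ℝ → R) (x : DualNumber R) : Prop := f 0 = x.fst ∧ HasDerivAt f x.snd 0

/-- Pairs of a curve and its first-order jet at `0`. -/
def hjSub (R : Type*) [NormedCommRing R] [NormedAlgebra ℝ R] :
    Subring ((ℝ → R) × DualNumber R) where
  carrier := {u | HJ u.1 u.2}
  mul_mem' := fun {u v} hu hv => ⟨by simp [hu.1, hv.1], by
    have := hu.2.mul hv.2
    rw [hu.1, hv.1] at this
    refine this.congr_deriv ?_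
    rw [Prod.snd_mul, DualNumber.snd_mul, add_comm]⟩
  one_mem' := ⟨rfl, hasDerivAt_const _ _⟩
  add_mem' := fun {u v} hu hv => ⟨by simp [hu.1, hv.1], hu.2.add hv.2⟩
  zero_mem' := ⟨rfl, hasDerivAt_const _ _⟩
  neg_mem' := fun {u} hu => ⟨by simp [hu.1], hu.2.neg⟩

def JetHJ (g : ℝ → Jet R) (G : Jet (DualNumber R)) : Prop :=
  HJ (fun t => (g t).v) G.v ∧ HJ (fun t => (g t).d0) G.d0 ∧ HJ (fun t => (g t).d1) G.d1

def Jet.pair {R : Type*} (g : ℝ → Jet R) (G : Jet (DualNumber R)) :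
    Jet ((ℝ → R) × DualNumber R) :=
  ⟨(fun t => (g t).v, G.v), (fun t => (g t).d0, G.d0), (fun t => (g t).d1, G.d1)⟩

lemma In1.out_hj (I : ℝ → In1 R) (K : In1 (DualNumber R))
    (hz : HJ (fun p => (I p).z) K.z) (hw : HJ (fun p => (I p).w) K.w)
    (hν : HJ (fun p => (I p).ν) K.ν) (hρ : HJ (fun p => (I p).ρ) K.ρ)
    (h0 : JetHJ (fun p => (I p).o0) K.o0) (h1 : JetHJ (fun p => (I p).o1) K.o1)
    (h2 : JetHJ (fun p => (I p).o2) K.o2) :
    HJ (fun p => (I p).KA) K.KA ∧ HJ (fun p => (I p).KB) K.KB ∧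
      HJ (fun p => (I p).Δ) K.Δ ∧ ∀ i j, HJ (fun p => (I p).n i j) (K.n i j) := by
  let J : In1 ((ℝ → R) × DualNumber R) := ⟨(fun p => (I p).z, K.z), (fun p => (I p).w, K.w),
    (fun p => (I p).ν, K.ν), (fun p => (I p).ρ, K.ρ),
    Jet.pair (fun p => (I p).o0) K.o0, Jet.pair (fun p => (I p).o1) K.o1,
    Jet.pair (fun p => (I p).o2) K.o2⟩
  have e : ∀ p, I p = J.map ((Pi.evalRingHom (fun _ => R) p).comp (RingHom.fst _ _)) :=
    fun p => rfl
  have e' : K = J.map (RingHom.snd _ _) := rfl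
  obtain ⟨a, b, c, d⟩ := J.out_mem (hjSub R) hz hw hν hρ h0 h1 h2
  rw [e']
  simp only [e, In1.KA_map, In1.KB_map, In1.Δ_map, In1.n_map]
  exact ⟨a, b, c, d⟩

lemma In2.out_hj (I : ℝ → In2 R) (K : In2 (DualNumber R))
    (hz : HJ (fun p => (I p).z) K.z) (hw : HJ (fun p => (I p).w) K.w)
    (hν : HJ (fun p => (I p).ν) K.ν) (h0 : HJ (fun p => (I p).o0) K.o0)
    (h1 : HJ (fun p => (I p).o1) K.o1)
    (hA : JetHJ (fun p => (I p).A) K.A) (hB : JetHJ (fun p => (I p).B) K.B)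
    (hΔ : JetHJ (fun p => (I p).Δ) K.Δ) (hn : ∀ i j, JetHJ (fun p => (I p).n i j) (K.n i j)) :
    HJ (fun p => (I p).F) K.F := by
  let J : In2 ((ℝ → R) × DualNumber R) := ⟨(fun p => (I p).z, K.z), (fun p => (I p).w, K.w),
    (fun p => (I p).ν, K.ν), (fun p => (I p).o0, K.o0), (fun p => (I p).o1, K.o1),
    Jet.pair (fun p => (I p).A) K.A, Jet.pair (fun p => (I p).B) K.B,
    Jet.pair (fun p => (I p).Δ) K.Δ, fun i j => Jet.pair (fun p => (I p).n i j) (K.n i j)⟩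
  have e : ∀ p, I p = J.map ((Pi.evalRingHom (fun _ => R) p).comp (RingHom.fst _ _)) :=
    fun p => rfl
  have e' : K = J.map (RingHom.snd _ _) := rfl
  have a := J.out_mem (hjSub R) hz hw hν h0 h1 hA hB hΔ hn
  rw [e']
  simp only [e, In2.F_map]
  exact a

lemma HJ.const (c : R) : HJ (fun _ => c) (dn c 0) := ⟨rfl, hasDerivAt_const _ _⟩

lemma HJ.clm {R' : Type*} [NormedCommRing R'] [NormedAlgebra ℝ R'] (L : R →L[ℝ] R') {f : ℝ → R}
    {a b : R} (h : HJ f (dn a b)) : HJ (fun t => L (f t)) (dn (L a) (L b)) :=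
  ⟨congrArg L h.1, L.hasFDerivAt.comp_hasDerivAt (0 : ℝ) h.2⟩

end smooth

end Pool.Agent.Work.MP_3fb46c_gt
end

-- merged part: Pool.Agent.Work.MP_3fb46c_gt.Bifurc
section
/-!
An abstract bifurcation lemma: a zero set branching off a trivial family of zeros.
-/

set_option autoImplicit false

open Filter Topology Metric Set

namespace Pool.Agent.Work.MP_3fb46c_gt

theorem exists_zero_of_bifurcation {X Y : Type*} [NormedAddCommGroup X] [NormedSpace ℝ X]
    [CompleteSpace X] [NormedAddCommGroup Y] [NormedSpace ℝ Y] [CompleteSpace Y]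
    (F : ℝ × X → Y) (x0 : X) (T : X →L[ℝ] Y) (hsurj : T.range = ⊤) (hF : ContDiffAt ℝ 2 F (0, x0))
    (h0 : ∀ᶠ x in 𝓝 x0, F (0, x) = 0) (ψ : X → Y)
    (hψ : ∀ᶠ x in 𝓝 x0, HasDerivAt (fun t => F (t, x)) (ψ x) 0) (hψ0 : ψ x0 = 0)
    (hT : HasFDerivAt ψ T x0) (U : Set (ℝ × X)) (hU : U ∈ 𝓝 ((0 : ℝ), x0)) :
    ∃ p ∈ U, p.1 ≠ 0 ∧ F p = 0 := by
  set p0 : ℝ × X := (0, x0) with hp0
  set D : ℝ × X → (ℝ × X →L[ℝ] Y) := fderiv ℝ F with hD
  have hD1 : ContDiffAt ℝ 1 D p0 := hF.fderiv_right (m := 1) (by norm_num)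
  have hDs : HasStrictFDerivAt D (fderiv ℝ D p0) p0 := hD1.hasStrictFDerivAt (by norm_num)
  have hdiff : ∀ᶠ p in 𝓝 p0, DifferentiableAt ℝ F p :=
    (hF.eventually (by simp)).mono fun p hp => hp.differentiableAt (by norm_num)
  have hin : Tendsto (fun x : X => ((0 : ℝ), x)) (𝓝 x0) (𝓝 p0) :=
    (continuous_const.prodMk continuous_id).continuousAt.tendsto
  -- identification of the mixed second derivative
  have hψD : ∀ᶠ x in 𝓝 x0, ψ x = D (0, x) (1, 0) := by
    filter_upwards [hψ, hin.eventually hdiff] with x h1 h2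
    have h3 : HasDerivAt (fun t : ℝ => F (t, x)) (D (0, x) (1, 0)) 0 := by
      have h4 : HasDerivAt (fun t : ℝ => (t, x)) ((1 : ℝ), (0 : X)) 0 :=
        (hasDerivAt_id' (0 : ℝ)).prodMk (hasDerivAt_const _ _)
      exact h2.hasFDerivAt.comp_hasDerivAt (0 : ℝ) h4
    exact h1.unique h3
  have hTeq : ∀ v : X, fderiv ℝ D p0 (1, 0) (0, v) = T v := by
    intro v
    have h1 : HasFDerivAt (fun x : X => D (0, x) (1, 0))
        ((ContinuousLinearMap.apply ℝ Y ((1 : ℝ), (0 : X))).comp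
          ((fderiv ℝ D p0).comp (ContinuousLinearMap.inr ℝ ℝ X))) x0 :=
      (ContinuousLinearMap.apply ℝ Y ((1 : ℝ), (0 : X))).hasFDerivAt.comp x0
        (hDs.hasFDerivAt.comp x0 (hasFDerivAt_prodMk_right (0 : ℝ) x0))
    have h2 := (h1.congr_of_eventuallyEq hψD).unique hT
    have h3 := congrArg (fun L : X →L[ℝ] Y => L v) h2
    simp only [ContinuousLinearMap.coe_comp, Function.comp_apply, ContinuousLinearMap.inr_apply,
      ContinuousLinearMap.apply_apply] at h3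
    rw [← h3]
    exact (hF.isSymmSndFDerivAt (by simp)).eq _ _
  -- the derivative in the second variable
  let R : (ℝ × X →L[ℝ] Y) →L[ℝ] (X →L[ℝ] Y) :=
    (ContinuousLinearMap.compL ℝ X (ℝ × X) Y).flip (ContinuousLinearMap.inr ℝ ℝ X)
  have hR : ∀ L : ℝ × X →L[ℝ] Y, R L = L.comp (ContinuousLinearMap.inr ℝ ℝ X) := fun L => rfl
  let Φ : ℝ × X → (X →L[ℝ] Y) := fun p => R (D p)
  have hΦs : HasStrictFDerivAt Φ (R.comp (fderiv ℝ D p0)) p0 := R.hasStrictFDerivAt.comp p0 hDs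
  have hΦT : ∀ t : ℝ, (R.comp (fderiv ℝ D p0)) (t, 0) = t • T := by
    intro t
    have : ((t, 0) : ℝ × X) = t • ((1, 0) : ℝ × X) := by simp
    rw [this, map_smul]
    congr 1
    ext v
    simp [hR, hTeq]
  have hΦd : ∀ p : ℝ × X, DifferentiableAt ℝ F p → HasFDerivAt (fun y => F (p.1, y)) (Φ p) p.2 :=
    fun p hp => hp.hasFDerivAt.comp p.2 (hasFDerivAt_prodMk_right p.1 p.2)
  have hΦ0 : ∀ᶠ x in 𝓝 x0, Φ (0, x) = 0 := by
    filter_upwards [h0.eventually_nhds, hin.eventually hdiff] with x h1 h2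
    have h3 : HasFDerivAt (fun y => F (0, y)) (0 : X →L[ℝ] Y) x :=
      (hasFDerivAt_const (0 : Y) x).congr_of_eventuallyEq h1
    exact (hΦd (0, x) h2).unique h3
  -- constants
  obtain ⟨S, hS⟩ := T.exists_nonlinearRightInverse_of_surjective hsurj
  set c : NNReal := S.nnnorm⁻¹ / 2 with hc
  have hcpos : (0 : ℝ) < c := by
    have : (0 : ℝ) < S.nnnorm := hS
    simp only [hc, NNReal.coe_div, NNReal.coe_inv, NNReal.coe_ofNat]
    positivity
  have hcc : ((S.nnnorm : ℝ))⁻¹ - c = c := by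
    simp only [hc, NNReal.coe_div, NNReal.coe_inv, NNReal.coe_ofNat]
    ring
  have hA : ∀ᶠ p in 𝓝 p0, ‖Φ p - p.1 • T‖ ≤ c * |p.1| := by
    have h1 := hΦs.isLittleO.def hcpos
    have h2 : Tendsto (fun p : ℝ × X => (p, ((0 : ℝ), p.2))) (𝓝 p0) (𝓝 (p0, p0)) :=
      (continuous_id.prodMk (continuous_const.prodMk continuous_snd)).continuousAt.tendsto
    have h3 : Tendsto (fun p : ℝ × X => p.2) (𝓝 p0) (𝓝 x0) := continuous_snd.continuousAt.tendsto
    filter_upwards [h2.eventually h1, h3.eventually hΦ0] with p h4 h5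
    have h6 : p - ((0 : ℝ), p.2) = (p.1, 0) := by ext <;> simp
    simp only [h5, h6, hΦT, sub_zero] at h4
    simpa using h4
  obtain ⟨δ, hδ, hball⟩ := Metric.eventually_nhds_iff_ball.1 ((hA.and hdiff).and hU)
  have hmem : ∀ t : ℝ, |t| < δ → ∀ x ∈ closedBall x0 (δ / 2), (t, x) ∈ ball p0 δ := by
    intro t ht x hx
    rw [mem_closedBall] at hx
    rw [mem_ball, Prod.dist_eq]
    refine max_lt (by simpa [hp0] using ht) ?_
    change dist x x0 < δ
    linarith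
  have hsl := hasDerivAt_iff_tendsto_slope_zero.1 hψ.self_of_nhds
  rw [hψ0] at hsl
  have h00 : F (0, x0) = 0 := h0.self_of_nhds
  have hev1 : ∀ᶠ t : ℝ in 𝓝[≠] 0, ‖t⁻¹ • F (t, x0)‖ < c * (δ / 2) := by
    have := (tendsto_zero_iff_norm_tendsto_zero.1 hsl).eventually
      (gt_mem_nhds (show (0 : ℝ) < c * (δ / 2) by positivity))
    simpa [h00] using this
  have hev2 : ∀ᶠ t : ℝ in 𝓝[≠] 0, |t| < δ := by
    apply mem_nhdsWithin_of_mem_nhds
    have := Metric.ball_mem_nhds (0 : ℝ) hδ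
    filter_upwards [this] with t ht
    simpa using ht
  obtain ⟨t, ⟨ht1, ht2⟩, ht0⟩ := ((hev1.and hev2).and self_mem_nhdsWithin).exists
  have ht0' : t ≠ 0 := ht0
  have happ : ApproximatesLinearOn (fun y => t⁻¹ • F (t, y)) T (closedBall x0 (δ / 2)) c := by
    intro x hx y hy
    have h1 := (convex_closedBall x0 (δ / 2)).norm_image_sub_le_of_norm_hasFDerivWithin_le'
      (f := fun y => F (t, y)) (f' := fun y => Φ (t, y)) (φ := t • T) (C := c * |t|)
      (fun z hz => (hΦd (t, z) (hball _ (hmem t ht2 z hz)).1.2).hasFDerivWithinAt)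
      (fun z hz => (hball _ (hmem t ht2 z hz)).1.1) hy hx
    have h2 : t⁻¹ • F (t, x) - t⁻¹ • F (t, y) - T (x - y) =
        t⁻¹ • (F (t, x) - F (t, y) - (t • T) (x - y)) := by
      simp only [smul_sub, smul_apply, smul_smul, inv_mul_cancel₀ ht0',
        one_smul]
    rw [h2, norm_smul, norm_inv, Real.norm_eq_abs]
    have h3 : 0 < |t| := abs_pos.2 ht0'
    calc |t|⁻¹ * ‖F (t, x) - F (t, y) - (t • T) (x - y)‖ ≤ |t|⁻¹ * (c * |t| * ‖x - y‖) :=
          mul_le_mul_of_nonneg_left h1 (by positivity)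
      _ = c * ‖x - y‖ := by field_simp
  have hsur := happ.surjOn_closedBall_of_nonlinearRightInverse S (ε := δ / 2) (b := x0)
    (by positivity) subset_rfl
  rw [hcc] at hsur
  obtain ⟨x, hx, hx0⟩ := hsur (show (0 : Y) ∈ _ by
    rw [mem_closedBall, dist_comm, dist_zero_right]
    exact ht1.le)
  refine ⟨(t, x), (hball _ (hmem t ht2 x hx)).2, ht0', ?_⟩
  have : t⁻¹ • F (t, x) = 0 := hx0
  rwa [smul_eq_zero_iff_right (inv_ne_zero ht0')] at this

end Pool.Agent.Work.MP_3fb46c_gt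
end

-- merged part: Pool.Agent.Work.MP_3fb46c_gt.Exist
section
/-!
Existence of a nontrivial solution of the reduced Euler-Lagrange equation.
-/

set_option autoImplicit false

open MvPowerSeries Filter Topology

namespace Pool.Agent.Work.MP_3fb46c_gt

open WA

noncomputable def kk (ξ : WA 2) : WA 2 := ξ - algebraMap ℝ (WA 2) (cc 2 ξ) + 1

noncomputable def yy (p : ℝ × WA 2) : WA 2 :=
  algebraMap ℝ (WA 2) (p.1 ^ 2) * (algebraMap ℝ (WA 2) (p.1 ^ 2) - xv 2 0 * xv 2 1) *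
    (kk p.2 * sw 2 (kk p.2))

noncomputable def ii (p : ℝ × WA 2) : WA 2 := Ring.inverse (1 + yy p)
noncomputable def om0 (p : ℝ × WA 2) : WA 2 := (1 - yy p) * ii p
noncomputable def om1 (p : ℝ × WA 2) : WA 2 := algebraMap ℝ (WA 2) p.1 * kk p.2 * ii p
noncomputable def om2 (p : ℝ × WA 2) : WA 2 := -(algebraMap ℝ (WA 2) p.1 * sw 2 (kk p.2) * ii p)

noncomputable def jet (j : ℕ) (f : WA (j + 1)) : Jet (WA j) := ⟨inc j f, der j 0 f, der j 1 f⟩

noncomputable def nu (j : ℕ) (t : ℝ) : WA j :=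
  2 * (algebraMap ℝ (WA j) (t ^ 2) - xv j 0 * xv j 1)

noncomputable def I1 (p : ℝ × WA 2) : In1 (WA 1) :=
  ⟨xv 1 0, xv 1 1, nu 1 p.1, algebraMap ℝ (WA 1) (cc 2 p.2), jet 1 (om0 p), jet 1 (om1 p),
    jet 1 (om2 p)⟩

noncomputable def I2 (p : ℝ × WA 2) : In2 (WA 0) :=
  ⟨xv 0 0, xv 0 1, nu 0 p.1, inc 0 (inc 1 (om0 p)), inc 0 (inc 1 (om1 p)), jet 0 (I1 p).KA,
    jet 0 (I1 p).KB, jet 0 (I1 p).Δ, fun i j => jet 0 ((I1 p).n i j)⟩

noncomputable def FF (p : ℝ × WA 2) : WA 0 := (I2 p).F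

/-! ### Smoothness -/

lemma contDiff_algebraMap (j : ℕ) {n : WithTop ℕ∞} : ContDiff ℝ n (algebraMap ℝ (WA j)) :=
  (algebraMapCLM ℝ (WA j)).contDiff

lemma contDiff_kk {n : WithTop ℕ∞} : ContDiff ℝ n kk :=
  (contDiff_id.sub ((contDiff_algebraMap 2).comp (cc 2).contDiff)).add contDiff_const

lemma contDiff_yy {n : WithTop ℕ∞} : ContDiff ℝ n yy := by
  have h1 : ContDiff ℝ n fun p : ℝ × WA 2 => algebraMap ℝ (WA 2) (p.1 ^ 2) :=
    (contDiff_algebraMap 2).comp (contDiff_fst.pow 2)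
  have h2 : ContDiff ℝ n fun p : ℝ × WA 2 => kk p.2 := contDiff_kk.comp contDiff_snd
  exact (h1.mul (h1.sub contDiff_const)).mul (h2.mul ((sw 2).contDiff.comp h2))

lemma yy_zero (ξ : WA 2) : yy (0, ξ) = 0 := by simp [yy]

lemma contDiffAt_ii {n : WithTop ℕ∞} (ξ : WA 2) : ContDiffAt ℝ n ii (0, ξ) := by
  have h1 : ContDiffAt ℝ n (Ring.inverse : WA 2 → WA 2) (1 + yy (0, ξ)) := by
    rw [yy_zero, add_zero]
    exact contDiffAt_ringInverse ℝ (1 : (WA 2)ˣ)
  exact h1.comp (0, ξ) (contDiffAt_const.add contDiff_yy.contDiffAt)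

lemma jetCD_jet {P : Type*} [NormedAddCommGroup P] [NormedSpace ℝ P] {n : WithTop ℕ∞} {j : ℕ}
    {f : P → WA (j + 1)} {p0 : P} (h : ContDiffAt ℝ n f p0) : JetCD n (fun p => jet j (f p)) p0 :=
  ⟨(inc j).contDiff.contDiffAt.comp p0 h, (der j 0).contDiff.contDiffAt.comp p0 h,
    (der j 1).contDiff.contDiffAt.comp p0 h⟩

lemma contDiff_nu (j : ℕ) {n : WithTop ℕ∞} : ContDiff ℝ n (nu j) :=
  contDiff_const.mul (((contDiff_algebraMap j).comp (contDiff_id.pow 2)).sub contDiff_const)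

lemma contDiffAt_FF {n : WithTop ℕ∞} (ξ : WA 2) : ContDiffAt ℝ n FF (0, ξ) := by
  have hi := contDiffAt_ii (n := n) ξ
  have ht : ContDiff ℝ n fun p : ℝ × WA 2 => algebraMap ℝ (WA 2) p.1 :=
    (contDiff_algebraMap 2).comp contDiff_fst
  have hk : ContDiff ℝ n fun p : ℝ × WA 2 => kk p.2 := contDiff_kk.comp contDiff_snd
  have h0 : ContDiffAt ℝ n om0 (0, ξ) := (contDiffAt_const.sub contDiff_yy.contDiffAt).mul hi
  have h1 : ContDiffAt ℝ n om1 (0, ξ) := (ht.mul hk).contDiffAt.mul hi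
  have h2 : ContDiffAt ℝ n om2 (0, ξ) :=
    ((ht.mul ((sw 2).contDiff.comp hk)).contDiffAt.mul hi).neg
  obtain ⟨a, b, c, d⟩ := In1.out_contDiffAt (n := n) (p0 := (0, ξ)) I1 contDiffAt_const
    contDiffAt_const ((contDiff_nu 1).comp contDiff_fst).contDiffAt
    ((contDiff_algebraMap 1).comp ((cc 2).contDiff.comp contDiff_snd)).contDiffAt
    (jetCD_jet h0) (jetCD_jet h1) (jetCD_jet h2)
  exact In2.out_contDiffAt (n := n) (p0 := (0, ξ)) I2 contDiffAt_const contDiffAt_const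
    ((contDiff_nu 0).comp contDiff_fst).contDiffAt
    ((inc 0).contDiff.contDiffAt.comp _ ((inc 1).contDiff.contDiffAt.comp _ h0))
    ((inc 0).contDiff.contDiffAt.comp _ ((inc 1).contDiff.contDiffAt.comp _ h1))
    (jetCD_jet a) (jetCD_jet b) (jetCD_jet c) (fun i j => jetCD_jet (d i j))

/-! ### First-order jets in the amplitude -/

lemma HJ.congr' {R : Type*} [NormedCommRing R] [NormedAlgebra ℝ R] {f : ℝ → R}
    {x y : DualNumber R} (h : HJ f x) (e : x = y) : HJ f y := e ▸ h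

lemma HJ.mul' {R : Type*} [NormedCommRing R] [NormedAlgebra ℝ R] {f g : ℝ → R}
    {x y : DualNumber R} (h : HJ f x) (h' : HJ g y) : HJ (fun t => f t * g t) (x * y) :=
  (hjSub R).mul_mem (x := (f, x)) (y := (g, y)) h h'

lemma HJ.sub' {R : Type*} [NormedCommRing R] [NormedAlgebra ℝ R] {f g : ℝ → R}
    {x y : DualNumber R} (h : HJ f x) (h' : HJ g y) : HJ (fun t => f t - g t) (x - y) :=
  (hjSub R).sub_mem (x := (f, x)) (y := (g, y)) h h'

lemma HJ.neg' {R : Type*} [NormedCommRing R] [NormedAlgebra ℝ R] {f : ℝ → R}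
    {x : DualNumber R} (h : HJ f x) : HJ (fun t => -f t) (-x) :=
  (hjSub R).neg_mem (x := (f, x)) h

lemma hj_alg (j : ℕ) : HJ (fun t : ℝ => algebraMap ℝ (WA j) t) (dn 0 1) :=
  ⟨by simp, by
    have := (algebraMapCLM ℝ (WA j)).hasFDerivAt.comp_hasDerivAt (0 : ℝ) (hasDerivAt_id' (0 : ℝ))
    exact this.congr_deriv (map_one (algebraMap ℝ (WA j)))⟩

lemma hj_alg_sq (j : ℕ) : HJ (fun t : ℝ => algebraMap ℝ (WA j) (t ^ 2)) (dn 0 0) := by
  have := (hj_alg j).mul' (hj_alg j)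
  simp only [sq, map_mul]
  refine this.congr' ?_
  ext <;> simp

lemma hj_nu (j : ℕ) : HJ (nu j) (dn (-2 * (xv j 0 * xv j 1)) 0) := by
  refine ((HJ.const (2 : WA j)).mul' ((hj_alg_sq j).sub' (HJ.const (xv j 0 * xv j 1)))).congr' ?_
  ext <;> simp

lemma hj_yy (ξ : WA 2) : HJ (fun t => yy (t, ξ)) (dn 0 0) := by
  refine (((hj_alg_sq 2).mul' ((hj_alg_sq 2).sub' (HJ.const (xv 2 0 * xv 2 1)))).mul'
    (HJ.const (kk ξ * sw 2 (kk ξ)))).congr' ?_
  ext <;> simp

lemma hj_ii (ξ : WA 2) : HJ (fun t => ii (t, ξ)) (dn 1 0) := by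
  refine ⟨by simp [ii, yy_zero], ?_⟩
  have h1 : HasDerivAt (fun t => 1 + yy (t, ξ)) 0 0 := by
    simpa using (hj_yy ξ).2.const_add 1
  have h2 := hasFDerivAt_ringInverse (𝕜 := ℝ) (1 : (WA 2)ˣ)
  have h3 := HasFDerivAt.comp_hasDerivAt_of_eq (0 : ℝ) h2 h1 (by simp [yy_zero])
  exact h3.congr_deriv (map_zero _)

lemma hj_om0 (ξ : WA 2) : HJ (fun t => om0 (t, ξ)) (dn 1 0) := by
  refine (((HJ.const (1 : WA 2)).sub' (hj_yy ξ)).mul' (hj_ii ξ)).congr' ?_
  ext <;> simp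

lemma hj_om1 (ξ : WA 2) : HJ (fun t => om1 (t, ξ)) (dn 0 (kk ξ)) := by
  refine (((hj_alg 2).mul' (HJ.const (kk ξ))).mul' (hj_ii ξ)).congr' ?_
  ext <;> simp

lemma hj_om2 (ξ : WA 2) : HJ (fun t => om2 (t, ξ)) (dn 0 (-sw 2 (kk ξ))) := by
  refine (((hj_alg 2).mul' (HJ.const (sw 2 (kk ξ)))).mul' (hj_ii ξ)).neg'.congr' ?_
  ext <;> simp

lemma jetHJ_jet {j : ℕ} {f : ℝ → WA (j + 1)} {a b : WA (j + 1)} (h : HJ f (dn a b))
    (h0 : der j 0 a = 0) (h1 : der j 1 a = 0) :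
    JetHJ (fun t => jet j (f t)) (dj (inc j a) (jet j b)) :=
  ⟨h.clm (inc j), (h.clm (der j 0)).congr' (by rw [h0]; rfl),
    (h.clm (der j 1)).congr' (by rw [h1]; rfl)⟩

lemma inc_one (j : ℕ) : inc j 1 = 1 := (incR j).map_one

lemma der_one (j : ℕ) (i : Fin 2) : der j i 1 = 0 := ext' (by simp)

lemma der_const_sq (j : ℕ) (i : Fin 2) (r : ℝ) :
    der j i ((1 + algebraMap ℝ (WA (j + 1)) r) ^ 2) = 0 := ext' (by
  simp [Derivation.leibniz_pow])

/-- The constant `(1 + ρ) ^ 2`. -/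
noncomputable def csq (j : ℕ) (ξ : WA 2) : WA j := (1 + algebraMap ℝ (WA j) (cc 2 ξ)) ^ 2

noncomputable def L1in (ξ : WA 2) : In1 (DualNumber (WA 1)) :=
  lin1 (xv 1 0) (xv 1 1) (-2 * (xv 1 0 * xv 1 1)) (algebraMap ℝ (WA 1) (cc 2 ξ))
    (jet 1 (kk ξ)) (jet 1 (sw 2 (kk ξ)))

noncomputable def L2in (ξ : WA 2) : In2 (DualNumber (WA 0)) :=
  lin2 (xv 0 0) (xv 0 1) (-2 * (xv 0 0 * xv 0 1)) (inc 0 (csq 1 ξ)) (inc 0 (inc 1 (kk ξ)))
    (jet 0 (L1in ξ).KA.snd) (jet 0 (L1in ξ).KB.snd) (jet 0 (L1in ξ).Δ.snd)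
    (fun i j => jet 0 ((L1in ξ).n i j).snd)

lemma hj_FF (ξ : WA 2) : HJ (fun t => FF (t, ξ)) (L2in ξ).F := by
  have g0 := jetHJ_jet (j := 1) (hj_om0 ξ) (der_one _ _) (der_one _ _)
  have g1 := jetHJ_jet (j := 1) (hj_om1 ξ) (map_zero _) (map_zero _)
  have g2 := jetHJ_jet (j := 1) (hj_om2 ξ) (map_zero _) (map_zero _)
  simp only [dj, jet, inc_one, map_zero, map_neg] at g0 g1 g2
  obtain ⟨a, b, c, d⟩ := In1.out_hj (fun t => I1 (t, ξ)) (L1in ξ) (HJ.const _) (HJ.const _)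
    (hj_nu 1) (HJ.const _) g0 g1 g2
  have ea : (L1in ξ).KA = dn 0 (L1in ξ).KA.snd := by rw [L1in, lin1_KA]; rfl
  have eb : (L1in ξ).KB = dn (csq 1 ξ) (L1in ξ).KB.snd := by rw [L1in, lin1_KB]; rfl
  have ec : (L1in ξ).Δ = dn (csq 1 ξ) (L1in ξ).Δ.snd := by rw [L1in, lin1_Δ]; rfl
  have ed : ∀ i j, (L1in ξ).n i j = dn 0 ((L1in ξ).n i j).snd := by
    intro i j
    rw [L1in, lin1_n]
    fin_cases i <;> fin_cases j <;> rfl
  refine In2.out_hj (fun t => I2 (t, ξ)) (L2in ξ) (HJ.const _) (HJ.const _) (hj_nu 0) ?_ ?_ ?_ ?_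
    ?_ ?_
  · exact (((hj_om0 ξ).clm (inc 1)).clm (inc 0)).congr' (by simp [inc_one, L2in, lin2])
  · exact (((hj_om1 ξ).clm (inc 1)).clm (inc 0)).congr' (by simp [L2in, lin2])
  · have := jetHJ_jet (j := 0) (a.congr' ea) (map_zero _) (map_zero _)
    rw [map_zero] at this
    exact this
  · exact jetHJ_jet (j := 0) (b.congr' eb) (der_const_sq _ _ _) (der_const_sq _ _ _)
  · exact jetHJ_jet (j := 0) (c.congr' ec) (der_const_sq _ _ _) (der_const_sq _ _ _)
  · intro i j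
    have := jetHJ_jet (j := 0) ((d i j).congr' (ed i j)) (map_zero _) (map_zero _)
    rw [map_zero] at this
    exact this

/-! ### The linearised operator -/

/-- Euler operator. -/
noncomputable def eul (i : Fin 2) (f : PS) : PS := X i * pderiv ℝ i f

lemma coeff_eul (i : Fin 2) (f : PS) (d : Idx) : coeff d (eul i f) = d i * coeff d f := by
  classical
  by_cases h : d i = 0
  · rw [h, Nat.cast_zero, zero_mul, eul]
    exact X_dvd_iff.1 (dvd_mul_right _ _) d h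
  · have hd : d = Finsupp.single i 1 + (d - Finsupp.single i 1) := by
      symm
      apply add_tsub_cancel_of_le
      rw [Finsupp.single_le_iff]
      omega
    have hX : (X i : PS) = monomial (Finsupp.single i 1) 1 := rfl
    rw [eul, hX]
    conv_lhs => rw [hd, coeff_add_monomial_mul, coeff_pderiv, add_comm (d - _), ← hd]
    have : ((d - Finsupp.single i 1 : Idx) i : ℝ) + 1 = d i := by
      simp only [Finsupp.coe_tsub, Pi.sub_apply, Finsupp.single_eq_same]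
      rw [Nat.cast_sub (by omega)]
      simp
    rw [this]
    ring

lemma pderiv_comm (f : PS) : pderiv ℝ 1 (pderiv ℝ 0 f) = pderiv ℝ 0 (pderiv ℝ 1 f) := by
  ext d
  simp only [coeff_pderiv]
  rw [add_right_comm]
  simp
  ring

lemma val_psi (ξ : WA 2) : val 0 (L2in ξ).F.snd =
    2 * (1 + algebraMap ℝ PS (cc 2 ξ)) ^ 3 *
      ((val 2 (kk ξ) - (eul 0 (eul 0 (val 2 (kk ξ))) - 2 * eul 0 (eul 1 (val 2 (kk ξ)))
          + eul 1 (eul 1 (val 2 (kk ξ)))) - 4 * eul 0 (eul 1 (val 2 (kk ξ)))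
          - 8 * eul 0 (val 2 (kk ξ)) - 4 * eul 1 (val 2 (kk ξ))) +
        algebraMap ℝ PS (cc 2 ξ) * (-val 2 (kk ξ) - (eul 0 (eul 0 (val 2 (kk ξ)))
          - 2 * eul 0 (eul 1 (val 2 (kk ξ))) + eul 1 (eul 1 (val 2 (kk ξ))))
          + 2 * eul 0 (val 2 (kk ξ)) - 2 * eul 1 (val 2 (kk ξ)))) := by
  rw [L2in, lin2_F, L1in, lin1_KA, lin1_KB, lin1_Δ, lin1_n]
  have h2 : ∀ i, pderiv ℝ i (2 : PS) = 0 := fun i => by
    rw [show (2 : PS) = 1 + 1 from one_add_one_eq_two.symm, map_add]; simp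
  have h01 : pderiv ℝ 0 (X 1 : PS) = 0 := pderiv_X_of_ne (by decide)
  have h10 : pderiv ℝ 1 (X 0 : PS) = 0 := pderiv_X_of_ne (by decide)
  simp [jet, csq, eul, map_ofNat, Derivation.leibniz, Derivation.leibniz_pow, h2, h01, h10,
    pderiv_X_self, pderiv_comm]
  ring

/-- A diagonal operator on power series. -/
noncomputable def diagPS (m : Idx → ℝ) : PS →ₗ[ℝ] PS where
  toFun f := fun d => m d * coeff d f
  map_add' f g := by
    ext d
    change m d * coeff d (f + g) = m d * coeff d f + m d * coeff d g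
    rw [map_add, mul_add]
  map_smul' c f := by
    ext d
    change m d * coeff d (c • f) = c * (m d * coeff d f)
    rw [map_smul, smul_eq_mul]
    ring

lemma coeff_diagPS (m : Idx → ℝ) (f : PS) (d : Idx) : coeff d (diagPS m f) = m d * coeff d f := rfl

/-- A diagonal operator of order two. -/
noncomputable def diagCLM (m : Idx → ℝ) (h : ∀ d, |m d| ≤ 8 * wt 2 d) : WA 2 →L[ℝ] WA 0 :=
  mkCLM 2 0 (diagPS m) id Function.injective_id 8 (by norm_num) (fun f d => by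
    simp only [ac, coeff_diagPS, abs_mul, id_eq]
    have := mul_le_mul_of_nonneg_right (h d) (abs_nonneg (coeff d f))
    simp only [wt, pow_zero, one_mul] at this ⊢
    linarith)

lemma coeff_diagCLM (m : Idx → ℝ) (h : ∀ d, |m d| ≤ 8 * wt 2 d) (f : WA 2) (d : Idx) :
    coeff d (val 0 (diagCLM m h f)) = m d * coeff d (val 2 f) := by
  unfold diagCLM
  rw [val_mkCLM, coeff_diagPS]

noncomputable def l0 (d : Idx) : ℝ :=
  1 - ((d 0 : ℝ) - d 1) ^ 2 - 4 * d 0 * d 1 - 8 * d 0 - 4 * d 1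
noncomputable def l1 (d : Idx) : ℝ := -1 - ((d 0 : ℝ) - d 1) ^ 2 + 2 * d 0 - 2 * d 1

lemma l0_le (d : Idx) : |l0 d| ≤ 8 * wt 2 d := by
  have h0 : (0 : ℝ) ≤ d 0 := Nat.cast_nonneg _
  have h1 : (0 : ℝ) ≤ d 1 := Nat.cast_nonneg _
  have := mul_nonneg h0 h1
  rw [abs_le, l0, wt]
  constructor <;> nlinarith

lemma l1_le (d : Idx) : |l1 d| ≤ 8 * wt 2 d := by
  have h0 : (0 : ℝ) ≤ d 0 := Nat.cast_nonneg _
  have h1 : (0 : ℝ) ≤ d 1 := Nat.cast_nonneg _
  have := mul_nonneg h0 h1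
  rw [abs_le, l1, wt]
  constructor <;> nlinarith

noncomputable def LA : WA 2 →L[ℝ] WA 0 := diagCLM l0 l0_le
noncomputable def LB : WA 2 →L[ℝ] WA 0 := diagCLM l1 l1_le

noncomputable def psi (ξ : WA 2) : WA 0 :=
  (2 * (1 + cc 2 ξ) ^ 3) • (LA (kk ξ) + cc 2 ξ • LB (kk ξ))

lemma coeff_ofNat_mul (n : ℕ) [n.AtLeastTwo] (f : PS) (d : Idx) :
    coeff d ((OfNat.ofNat n : PS) * f) = (OfNat.ofNat n : ℝ) * coeff d f := by
  have : (OfNat.ofNat n : PS) = algebraMap ℝ PS (OfNat.ofNat n) := (map_ofNat _ n).symm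
  rw [this, ← Algebra.smul_def, map_smul, smul_eq_mul]

lemma snd_eq_psi (ξ : WA 2) : (L2in ξ).F.snd = psi ξ := by
  apply ext'
  rw [val_psi]
  have e : (2 : PS) * (1 + algebraMap ℝ PS (cc 2 ξ)) ^ 3 =
      algebraMap ℝ PS (2 * (1 + cc 2 ξ) ^ 3) := by simp [map_ofNat]
  rw [e, ← Algebra.smul_def, ← Algebra.smul_def, psi, map_smul, map_add, map_smul]
  ext d
  have c2 : ∀ f : PS, coeff d (2 * f) = 2 * coeff d f := fun f => coeff_ofNat_mul 2 f d
  have c4 : ∀ f : PS, coeff d (4 * f) = 4 * coeff d f := fun f => coeff_ofNat_mul 4 f d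
  have c8 : ∀ f : PS, coeff d (8 * f) = 8 * coeff d f := fun f => coeff_ofNat_mul 8 f d
  simp only [map_smul, map_add, map_sub, map_neg, c2, c4, c8, coeff_eul, LA, LB,
    coeff_diagCLM, l0, l1, smul_eq_mul]
  ring

lemma fst_eq_zero (ξ : WA 2) : (L2in ξ).F.fst = 0 := by
  rw [L2in, lin2_F]; rfl

lemma cc_one : cc 2 1 = 1 := by simp [cc_apply]

lemma kk_one : kk 1 = 1 := by simp [kk, cc_one]

lemma coeff_one_idx (d : Idx) : coeff d (1 : PS) = if d = 0 then 1 else 0 := by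
  classical
  rw [coeff_one]

lemma LA_add_LB_one : LA 1 + LB 1 = 0 := by
  apply ext'
  ext d
  simp only [map_add, LA, LB, coeff_diagCLM, map_one, coeff_one_idx, map_zero]
  split_ifs with h
  · simp [h, l0, l1]
  · simp

/-- Removal of the constant term. -/
noncomputable def rmC : WA 2 →L[ℝ] WA 2 :=
  ContinuousLinearMap.id ℝ (WA 2) - (algebraMapCLM ℝ (WA 2)).comp (cc 2)

lemma hasFDerivAt_kk (ξ : WA 2) : HasFDerivAt kk rmC ξ := rmC.hasFDerivAt.add_const 1

noncomputable def TT : WA 2 →L[ℝ] WA 0 :=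
  (16 : ℝ) • (LA.comp rmC + (LB.comp rmC + (cc 2).smulRight (LB 1)))

lemma hasFDerivAt_psi : HasFDerivAt psi TT 1 := by
  have h1 : HasFDerivAt (fun ξ : WA 2 => 2 * (1 + cc 2 ξ) ^ 3) _ 1 :=
    ((((cc 2).hasFDerivAt (x := 1)).const_add 1).pow 3).const_mul 2
  have h2 : HasFDerivAt (fun ξ : WA 2 => LA (kk ξ) + cc 2 ξ • LB (kk ξ)) _ 1 :=
    (LA.hasFDerivAt.comp 1 (hasFDerivAt_kk 1)).add
      (((cc 2).hasFDerivAt (x := 1)).smul (LB.hasFDerivAt.comp 1 (hasFDerivAt_kk 1)))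
  refine (h1.smul h2).congr_fderiv ?_
  ext η
  simp only [kk_one, cc_one, one_smul, LA_add_LB_one, Function.comp_apply, TT]
  norm_num

lemma psi_one : psi 1 = 0 := by
  simp [psi, kk_one, cc_one, LA_add_LB_one]

noncomputable def mT (d : Idx) : ℝ := if d = 0 then -16 else 16 * (l0 d + l1 d)

lemma coeff_TT (η : WA 2) (d : Idx) : coeff d (val 0 (TT η)) = mT d * coeff d (val 2 η) := by
  have e : val 2 (rmC η) = val 2 η - (cc 2 η) • (1 : PS) := by
    simp [rmC, Algebra.algebraMap_eq_smul_one]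
  simp only [TT, smul_apply, add_apply, ContinuousLinearMap.coe_comp,
    Function.comp_apply, ContinuousLinearMap.smulRight_apply, map_smul, map_add, LA, LB,
    coeff_diagCLM, e, map_sub, map_one, coeff_one_idx, smul_eq_mul, mT]
  split_ifs with h
  · subst h
    simp [cc_apply, l1]
  · ring

lemma wt_le_mT (d : Idx) : wt 2 d ≤ |mT d| := by
  unfold mT
  split_ifs with h
  · simp [h, wt_zero_idx]
  · have h0 : (0 : ℝ) ≤ d 0 := Nat.cast_nonneg _
    have h1 : (0 : ℝ) ≤ d 1 := Nat.cast_nonneg _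
    have h2 : 1 ≤ d 0 + d 1 := by
      by_contra hc
      apply h
      ext i
      fin_cases i
      · simp; omega
      · simp; omega
    have h3 : (1 : ℝ) ≤ d 0 + d 1 := by exact_mod_cast h2
    rw [le_abs]
    right
    unfold l0 l1 wt
    nlinarith [sq_nonneg ((d 0 : ℝ) - d 1)]

lemma TT_surj : TT.range = ⊤ := by
  rw [LinearMap.range_eq_top]
  intro g
  have hne : ∀ d, mT d ≠ 0 := fun d => abs_pos.1 ((wt_pos 2 d).trans_le (wt_le_mT d))
  refine ⟨mk (fun d => coeff d (val 0 g) / mT d) ?_, ?_⟩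
  · refine Summable.of_nonneg_of_le (ac_nonneg _ _) (fun d => ?_) g.summable
    change wt 2 d * |coeff d (val 0 g) / mT d| ≤ wt 0 d * |coeff d (val 0 g)|
    have h1 := abs_pos.2 (hne d)
    rw [abs_div, wt.eq_1 0, pow_zero, one_mul, ← mul_div_assoc, div_le_iff₀ h1, mul_comm]
    exact mul_le_mul_of_nonneg_left (wt_le_mT d) (abs_nonneg _)
  · apply ext'
    ext d
    rw [ContinuousLinearMap.coe_coe, coeff_TT, val_mk]
    change mT d * (coeff d (val 0 g) / mT d) = _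
    field_simp [hne d]

theorem exists_solution : ∃ p : ℝ × WA 2, p.1 ≠ 0 ∧ |p.1| < 1 / 8 ∧ 0 < cc 2 p.2 ∧ ‖yy p‖ < 1 ∧
    FF p = 0 := by
  have hU : {p : ℝ × WA 2 | |p.1| < 1 / 8 ∧ 0 < cc 2 p.2 ∧ ‖yy p‖ < 1} ∈ 𝓝 ((0 : ℝ), (1 : WA 2)) := by
    apply IsOpen.mem_nhds
    · exact (isOpen_lt (continuous_abs.comp continuous_fst) continuous_const).inter
        ((isOpen_lt continuous_const ((cc 2).continuous.comp continuous_snd)).inter
          (isOpen_lt (contDiff_yy (n := 0)).continuous.norm continuous_const))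
    · simp [cc_one, yy_zero]
  obtain ⟨p, hp, h0, hF⟩ := exists_zero_of_bifurcation FF 1 TT TT_surj (contDiffAt_FF 1)
    (Eventually.of_forall fun ξ => (hj_FF ξ).1.trans (fst_eq_zero ξ)) psi
    (Eventually.of_forall fun ξ => snd_eq_psi ξ ▸ (hj_FF ξ).2) psi_one hasFDerivAt_psi _ hU
  exact ⟨p, h0, hp.1, hp.2.1, hp.2.2, hF⟩

end Pool.Agent.Work.MP_3fb46c_gt
end
end

-- merged part: Pool.Agent.Work.MP_3fb46c_gt.Main
section
/-!
A smooth field of constant length on the five-sphere that is critical for the volume and is not a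
Hopf field.
-/

set_option autoImplicit false

open Matrix Complex MeasureTheory Metric

namespace Pool.Agent.Work.MP_3fb46c_gt

open WA

/-- The function on space attached to an element of a weighted Wiener algebra. -/
noncomputable def ef (j : ℕ) (t : ℝ) (f : WA j) (y : E6) : ℂ := evS (val j f) (pt t y)

lemma pt_eq (t : ℝ) (y : E6) : pt t y = (zf t (cx y), (starRingEnd ℂ) (zf t (cx y))) := by
  rw [pt, wf_eq]

lemma norm_pt_le (t : ℝ) (y : E6) : ‖pt t y‖ ≤ 2 * |t| * ‖y‖ := by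
  have h : ‖zf t (cx y)‖ ≤ 2 * |t| * ‖y‖ := by
    have e : zf t (cx y) = t * y 0 + -I * t * y 1 := by
      simp [zf, pv, cx, dotProduct, Fin.sum_univ_six]
    have h0 : |y 0| ≤ ‖y‖ := by simpa using PiLp.norm_apply_le y 0
    have h1 : |y 1| ≤ ‖y‖ := by simpa using PiLp.norm_apply_le y 1
    rw [e]
    refine (norm_add_le _ _).trans ?_
    simp only [norm_mul, norm_neg, norm_I, one_mul, norm_real, Real.norm_eq_abs]
    nlinarith [abs_nonneg t]
  rw [pt_eq, Prod.norm_def]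
  simp [h]

lemma norm_pt_lt {t : ℝ} (ht : |t| < 1 / 8) {y : E6} (hy : ‖y‖ ≤ 2) : ‖pt t y‖ < 1 / 2 := by
  have := norm_pt_le t y
  nlinarith [abs_nonneg t, norm_nonneg y]

lemma summable_ac_one {j : ℕ} (f : WA (j + 1)) : Summable (ac 1 (val (j + 1) f)) := by
  refine Summable.of_nonneg_of_le (ac_nonneg _ _) (fun d => ?_) f.summable
  unfold ac
  apply mul_le_mul_of_nonneg_right _ (abs_nonneg _)
  have h1 := one_le_wt j d
  have h2 := wt_pos 1 d
  have : wt (j + 1) d = wt j d * wt 1 d := by simp [wt, pow_succ]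
  rw [this]
  nlinarith

lemma hgj_ef {j : ℕ} (f : WA (j + 1)) {t : ℝ} {x : E6} (hp : ‖pt t x‖ < 1) :
    HGJ t (ef (j + 1) t f) x ((jet j f).map (evR j (pt t x) hp.le)) :=
  ⟨by simp [jet, Jet.map, evR_apply, ef], by
    have := HG.evS (summable_ac_one f) hp
    simp only [jet, Jet.map, evR_apply, val_der]
    exact this⟩

lemma ev_inc {j : ℕ} (f : WA (j + 1)) {q : ℂ × ℂ} (hq : ‖q‖ ≤ 1) :
    evR j q hq (inc j f) = evR (j + 1) q hq f := by simp [evR_apply]

lemma ev_alg (j : ℕ) (c : ℝ) {q : ℂ × ℂ} (hq : ‖q‖ ≤ 1) :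
    evR j q hq (algebraMap ℝ (WA j) c) = c := by
  rw [evR_apply, AlgHom.commutes, evS_algebraMap]

lemma ev_x0 (j : ℕ) {q : ℂ × ℂ} (hq : ‖q‖ ≤ 1) : evR j q hq (xv j 0) = q.1 := by
  rw [evR_apply, val_xv, evS_X0]

lemma ev_x1 (j : ℕ) {q : ℂ × ℂ} (hq : ‖q‖ ≤ 1) : evR j q hq (xv j 1) = q.2 := by
  rw [evR_apply, val_xv, evS_X1]

lemma ev_nu (j : ℕ) (t : ℝ) {x : E6} (hq : ‖pt t x‖ ≤ 1) :
    evR j (pt t x) hq (nu j t) = nuf t (cx x) := by
  simp only [nu, map_mul, map_sub, map_ofNat, ev_alg, ev_x0, ev_x1, nuf, pt, ofReal_pow]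

lemma ef_sw {j : ℕ} (t : ℝ) (f : WA j) (x : E6) :
    ef j t (sw j f) x = (starRingEnd ℂ) (ef j t f x) := by
  rw [ef, ef, val_sw, pt_eq, evS_swap]

/-! ### Smoothness -/

abbrev inf : WithTop ℕ∞ := ((⊤ : ℕ∞) : WithTop ℕ∞)

lemma one_le_inf : (1 : WithTop ℕ∞) ≤ inf := WithTop.coe_le_coe.2 (le_top : (1 : ℕ∞) ≤ ⊤)

lemma cd_dot (c : V6) : ContDiff ℝ inf fun y : E6 => c ⬝ᵥ cx y := by
  have : (fun y => c ⬝ᵥ cx y) = gradL c := funext fun y => (gradL_apply c y).symm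
  rw [this]
  exact (gradL c).contDiff

lemma cd_cx (i : Fin 6) : ContDiff ℝ inf fun y : E6 => cx y i := by
  simpa using cd_dot (Pi.single i 1)

lemma cd_Tv (i : Fin 6) : ContDiff ℝ inf fun y : E6 => Tv (cx y) i := cd_dot (jm i)

lemma cd_fr (t : ℝ) (k : Fin 3) (i : Fin 6) : ContDiff ℝ inf fun y : E6 => fr t (cx y) k i := by
  fin_cases k
  · exact cd_Tv i
  · exact (contDiff_const.sub ((cd_dot (pv t)).mul (cd_cx i))).sub ((cd_dot (pv t)).mul (cd_Tv i))
  · exact (contDiff_const.sub ((cd_dot (qv t)).mul (cd_cx i))).add ((cd_dot (qv t)).mul (cd_Tv i))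

lemma cd_ef {j : ℕ} (t : ℝ) (f : WA j) {x : E6} (hp : ‖pt t x‖ < 1 / 2) :
    ContDiffAt ℝ inf (ef j t f) x :=
  ((contDiffAt_evS f.summable hp).restrict_scalars ℝ).comp x
    ((cd_dot (pv t)).prodMk (cd_dot (qv t))).contDiffAt

lemma cd_ten (t : ℝ) {x : E6} {A B : E6 → ℂ} {n : E6 → M3} (hA : ContDiffAt ℝ inf A x)
    (hB : ContDiffAt ℝ inf B x) (hn : ∀ i j, ContDiffAt ℝ inf (fun y => n y i j) x) (i j : Fin 6) :
    ContDiffAt ℝ inf (fun y => ten t (cx y) (A y) (B y) (n y) i j) x := by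
  simp only [ten_eq_sum, Matrix.add_apply, Matrix.smul_apply, Matrix.sum_apply, smul_eq_mul,
    vecMulVec_apply, Pm, Ps, Matrix.sub_apply]
  exact ((hA.mul (contDiff_const.sub ((cd_cx i).mul (cd_cx j))).contDiffAt).add
    (hB.mul ((contDiff_const.add ((cd_cx i).mul (cd_Tv j))).sub
      ((cd_Tv i).mul (cd_cx j))).contDiffAt)).add
    (ContDiffAt.sum fun k _ => ContDiffAt.sum fun l _ =>
      (hn k l).mul ((cd_fr t k i).mul (cd_fr t l j)).contDiffAt)

/-! ### The field -/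

/-- The field divided by `i r`. -/
noncomputable def Wf (p : ℝ × WA 2) (y : E6) : V6 :=
  ef 2 p.1 (om0 p) y • Tv (cx y) + ef 2 p.1 (om1 p) y • Zv p.1 (cx y) +
    ef 2 p.1 (om2 p) y • Zb p.1 (cx y)

noncomputable def bump : ContDiffBump (0 : E6) := ⟨1, 2, one_pos, one_lt_two⟩

noncomputable def rr (p : ℝ × WA 2) : ℝ := Real.sqrt (cc 2 p.2)

noncomputable def sigLoc (p : ℝ × WA 2) (y : E6) : E6 :=
  WithLp.toLp 2 fun i => rr p * (I * Wf p y i).re

noncomputable def sig (p : ℝ × WA 2) (y : E6) : E6 := bump y • sigLoc p y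

noncomputable def Kt (p : ℝ × WA 2) (y : E6) : M6 :=
  (rr p * I * ef 1 p.1 (I1 p).Δ y ^ (-(1 / 2) : ℂ)) •
    ten p.1 (cx y) (ef 1 p.1 (I1 p).KA y) (ef 1 p.1 (I1 p).KB y)
      (of fun i j => ef 1 p.1 ((I1 p).n i j) y)

section solution

variable {p : ℝ × WA 2} (ht : |p.1| < 1 / 8) (hρ : 0 < cc 2 p.2) (hy : ‖yy p‖ < 1)

include ht in
lemma contDiff_sig : ContDiff ℝ inf (sig p) := by
  rw [contDiff_iff_contDiffAt]
  intro x
  by_cases hx : x ∈ tsupport (sig p)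
  swap
  · exact contDiffAt_const.congr_of_eventuallyEq (notMem_tsupport_iff_eventuallyEq.1 hx)
  have h1 : x ∈ closedBall (0 : E6) 2 := by
    have := tsupport_smul_subset_left (fun y => (bump y : ℝ)) (sigLoc p) hx
    rwa [bump.tsupport_eq] at this
  have hp := norm_pt_lt ht (mem_closedBall_zero_iff.1 h1)
  refine bump.contDiff.contDiffAt.smul (contDiffAt_euclidean.2 fun i => ?_)
  refine contDiffAt_const.mul (reCLM.contDiff.contDiffAt.comp x (contDiffAt_const.mul ?_))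
  exact (((cd_ef _ _ hp).mul (cd_fr p.1 0 i).contDiffAt).add
    ((cd_ef _ _ hp).mul (cd_fr p.1 1 i).contDiffAt)).add
    ((cd_ef _ _ hp).mul (cd_fr p.1 2 i).contDiffAt)

include ht in
lemma hp_sph {x : E6} (hx : ‖x‖ = 1) : ‖pt p.1 x‖ < 1 := by
  have := norm_pt_lt ht (y := x) (by rw [hx]; norm_num)
  linarith

include hy in
lemma one_add_yy_mul : (1 + yy p) * ii p = 1 := by
  apply Ring.mul_inverse_cancel
  have := (Units.oneSub (-yy p) (by rwa [norm_neg])).isUnit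
  simpa using this

include ht hy in
lemma scalars {x : E6} (hx : ‖x‖ = 1) : ∃ (u : ℝ) (k : ℂ), |u| < 1 ∧ k = ef 2 p.1 (kk p.2) x ∧
    (u : ℂ) = p.1 ^ 2 * (p.1 ^ 2 - zf p.1 (cx x) * wf p.1 (cx x)) * (k * (starRingEnd ℂ) k) ∧
    ef 2 p.1 (om0 p) x = ((1 - u) / (1 + u) : ℝ) ∧
    ef 2 p.1 (om1 p) x = p.1 * k * ((1 + u)⁻¹ : ℝ) ∧
    ef 2 p.1 (om2 p) x = -(p.1 * (starRingEnd ℂ) k * ((1 + u)⁻¹ : ℝ)) := by
  have hq := (hp_sph ht hx).le
  have e : ∀ f : WA 2, ef 2 p.1 f x = evR 2 (pt p.1 x) hq f := fun f => rfl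
  set k := ef 2 p.1 (kk p.2) x with hk
  have h1 : ef 2 p.1 (yy p) x =
      p.1 ^ 2 * (p.1 ^ 2 - zf p.1 (cx x) * wf p.1 (cx x)) * (k * (starRingEnd ℂ) k) := by
    rw [hk, ← ef_sw]
    simp only [e, yy, map_mul, map_sub, ev_alg, ev_x0, ev_x1, pt, ofReal_pow]
  have h2 : (ef 2 p.1 (yy p) x).im = 0 := by
    rw [h1, wf_eq, mul_conj, mul_conj]
    norm_cast
  have h3 : ((ef 2 p.1 (yy p) x).re : ℂ) = ef 2 p.1 (yy p) x := by
    apply Complex.ext <;> simp [h2]
  have h4 : |(ef 2 p.1 (yy p) x).re| < 1 :=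
    (abs_re_le_norm _).trans_lt ((norm_evS_le (yy p) hq).trans_lt hy)
  set u := (ef 2 p.1 (yy p) x).re with hu
  have h5 : (1 + u : ℝ) ≠ 0 := by
    have := (abs_lt.1 h4).1
    linarith
  have h6 : ef 2 p.1 (ii p) x = ((1 + u)⁻¹ : ℝ) := by
    have := congrArg (evR 2 (pt p.1 x) hq) (one_add_yy_mul hy)
    rw [map_mul, map_add, map_one, ← e, ← e, ← h3] at this
    push_cast
    exact eq_inv_of_mul_eq_one_right this
  refine ⟨u, k, h4, rfl, h3.trans h1, ?_, ?_, ?_⟩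
  · rw [e, om0, map_mul, map_sub, map_one, ← e, ← e, ← h3, h6]
    push_cast
    rw [div_eq_mul_inv]
  · rw [e, om1, map_mul, map_mul, ev_alg, ← e, ← e, h6]
  · rw [e, om2, map_neg, map_mul, map_mul, ev_alg, ← e, ← e, h6, ef_sw]

include ht hy in
lemma star_Wf {x : E6} (hx : ‖x‖ = 1) : star (Wf p x) = -Wf p x := by
  obtain ⟨u, k, -, -, -, h0, h1, h2⟩ := scalars ht hy hx
  simp only [Wf, star_add, star_smul, star_Tv, star_Zv, star_Zb, h0, h1, h2, star_mul', star_neg,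
    RCLike.star_def, conj_ofReal, conj_conj]
  module

include ht hy in
lemma cx_sig {x : E6} (hx : ‖x‖ = 1) : cx (sig p x) = (rr p * I) • Wf p x := by
  have h1 : (bump x : ℝ) = 1 := bump.one_of_mem_closedBall (by simp [bump, hx])
  ext i
  have h2 := congrFun (star_Wf ht hy hx) i
  have h3 : (Wf p x i).re = 0 := by
    have := congrArg re h2
    simp at this
    linarith
  apply Complex.ext <;> simp [cx, sig, sigLoc, h1, h3]

include ht hy in
lemma Wf_dot {x : E6} (hx : ‖x‖ = 1) : Wf p x ⬝ᵥ Wf p x = -1 := by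
  obtain ⟨u, k, hu, -, h, h0, h1, h2⟩ := scalars ht hy hx
  have hx' := cx_dot_self hx
  have h5 : (1 + u : ℂ) ≠ 0 := by
    have := (abs_lt.1 hu).1
    have h6 : (1 + u : ℝ) ≠ 0 := by linarith
    exact_mod_cast h6
  simp only [Wf, add_dotProduct, dotProduct_add, smul_dotProduct, dotProduct_smul, Tv_Tv hx',
    Tv_Zv hx', Tv_Zb hx', Zv_Tv hx', Zb_Tv hx', Zv_Zv hx', Zb_Zb hx', Zv_Zb hx', Zb_Zv hx', h0, h1,
    h2, nuf, smul_eq_mul]
  push_cast
  field_simp
  linear_combination 4 * h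

include hρ in
lemma rr_pos : 0 < rr p := Real.sqrt_pos.2 hρ

include ht hρ hy in
lemma sig_props {x : E6} (hx : ‖x‖ = 1) : ‖sig p x‖ = rr p ∧ inner ℝ x (sig p x) = 0 := by
  have hx' := cx_dot_self hx
  constructor
  · have h1 := cx_dot (sig p x) (sig p x)
    rw [cx_sig ht hy hx, smul_dotProduct, dotProduct_smul, Wf_dot ht hy hx,
      real_inner_self_eq_norm_sq] at h1
    have h2 : ((rr p ^ 2 : ℝ) : ℂ) = ((‖sig p x‖ ^ 2 : ℝ) : ℂ) := by
      rw [← h1]
      simp only [smul_eq_mul]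
      push_cast
      linear_combination (rr p : ℂ) ^ 2 * I_mul_I
    exact ((pow_left_inj₀ (rr_pos hρ).le (norm_nonneg _) two_ne_zero).1 (ofReal_injective h2)).symm
  · have h1 := cx_dot x (sig p x)
    rw [cx_sig ht hy hx] at h1
    simp only [Wf, dotProduct_add, dotProduct_smul, x_Tv, x_Zv hx', x_Zb hx', smul_zero,
      add_zero] at h1
    exact_mod_cast h1.symm

include ht hρ hy in
lemma not_hopf (h0 : p.1 ≠ 0) (J : E6 →L[ℝ] E6) :
    ¬ ∀ x ∈ sphere (0 : E6) 1, sig p x = rr p • J x := by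
  intro h
  let x : E6 := EuclideanSpace.single 2 1
  have hx : ‖x‖ = 1 := by simp [x]
  have hx' : ‖-x‖ = 1 := by simp [x]
  have h1 : sig p x + sig p (-x) = 0 := by
    rw [h x (by simpa using hx), h (-x) (by simpa using hx')]
    simp
  have h2 : cx (sig p x) 1 + cx (sig p (-x)) 1 = 0 := by
    have := congrArg (fun v : E6 => ((v 1 : ℝ) : ℂ)) h1
    simpa [cx] using this
  have key : ∀ y : E6, ‖y‖ = 1 → y 0 = 0 → y 1 = 0 → ∃ c : ℝ, 0 < c ∧ cx (sig p y) 1 = c := by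
    intro y hy1 hy0 hy2
    obtain ⟨u, k, hu, hk, -, g0, g1, g2⟩ := scalars ht hy hy1
    have hz : zf p.1 (cx y) = 0 := by simp [zf, pv, cx, dotProduct, Fin.sum_univ_six, hy0, hy2]
    have hw : wf p.1 (cx y) = 0 := by rw [wf_eq, hz, map_zero]
    have hk1 : k = 1 := by
      have : pt p.1 y = 0 := by rw [pt, hz, hw]; rfl
      rw [hk, ef, this, evS_at_zero, ← cc_apply]
      simp [kk, cc_one, Algebra.algebraMap_eq_smul_one]
    have hT : Tv (cx y) 1 = 0 := by simp [Tv, jm, cx, mulVec, dotProduct, Fin.sum_univ_six, hy0]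
    have hu1 : 0 < 1 + u := by
      have := (abs_lt.1 hu).1
      linarith
    refine ⟨2 * rr p * p.1 ^ 2 * (1 + u)⁻¹, ?_, ?_⟩
    · have := rr_pos hρ
      positivity
    · rw [cx_sig ht hy hy1]
      simp only [Wf, Zv, Zb, hz, hw, g0, g1, g2, hk1, Pi.smul_apply, Pi.add_apply, Pi.sub_apply, hT,
        smul_eq_mul, pv, qv, cons_val_one, cons_val_zero, map_one]
      push_cast
      linear_combination (-2 * (rr p : ℂ) * (p.1 : ℂ) ^ 2 * (1 + (u : ℂ))⁻¹) * I_mul_I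
  obtain ⟨c, hc, e⟩ := key x hx (by simp [x]) (by simp [x])
  obtain ⟨c', hc', e'⟩ := key (-x) hx' (by simp [x]) (by simp [x])
  rw [e, e'] at h2
  have : c + c' = 0 := by exact_mod_cast h2
  linarith

/-- First-stage data at a point. -/
noncomputable def J1 {x : E6} (hq : ‖pt p.1 x‖ < 1) : In1 ℂ := (I1 p).map (evR 1 (pt p.1 x) hq.le)
/-- Second-stage data at a point. -/
noncomputable def J2 {x : E6} (hq : ‖pt p.1 x‖ < 1) : In2 ℂ := (I2 p).map (evR 0 (pt p.1 x) hq.le)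

include ht hρ hy in
lemma Kt_eq {x : E6} (hx : ‖x‖ = 1) {φ : E6 → E6} (hφ : DifferentiableAt ℝ φ x)
    (he : ∀ y : E6, ‖y‖ = 1 → φ y = sig p y) :
    ef 1 p.1 (I1 p).Δ x ∈ slitPlane ∧
      cm (Kmat (Pr x * mat (fderiv ℝ φ x) * Pr x)) = Kt p x := by
  have hq := hp_sph ht hx
  have hx' := cx_dot_self hx
  have hz : (J1 hq).z = zf p.1 (cx x) := ev_x0 1 hq.le
  have hw : (J1 hq).w = wf p.1 (cx x) := ev_x1 1 hq.le
  have hν : (J1 hq).ν = nuf p.1 (cx x) := ev_nu 1 p.1 hq.le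
  have hρ' : (J1 hq).ρ = cc 2 p.2 := ev_alg 1 _ hq.le
  obtain ⟨M, hM, hM'⟩ := hjv_field hx' p.1 (J1 hq) hz hw (hgj_ef (om0 p) hq) (hgj_ef (om1 p) hq)
    (hgj_ef (om2 p) hq)
  have h1 := tangential_jac hx hφ (HJv.smul (HG.const (rr p * I)) hM)
    (fun y hy1 => by rw [he y hy1, cx_sig ht hy hy1]; rfl)
  have h2 : cm (Pr x * mat (fderiv ℝ φ x) * Pr x) =
      (rr p * I) • ten p.1 (cx x) (J1 hq).a (J1 hq).b (J1 hq).N := by
    rw [cm_mul, cm_mul, cm_Pr, Matrix.mul_assoc, h1, ← hM']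
    simp [Matrix.mul_assoc]
  obtain ⟨u, k, hu, -, -, g0, g1, g2⟩ := scalars ht hy hx
  have v0 : (J1 hq).o0.v = _ := (hgj_ef (om0 p) hq).1.symm.trans g0
  have v1 : (J1 hq).o1.v = _ := (hgj_ef (om1 p) hq).1.symm.trans g1
  have v2 : (J1 hq).o2.v = _ := (hgj_ef (om2 p) hq).1.symm.trans g2
  set s : ℂ := zf p.1 (cx x) * (p.1 * k * ((1 + u)⁻¹ : ℝ)) with hs
  have hs' : wf p.1 (cx x) * (p.1 * (starRingEnd ℂ) k * ((1 + u)⁻¹ : ℝ)) = (starRingEnd ℂ) s := by
    rw [hs, wf_eq]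
    simp only [map_mul, conj_ofReal]
  have hl : (J1 hq).lam =
      ((1 + cc 2 p.2 * (4 * s.im ^ 2 + ((1 - u) / (1 + u) - 2 * s.re) ^ 2) : ℝ) : ℂ) := by
    have ea : (J1 hq).a = -(2 * s.im * I) := by
      rw [In1.a, hz, hw, v1, v2, mul_neg, hs', ← hs]
      apply Complex.ext <;> simp
      ring
    have eb : (J1 hq).b = (((1 - u) / (1 + u) - 2 * s.re : ℝ) : ℂ) := by
      rw [In1.b, hz, hw, v0, v1, v2, mul_neg, hs', ← hs]
      apply Complex.ext
      · simp only [add_re, sub_re, ofReal_re, neg_re, conj_re]; ring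
      · simp only [add_im, sub_im, ofReal_im, neg_im, conj_im]; ring
    rw [In1.lam, ea, eb, hρ']
    push_cast
    linear_combination (-4 * (cc 2 p.2 : ℂ) * (s.im : ℂ) ^ 2) * I_mul_I
  have hr : (rr p : ℂ) ^ 2 = (J1 hq).ρ := by
    rw [hρ', rr]
    exact_mod_cast Real.sq_sqrt hρ.le
  have h3 := Kmat_eq hx' (J1 hq) hν hr (by positivity) hl h2
  rw [J1, In1.Δ_map, In1.KA_map, In1.KB_map, In1.n_map] at h3
  exact h3

include ht hρ hy in
lemma hd_Kt (hF : FF p = 0) {x : E6} (hx : ‖x‖ = 1) (hs : ef 1 p.1 (I1 p).Δ x ∈ slitPlane)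
    (hK : ∀ y : E6, ‖y‖ = 1 → ∀ i j, (Kt p y i j).im = 0) :
    ∃ c : ℂ, HD (Kt p) x (c • Wf p x) := by
  have hq := hp_sph ht hx
  have hx' := cx_dot_self hx
  have hz : (J2 hq).z = zf p.1 (cx x) := ev_x0 0 hq.le
  have hw : (J2 hq).w = wf p.1 (cx x) := ev_x1 0 hq.le
  have hν : (J2 hq).ν = nuf p.1 (cx x) := ev_nu 0 p.1 hq.le
  have hA : HGJ p.1 (ef 1 p.1 (I1 p).KA) x (J2 hq).A := hgj_ef (I1 p).KA hq
  have hB : HGJ p.1 (ef 1 p.1 (I1 p).KB) x (J2 hq).B := hgj_ef (I1 p).KB hq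
  have hΔ : HGJ p.1 (ef 1 p.1 (I1 p).Δ) x (J2 hq).Δ := hgj_ef (I1 p).Δ hq
  have hn : ∀ i j, HGJ p.1 (ef 1 p.1 ((I1 p).n i j)) x ((J2 hq).n i j) := fun i j =>
    hgj_ef ((I1 p).n i j) hq
  have h1 := hd_ten hx' p.1 (J2 hq) hz hw hν
    (n := fun y => of fun i j => ef 1 p.1 ((I1 p).n i j) y) hA hB hn
  have h2 := HD.smul ((HG.const (rr p * I)).mul (hΔ.2.cpow hs (-(1 / 2)))) h1
  set g : ℂ := rr p * I * ef 1 p.1 (I1 p).Δ x ^ (-(1 / 2) - 1 : ℂ) / 2 with hg
  have hΔ0 : ef 1 p.1 (I1 p).Δ x ≠ 0 := slitPlane_ne_zero hs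
  have h3 : ef 1 p.1 (I1 p).Δ x ^ (-(1 / 2) : ℂ) =
      ef 1 p.1 (I1 p).Δ x ^ (-(1 / 2) - 1 : ℂ) * (J2 hq).Δ.v := by
    rw [cpow_sub _ _ hΔ0, cpow_one, ← hΔ.1]
    field_simp
  have h4 : HD (Kt p) x ((g * (J2 hq).e0) • Tv (cx x) + (g * (J2 hq).e1) • Zv p.1 (cx x) +
      (g * (J2 hq).e2) • Zb p.1 (cx x)) := by
    refine h2.congr ?_
    have hv : ∀ i j, ef 1 p.1 ((I1 p).n i j) x = ((J2 hq).n i j).v := fun i j => (hn i j).1
    rw [smul_zero, add_zero, smul_smul, mulVec_smul, Pm_grad, mulVec_smul,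
      ten_Em hx', mulVec_smul, mulVec_mulVec, Pm_Em hx', Em_mulVec, Em_mulVec, h3, hg]
    simp only [hA.1, hB.1, hv, In2.e0, In2.e1, In2.e2, In2.k0, In2.k1, In2.k2, In2.q, hz, hw, hν,
      Pi.add_apply, Pi.smul_apply, Dm, Gm, mulVec, dotProduct, Fin.sum_univ_three, of_apply,
      cons_val, smul_eq_mul]
    module
  obtain ⟨u, k, hu, -, -, g0, -, -⟩ := scalars ht hy hx
  have h0 : ef 2 p.1 (om0 p) x ≠ 0 := by
    rw [g0]
    have := abs_lt.1 hu
    have h5 : (1 - u) / (1 + u) ≠ 0 := div_ne_zero (by linarith) (by linarith)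
    exact_mod_cast h5
  have hF' : ef 2 p.1 (om0 p) x * (J2 hq).e1 - ef 2 p.1 (om1 p) x * (J2 hq).e0 = 0 := by
    have h6 : (J2 hq).F = 0 := by
      rw [J2, In2.F_map]
      change evR 0 _ _ (FF p) = 0
      rw [hF, map_zero]
    have o0 : (J2 hq).o0 = ef 2 p.1 (om0 p) x := (ev_inc _ hq.le).trans (ev_inc _ hq.le)
    have o1 : (J2 hq).o1 = ef 2 p.1 (om1 p) x := (ev_inc _ hq.le).trans (ev_inc _ hq.le)
    rw [← o0, ← o1]
    exact h6
  exact ⟨_, h4.congr (parallel_of_real hx p.1 h0 (star_Wf ht hy hx) (h4.real hx hK)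
    (by linear_combination g * hF'))⟩

include ht in
lemma cd_Kt {x : E6} (hx : ‖x‖ = 1) (hs : ef 1 p.1 (I1 p).Δ x ∈ slitPlane) (i j : Fin 6) :
    ContDiffAt ℝ inf (fun y => Kt p y i j) x := by
  have hq := norm_pt_lt ht (y := x) (by rw [hx]; norm_num)
  have h1 : ContDiffAt ℂ inf (fun u : ℂ => u ^ (-(1 / 2) : ℂ)) (ef 1 p.1 (I1 p).Δ x) :=
    (analyticAt_id.cpow analyticAt_const hs).contDiffAt
  exact (contDiffAt_const.mul ((h1.restrict_scalars ℝ).comp x (cd_ef _ _ hq))).mul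
    (cd_ten p.1 (n := fun y => of fun i j => ef 1 p.1 ((I1 p).n i j) y) (cd_ef _ _ hq)
      (cd_ef _ _ hq) (fun k l => cd_ef _ _ hq) i j)

include ht hρ hy in
theorem critical (hF : FF p = 0) (Φ : ℝ → E6 → E6)
    (hΦ : ContDiff ℝ inf fun q : ℝ × E6 => Φ q.1 q.2)
    (h0 : ∀ x ∈ sphere (0 : E6) 1, Φ 0 x = sig p x)
    (h1 : ∀ t : ℝ, ∀ x ∈ sphere (0 : E6) 1, ‖Φ t x‖ = rr p ∧ inner ℝ x (Φ t x) = 0) :
    deriv (fun t : ℝ => ∫ x : sphere (0 : E6) 1, volInt (fderiv ℝ (Φ t) x) x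
      ∂(volume : Measure E6).toSphere) 0 = 0 := by
  rw [(first_variation hΦ).deriv]
  have h0' : ∀ y : E6, ‖y‖ = 1 → Φ 0 y = sig p y := fun y hy1 => h0 y (by simpa using hy1)
  have hKt : ∀ x : E6, ‖x‖ = 1 → ef 1 p.1 (I1 p).Δ x ∈ slitPlane ∧
      cm (Kmat (Pr x * mat (fderiv ℝ (Φ 0) x) * Pr x)) = Kt p x := fun x hx =>
    Kt_eq ht hρ hy hx (hasFDerivAt_slice hΦ 0 x).differentiableAt h0'
  have hreal : ∀ y : E6, ‖y‖ = 1 → ∀ i j, (Kt p y i j).im = 0 := fun y hy1 i j => by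
    rw [← (hKt y hy1).2, cm_apply, ofReal_im]
  have hΨ := contDiff_varF hΦ
  have hxΨ : ∀ x : E6, ‖x‖ = 1 → inner ℝ x (varF Φ x) = 0 := by
    intro x hx
    have h2 := (hasDerivAt_const (0 : ℝ) x).inner ℝ (hasDerivAt_time hΦ x)
    have h3 : (fun t => inner ℝ x (Φ t x)) = fun _ => (0 : ℝ) :=
      funext fun t => (h1 t x (by simpa using hx)).2
    rw [h3] at h2
    simpa using h2.unique (hasDerivAt_const _ _)
  have hσΨ : ∀ x : E6, ‖x‖ = 1 → inner ℝ (sig p x) (varF Φ x) = 0 := by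
    intro x hx
    have h2 := (hasDerivAt_time hΦ x).inner ℝ (hasDerivAt_time hΦ x)
    have h3 : (fun t => inner ℝ (Φ t x) (Φ t x)) = fun _ => rr p ^ 2 :=
      funext fun t => by rw [real_inner_self_eq_norm_sq, (h1 t x (by simpa using hx)).1]
    rw [h3] at h2
    have h4 := h2.unique (hasDerivAt_const _ _)
    rw [h0' x hx, real_inner_comm (sig p x) (varF Φ x)] at h4
    linarith
  have hKx : ∀ x : E6, ‖x‖ = 1 → Kt p x *ᵥ cx x = 0 := fun x hx => by
    rw [Kt, smul_mulVec, ten_x (cx_dot_self hx), smul_zero]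
  have hdiv := integral_tdiv_eq_zero (fun j y => ∑ i, Kt p y i j * cx (varF Φ y) i)
    (fun j x hx => ContDiffAt.sum fun i _ =>
      ((cd_Kt ht hx (hKt x hx).1 i j).of_le one_le_inf).mul
        (((cd_cx i).of_le one_le_inf).contDiffAt.comp x hΨ.contDiffAt))
    (fun x hx => by
      have := congrArg (fun v => v ⬝ᵥ cx (varF Φ x)) (hKx x hx)
      simp only [zero_dotProduct] at this
      rw [← this]
      simp only [dotProduct, mulVec, Finset.mul_sum, Finset.sum_mul]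
      rw [Finset.sum_comm]
      refine Finset.sum_congr rfl fun i _ => Finset.sum_congr rfl fun j _ => ?_
      simp only [cx]
      ring)
  apply ofReal_injective
  rw [← integral_complex_ofReal, ofReal_zero, ← hdiv]
  refine integral_congr_ae (Filter.Eventually.of_forall fun x => ?_)
  have hx : ‖x.1‖ = 1 := by simp
  have hx' := cx_dot_self hx
  obtain ⟨c, hc⟩ := hd_Kt ht hρ hy hF hx (hKt x hx).1 hreal
  have h5 := hc.pairing (hΨ.differentiable one_ne_zero x.1) (by rw [cx_dot, hxΨ x hx]; simp)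
  have h6 : Wf p x ⬝ᵥ cx (varF Φ x) = 0 := by
    have h7 := cx_dot (sig p x) (varF Φ x)
    rw [hσΨ x hx, cx_sig ht hy hx, smul_dotProduct, smul_eq_mul, ofReal_zero, mul_eq_zero] at h7
    refine h7.resolve_left (mul_ne_zero ?_ I_ne_zero)
    exact_mod_cast (rr_pos hρ).ne'
  rw [smul_dotProduct, h6, smul_zero, zero_add] at h5
  refine Eq.trans ?_ h5.symm
  have h8 : (Kt p x)ᵀ * Pm (cx x) = (Kt p x)ᵀ := by
    rw [← Pm_transpose, ← transpose_mul, Kt, Matrix.mul_smul, Pm_ten hx']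
  simp only
  rw [← cm_trace, cm_mul, cm_transpose, (hKt x hx).2, cm_mul, cm_mul, cm_Pr, Matrix.mul_assoc,
    ← Matrix.mul_assoc, h8]

end solution

theorem exists_nonHopf : ∃ (r : ℝ) (σ : E6 → E6), 0 < r ∧ ContDiff ℝ inf σ ∧
    (∀ x ∈ sphere (0 : E6) 1, ‖σ x‖ = r ∧ inner ℝ x (σ x) = 0) ∧
    (∀ Φ : ℝ → E6 → E6, ContDiff ℝ inf (fun q : ℝ × E6 => Φ q.1 q.2) →
      (∀ x ∈ sphere (0 : E6) 1, Φ 0 x = σ x) →
      (∀ t : ℝ, ∀ x ∈ sphere (0 : E6) 1, ‖Φ t x‖ = r ∧ inner ℝ x (Φ t x) = 0) →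
      deriv (fun t : ℝ => ∫ x : sphere (0 : E6) 1, volInt (fderiv ℝ (Φ t) x) x
        ∂(volume : Measure E6).toSphere) 0 = 0) ∧
    ∀ J : E6 →L[ℝ] E6, ¬ ∀ x ∈ sphere (0 : E6) 1, σ x = r • J x := by
  obtain ⟨p, h0, ht, hρ, hy, hF⟩ := exists_solution
  exact ⟨rr p, sig p, rr_pos hρ, contDiff_sig ht,
    fun x hx => sig_props ht hρ hy (by simpa using hx), critical ht hρ hy hF,
    not_hopf ht hρ hy h0⟩

end Pool.Agent.Work.MP_3fb46c_gt
end
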