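import Pool.Agent.Work.MP_3fb46c_gt.Reduced
import Mathlib

-- merged part: Pool.Agent.Work.MP_3fb46c_gt.Frame
section
/-!
The complex frame adapted to the Hopf field and a fixed vector, and the algebra of invariant
tensors on the five-sphere.
-/

set_option autoImplicit false

open Matrix Complex

namespace Pool.Agent.Work.MP_3fb46c_gt

abbrev V6 := Fin 6 → ℂ
abbrev M6 := Matrix (Fin 6) (Fin 6) ℂ
abbrev M3 := Matrix (Fin 3) (Fin 3) ℂ

/-- The matrix `-i J`, where `J` is the standard complex structure. -/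
noncomputable def jm : M6 :=
  !![0, I, 0, 0, 0, 0; -I, 0, 0, 0, 0, 0; 0, 0, 0, I, 0, 0; 0, 0, -I, 0, 0, 0;
    0, 0, 0, 0, 0, I; 0, 0, 0, 0, -I, 0]

noncomputable def pv (t : ℝ) : V6 := ![t, -I * t, 0, 0, 0, 0]
noncomputable def qv (t : ℝ) : V6 := ![t, I * t, 0, 0, 0, 0]

lemma jm_transpose : jmᵀ = -jm := by
  ext i j; fin_cases i <;> fin_cases j <;> simp [jm]

lemma jm_mul_jm : jm * jm = 1 := by
  ext i j; fin_cases i <;> fin_cases j <;> simp [jm, Matrix.mul_apply, Fin.sum_univ_six]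

lemma trace_jm : jm.trace = 0 := by simp [jm, Matrix.trace, Fin.sum_univ_six]

lemma jm_pv (t : ℝ) : jm *ᵥ pv t = pv t := by
  ext i; fin_cases i <;> simp [jm, pv, mulVec, dotProduct, Fin.sum_univ_six]
  rw [← mul_assoc]; simp

lemma jm_qv (t : ℝ) : jm *ᵥ qv t = -qv t := by
  ext i; fin_cases i <;> simp [jm, qv, mulVec, dotProduct, Fin.sum_univ_six]
  rw [← mul_assoc]; simp

lemma pv_pv (t : ℝ) : pv t ⬝ᵥ pv t = 0 := by
  simp [pv, dotProduct, Fin.sum_univ_six]; ring_nf; simp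

lemma qv_qv (t : ℝ) : qv t ⬝ᵥ qv t = 0 := by
  simp [qv, dotProduct, Fin.sum_univ_six]; ring_nf; simp

lemma pv_qv (t : ℝ) : pv t ⬝ᵥ qv t = 2 * (t : ℂ) ^ 2 := by
  simp [pv, qv, dotProduct, Fin.sum_univ_six]; ring_nf; simp; ring

lemma qv_pv (t : ℝ) : qv t ⬝ᵥ pv t = 2 * (t : ℂ) ^ 2 := by rw [dotProduct_comm, pv_qv]

lemma dot_jm (u v : V6) : u ⬝ᵥ jm *ᵥ v = -(jm *ᵥ u ⬝ᵥ v) := by
  rw [dotProduct_mulVec, ← mulVec_transpose, jm_transpose, neg_mulVec, neg_dotProduct]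

lemma jm_jm (v : V6) : jm *ᵥ jm *ᵥ v = v := by rw [mulVec_mulVec, jm_mul_jm, one_mulVec]

noncomputable def Tv (x : V6) : V6 := jm *ᵥ x
noncomputable def zf (t : ℝ) (x : V6) : ℂ := pv t ⬝ᵥ x
noncomputable def wf (t : ℝ) (x : V6) : ℂ := qv t ⬝ᵥ x
noncomputable def Zv (t : ℝ) (x : V6) : V6 := pv t - zf t x • x - zf t x • Tv x
noncomputable def Zb (t : ℝ) (x : V6) : V6 := qv t - wf t x • x + wf t x • Tv x
noncomputable def nuf (t : ℝ) (x : V6) : ℂ := 2 * ((t : ℂ) ^ 2 - zf t x * wf t x)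
noncomputable def Pm (x : V6) : M6 := 1 - vecMulVec x x
noncomputable def Ps (x : V6) : M6 := jm + vecMulVec x (Tv x) - vecMulVec (Tv x) x
noncomputable def fr (t : ℝ) (x : V6) : Fin 3 → V6 := ![Tv x, Zv t x, Zb t x]
noncomputable def Em (t : ℝ) (x : V6) : Matrix (Fin 6) (Fin 3) ℂ := of fun i k => fr t x k i

/-- The invariant tensor with coefficients `a`, `b`, `N`. -/
noncomputable def ten (t : ℝ) (x : V6) (a b : ℂ) (N : M3) : M6 :=
  a • Pm x + b • Ps x + Em t x * N * (Em t x)ᵀ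

lemma vmv (u v w : V6) : vecMulVec u v *ᵥ w = (v ⬝ᵥ w) • u := by
  rw [vecMulVec_mulVec]; ext i; simp [mul_comm]

lemma Pm_mulVec (x v : V6) : Pm x *ᵥ v = v - (x ⬝ᵥ v) • x := by
  rw [Pm, sub_mulVec, one_mulVec, vmv]

lemma Ps_mulVec (x v : V6) : Ps x *ᵥ v = jm *ᵥ v + (Tv x ⬝ᵥ v) • x - (x ⬝ᵥ v) • Tv x := by
  rw [Ps, sub_mulVec, add_mulVec, vmv, vmv]

lemma Em_mulVec (t : ℝ) (x : V6) (c : Fin 3 → ℂ) :
    Em t x *ᵥ c = c 0 • Tv x + c 1 • Zv t x + c 2 • Zb t x := by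
  ext i; simp [Em, fr, mulVec, dotProduct, Fin.sum_univ_three, mul_comm]

lemma EmT_mulVec (t : ℝ) (x v : V6) :
    (Em t x)ᵀ *ᵥ v = ![Tv x ⬝ᵥ v, Zv t x ⬝ᵥ v, Zb t x ⬝ᵥ v] := by
  ext k; fin_cases k <;> rfl

lemma jm_Tv (x : V6) : jm *ᵥ Tv x = x := jm_jm x

lemma x_Tv (x : V6) : x ⬝ᵥ Tv x = 0 := by
  have := dot_jm x x
  rw [dotProduct_comm (jm *ᵥ x)] at this
  unfold Tv
  linear_combination (1 / 2 : ℂ) * this

lemma Tv_x (x : V6) : Tv x ⬝ᵥ x = 0 := by rw [dotProduct_comm, x_Tv]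

lemma pv_Tv (t : ℝ) (x : V6) : pv t ⬝ᵥ Tv x = -zf t x := by rw [Tv, dot_jm, jm_pv, zf]
lemma qv_Tv (t : ℝ) (x : V6) : qv t ⬝ᵥ Tv x = wf t x := by
  rw [Tv, dot_jm, jm_qv, wf, neg_dotProduct, neg_neg]
lemma Tv_pv (t : ℝ) (x : V6) : Tv x ⬝ᵥ pv t = -zf t x := by rw [dotProduct_comm, pv_Tv]
lemma Tv_qv (t : ℝ) (x : V6) : Tv x ⬝ᵥ qv t = wf t x := by rw [dotProduct_comm, qv_Tv]
lemma pv_x (t : ℝ) (x : V6) : pv t ⬝ᵥ x = zf t x := rfl
lemma qv_x (t : ℝ) (x : V6) : qv t ⬝ᵥ x = wf t x := rfl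
lemma x_pv (t : ℝ) (x : V6) : x ⬝ᵥ pv t = zf t x := by rw [dotProduct_comm, pv_x]
lemma x_qv (t : ℝ) (x : V6) : x ⬝ᵥ qv t = wf t x := by rw [dotProduct_comm, qv_x]

lemma Pm_transpose (x : V6) : (Pm x)ᵀ = Pm x := by
  rw [Pm, transpose_sub, transpose_one, transpose_vecMulVec]

lemma Ps_transpose (x : V6) : (Ps x)ᵀ = -Ps x := by
  rw [Ps, transpose_sub, transpose_add, jm_transpose, transpose_vecMulVec, transpose_vecMulVec]
  abel

section sphere

variable {x : V6} (hx : x ⬝ᵥ x = 1) (t : ℝ)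
include hx

lemma Tv_Tv : Tv x ⬝ᵥ Tv x = -1 := by
  conv_lhs => rw [Tv.eq_1 x, dot_jm, jm_jm, hx]

lemma x_Zv : x ⬝ᵥ Zv t x = 0 := by simp [Zv, x_pv, x_Tv, hx]
lemma x_Zb : x ⬝ᵥ Zb t x = 0 := by simp [Zb, x_qv, x_Tv, hx]
lemma Tv_Zv : Tv x ⬝ᵥ Zv t x = 0 := by simp [Zv, Tv_pv, Tv_x, Tv_Tv hx]
lemma Tv_Zb : Tv x ⬝ᵥ Zb t x = 0 := by simp [Zb, Tv_qv, Tv_x, Tv_Tv hx]
omit hx in
lemma pv_Zv : pv t ⬝ᵥ Zv t x = 0 := by simp [Zv, pv_pv, pv_x t x, pv_Tv]
omit hx in
lemma qv_Zb : qv t ⬝ᵥ Zb t x = 0 := by simp [Zb, qv_qv, qv_x t x, qv_Tv]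
omit hx in
lemma pv_Zb : pv t ⬝ᵥ Zb t x = nuf t x := by simp [Zb, pv_qv, pv_x t x, pv_Tv, nuf]; ring
omit hx in
lemma qv_Zv : qv t ⬝ᵥ Zv t x = nuf t x := by simp [Zv, qv_pv, qv_x t x, qv_Tv, nuf]; ring
lemma Zv_x : Zv t x ⬝ᵥ x = 0 := by rw [dotProduct_comm, x_Zv hx]
lemma Zb_x : Zb t x ⬝ᵥ x = 0 := by rw [dotProduct_comm, x_Zb hx]
lemma Zv_Tv : Zv t x ⬝ᵥ Tv x = 0 := by rw [dotProduct_comm, Tv_Zv hx]
lemma Zb_Tv : Zb t x ⬝ᵥ Tv x = 0 := by rw [dotProduct_comm, Tv_Zb hx]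
lemma Zv_Zv : Zv t x ⬝ᵥ Zv t x = 0 := by
  conv_lhs => rw [Zv.eq_1 t x]
  simp only [sub_dotProduct, smul_dotProduct]
  rw [← Zv.eq_1 t x, pv_Zv, x_Zv hx, Tv_Zv hx]; simp
lemma Zb_Zb : Zb t x ⬝ᵥ Zb t x = 0 := by
  conv_lhs => rw [Zb.eq_1 t x]
  simp only [sub_dotProduct, add_dotProduct, smul_dotProduct]
  rw [← Zb.eq_1 t x, qv_Zb, x_Zb hx, Tv_Zb hx]; simp
lemma Zv_Zb : Zv t x ⬝ᵥ Zb t x = nuf t x := by
  rw [Zv]
  simp only [sub_dotProduct, smul_dotProduct]
  rw [pv_Zb, x_Zb hx, Tv_Zb hx]; simp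
lemma Zb_Zv : Zb t x ⬝ᵥ Zv t x = nuf t x := by rw [dotProduct_comm, Zv_Zb hx]

omit hx in
lemma jm_Zv : jm *ᵥ Zv t x = Zv t x := by
  rw [Zv, mulVec_sub, mulVec_sub, mulVec_smul, mulVec_smul, jm_pv, jm_Tv, ← Tv]; abel
omit hx in
lemma jm_Zb : jm *ᵥ Zb t x = -Zb t x := by
  rw [Zb, mulVec_add, mulVec_sub, mulVec_smul, mulVec_smul, jm_qv, jm_Tv, ← Tv]; abel

lemma Pm_x : Pm x *ᵥ x = 0 := by simp [Pm_mulVec, hx]
omit hx in
lemma Pm_Tv : Pm x *ᵥ Tv x = Tv x := by simp [Pm_mulVec, x_Tv]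
lemma Pm_Zv : Pm x *ᵥ Zv t x = Zv t x := by simp [Pm_mulVec, x_Zv hx]
lemma Pm_Zb : Pm x *ᵥ Zb t x = Zb t x := by simp [Pm_mulVec, x_Zb hx]
omit hx in
lemma Pm_pv : Pm x *ᵥ pv t = Zv t x + zf t x • Tv x := by simp [Pm_mulVec, x_pv, Zv]
omit hx in
lemma Pm_qv : Pm x *ᵥ qv t = Zb t x - wf t x • Tv x := by simp [Pm_mulVec, x_qv, Zb]
lemma Ps_x : Ps x *ᵥ x = 0 := by rw [Ps_mulVec, hx, Tv_x, ← Tv]; simp
lemma Ps_Tv : Ps x *ᵥ Tv x = 0 := by simp [Ps_mulVec, jm_Tv, x_Tv, Tv_Tv hx]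
lemma Ps_Zv : Ps x *ᵥ Zv t x = Zv t x := by simp [Ps_mulVec, jm_Zv, x_Zv hx, Tv_Zv hx]
lemma Ps_Zb : Ps x *ᵥ Zb t x = -Zb t x := by simp [Ps_mulVec, jm_Zb, x_Zb hx, Tv_Zb hx]

lemma Pm_Pm : Pm x * Pm x = Pm x := by
  rw [ext_iff_mulVec]
  intro v
  rw [← mulVec_mulVec, Pm_mulVec x v, mulVec_sub, mulVec_smul, Pm_x hx, Pm_mulVec]
  simp

omit hx in
lemma x_jm (v : V6) : x ⬝ᵥ jm *ᵥ v = -(Tv x ⬝ᵥ v) := dot_jm x v
omit hx in
lemma Tv_jm (v : V6) : Tv x ⬝ᵥ jm *ᵥ v = -(x ⬝ᵥ v) := by rw [dot_jm, jm_Tv]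

lemma Pm_Ps : Pm x * Ps x = Ps x := by
  rw [ext_iff_mulVec]
  intro v
  rw [← mulVec_mulVec, Pm_mulVec, Ps_mulVec]
  simp [x_jm, hx, x_Tv]

lemma Ps_Pm : Ps x * Pm x = Ps x := by
  have := congrArg transpose (Pm_Ps hx)
  rw [transpose_mul, Ps_transpose, Pm_transpose, Matrix.neg_mul] at this
  exact neg_injective this

lemma Pm_jm_Pm : Pm x * jm * Pm x = Ps x := by
  rw [ext_iff_mulVec]
  intro v
  rw [← mulVec_mulVec, ← mulVec_mulVec, Pm_mulVec x v, mulVec_sub, mulVec_smul, ← Tv.eq_1 x,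
    Pm_mulVec, Ps_mulVec]
  simp only [dotProduct_sub, dotProduct_smul, x_jm, x_Tv, smul_zero, sub_zero]
  module

lemma Pm_Em : Pm x * Em t x = Em t x := by
  rw [ext_iff_mulVec]
  intro v
  rw [← mulVec_mulVec, Em_mulVec]
  simp only [mulVec_add, mulVec_smul, Pm_Tv, Pm_Zv hx, Pm_Zb hx]

lemma Ps_Em : Ps x * Em t x = Em t x * Dm ℂ := by
  rw [ext_iff_mulVec]
  intro v
  rw [← mulVec_mulVec, ← mulVec_mulVec, Em_mulVec, Em_mulVec]
  simp [mulVec_add, mulVec_smul, Ps_Tv hx, Ps_Zv hx, Ps_Zb hx, Dm, mulVec, dotProduct,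
    Fin.sum_univ_three]

lemma EmT_Em : (Em t x)ᵀ * Em t x = Gm (nuf t x) := by
  ext i j
  change fr t x i ⬝ᵥ fr t x j = _
  fin_cases i <;> fin_cases j <;>
    simp [fr, Gm, Tv_Tv hx, Tv_Zv hx, Tv_Zb hx, Zv_Tv hx, Zb_Tv hx, Zv_Zv hx, Zb_Zb hx, Zv_Zb hx,
      Zb_Zv hx]

omit hx in
lemma Dm_transpose : (Dm ℂ)ᵀ = Dm ℂ := by
  ext i j; fin_cases i <;> fin_cases j <;> simp [Dm]

lemma EmT_Pm : (Em t x)ᵀ * Pm x = (Em t x)ᵀ := by
  have := congrArg transpose (Pm_Em hx t)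
  rwa [transpose_mul, Pm_transpose] at this

lemma EmT_Ps : (Em t x)ᵀ * Ps x = -(Dm ℂ * (Em t x)ᵀ) := by
  have := congrArg transpose (Ps_Em hx t)
  rw [transpose_mul, transpose_mul, Ps_transpose, Dm_transpose, Matrix.mul_neg] at this
  rw [← this, neg_neg]

lemma Ps_Ps : Ps x * Ps x = Pm x + Em t x * E00 ℂ * (Em t x)ᵀ := by
  rw [ext_iff_mulVec]
  intro v
  rw [← mulVec_mulVec, add_mulVec, ← mulVec_mulVec, ← mulVec_mulVec, EmT_mulVec, Em_mulVec,
    Ps_mulVec x v, mulVec_sub, mulVec_add, mulVec_smul, mulVec_smul, Ps_x hx, Ps_Tv hx, Ps_mulVec,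
    Pm_mulVec, jm_jm, Tv_jm, x_jm]
  simp [E00, mulVec, dotProduct, Fin.sum_univ_three]
  abel

lemma EmT_x : (Em t x)ᵀ *ᵥ x = 0 := by
  rw [EmT_mulVec, Tv_x, Zv_x hx, Zb_x hx]
  ext k; fin_cases k <;> rfl

lemma ten_mul (a b a' b' : ℂ) (N N' : M3) :
    ten t x a b N * ten t x a' b' N' = ten t x (a * a' + b * b') (a * b' + b * a')
      ((b * b') • E00 ℂ + a • N' + a' • N + b • (Dm ℂ * N') - b' • (N * Dm ℂ) +
        N * Gm (nuf t x) * N') := by
  have h1 : Pm x * (Em t x * N' * (Em t x)ᵀ) = Em t x * N' * (Em t x)ᵀ := by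
    rw [Matrix.mul_assoc, ← Matrix.mul_assoc, Pm_Em hx]
  have h2 : Ps x * (Em t x * N' * (Em t x)ᵀ) = Em t x * (Dm ℂ * N') * (Em t x)ᵀ := by
    rw [Matrix.mul_assoc, ← Matrix.mul_assoc, Ps_Em hx]; simp only [Matrix.mul_assoc]
  have h3 : Em t x * N * (Em t x)ᵀ * Pm x = Em t x * N * (Em t x)ᵀ := by
    rw [Matrix.mul_assoc, EmT_Pm hx]
  have h4 : Em t x * N * (Em t x)ᵀ * Ps x = -(Em t x * (N * Dm ℂ) * (Em t x)ᵀ) := by
    rw [Matrix.mul_assoc, EmT_Ps hx]; simp only [Matrix.mul_assoc, Matrix.mul_neg]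
  have h5 : Em t x * N * (Em t x)ᵀ * (Em t x * N' * (Em t x)ᵀ) =
      Em t x * (N * Gm (nuf t x) * N') * (Em t x)ᵀ := by
    rw [← EmT_Em hx]; simp only [Matrix.mul_assoc]
  simp only [ten, Matrix.add_mul, Matrix.mul_add, Matrix.sub_mul, Matrix.mul_sub, Matrix.smul_mul,
    Matrix.mul_smul, h1, h2, h3, h4, h5, Pm_Pm hx, Pm_Ps hx, Ps_Pm hx, Ps_Ps hx t]
  module

omit hx in
lemma ten_transpose (a b : ℂ) (N : M3) : (ten t x a b N)ᵀ = ten t x a (-b) Nᵀ := by
  simp only [ten, transpose_add, transpose_smul, transpose_mul, transpose_transpose, Pm_transpose,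
    Ps_transpose, Matrix.mul_assoc]
  module

lemma ten_x (a b : ℂ) (N : M3) : ten t x a b N *ᵥ x = 0 := by
  simp only [ten, add_mulVec, smul_mulVec, Pm_x hx, Ps_x hx, ← mulVec_mulVec, EmT_x hx]
  simp

lemma ten_Pm (a b : ℂ) (N : M3) : ten t x a b N * Pm x = ten t x a b N := by
  simp only [ten, Matrix.add_mul, Matrix.smul_mul, Pm_Pm hx, Ps_Pm hx, Matrix.mul_assoc, EmT_Pm hx]

lemma Pm_ten (a b : ℂ) (N : M3) : Pm x * ten t x a b N = ten t x a b N := by
  simp only [ten, Matrix.mul_add, Matrix.mul_smul, Pm_Pm hx, Pm_Ps hx, ← Matrix.mul_assoc,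
    Pm_Em hx]

lemma ten_Em (a b : ℂ) (N : M3) (c : Fin 3 → ℂ) : ten t x a b N *ᵥ (Em t x *ᵥ c) =
    Em t x *ᵥ (a • c + b • (Dm ℂ *ᵥ c) + N *ᵥ (Gm (nuf t x) *ᵥ c)) := by
  simp only [ten, mulVec_mulVec, Matrix.add_mul, Matrix.smul_mul, Pm_Em hx, Ps_Em hx, mulVec_add,
    mulVec_smul, Matrix.mul_assoc, EmT_Em hx, add_mulVec, smul_mulVec]

lemma det_xx_add (l : ℂ) (hl : l ≠ 0) : (vecMulVec x x + l • Pm x).det = l ^ 5 := by
  have e : vecMulVec x x + l • Pm x =
      l • (1 + replicateCol Unit ((l⁻¹ - 1) • x) * replicateRow Unit x) := by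
    rw [← vecMulVec_eq, Pm, smul_vecMulVec]
    have : l * (l⁻¹ - 1) = 1 - l := by field_simp
    rw [smul_add, smul_smul, this]
    module
  rw [e, det_smul, det_one_add_replicateCol_mul_replicateRow, dotProduct_smul, hx]
  simp
  field_simp

lemma det_ten (l : ℂ) (hl : l ≠ 0) (M : M3) :
    (vecMulVec x x + ten t x l 0 M).det = l ^ 2 * (l • (1 : M3) + M * Gm (nuf t x)).det := by
  have h0 : vecMulVec x x * Em t x = 0 := by
    have := congrArg transpose (mul_vecMulVec (Em t x)ᵀ x x)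
    rw [transpose_mul, transpose_transpose, transpose_vecMulVec, EmT_x hx] at this
    rw [this]; simp
  have e : vecMulVec x x + ten t x l 0 M =
      (vecMulVec x x + l • Pm x) * (1 + Em t x * (l⁻¹ • (M * (Em t x)ᵀ))) := by
    rw [Matrix.mul_add, Matrix.mul_one, ← Matrix.mul_assoc, Matrix.add_mul, h0, Matrix.smul_mul,
      Pm_Em hx, zero_add, Matrix.smul_mul, Matrix.mul_smul, smul_smul, mul_inv_cancel₀ hl, one_smul,
      ten, zero_smul, add_zero, Matrix.mul_assoc, add_assoc]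
  have e2 : l • (1 : M3) + M * Gm (nuf t x) = l • (1 + l⁻¹ • (M * (Em t x)ᵀ) * Em t x) := by
    rw [Matrix.smul_mul, Matrix.mul_assoc, EmT_Em hx, smul_add, smul_smul, mul_inv_cancel₀ hl,
      one_smul]
  rw [e, det_mul, det_xx_add hx l hl, det_one_add_mul_comm, e2, det_smul]
  simp only [Fintype.card_fin]
  ring

end sphere

end Pool.Agent.Work.MP_3fb46c_gt
end

-- merged part: Pool.Agent.Work.MP_3fb46c_gt.Eval
section
-- merged part: Pool.Agent.Work.MP_3fb46c_gt.Wiener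
section
/-!
Weighted Wiener algebras of power series in two variables with real coefficients.
-/

set_option autoImplicit false

open MvPowerSeries Finset

namespace Pool.Agent.Work.MP_3fb46c_gt

abbrev Idx := Fin 2 →₀ ℕ
abbrev PS := MvPowerSeries (Fin 2) ℝ

/-- The weight `(1 + |d|) ^ j`. -/
noncomputable def wt (j : ℕ) (d : Idx) : ℝ := (1 + (d 0 : ℝ) + (d 1 : ℝ)) ^ j

lemma wt_pos (j : ℕ) (d : Idx) : 0 < wt j d := by unfold wt; positivity

lemma one_le_wt (j : ℕ) (d : Idx) : 1 ≤ wt j d := by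
  unfold wt
  apply one_le_pow₀
  have : (0 : ℝ) ≤ d 0 := Nat.cast_nonneg _
  have : (0 : ℝ) ≤ d 1 := Nat.cast_nonneg _
  linarith

lemma wt_zero_idx (j : ℕ) : wt j 0 = 1 := by simp [wt]

lemma wt_add_le (j : ℕ) (a b : Idx) : wt j (a + b) ≤ wt j a * wt j b := by
  unfold wt
  rw [← mul_pow]
  have h0 : (0 : ℝ) ≤ a 0 := Nat.cast_nonneg _
  have h1 : (0 : ℝ) ≤ a 1 := Nat.cast_nonneg _
  have h2 : (0 : ℝ) ≤ b 0 := Nat.cast_nonneg _
  have h3 : (0 : ℝ) ≤ b 1 := Nat.cast_nonneg _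
  apply pow_le_pow_left₀ (by positivity)
  simp only [Finsupp.coe_add, Pi.add_apply, Nat.cast_add]
  nlinarith [mul_nonneg (add_nonneg h0 h1) (add_nonneg h2 h3)]

/-- The weighted absolute values of the coefficients. -/
noncomputable def ac (j : ℕ) (f : PS) (d : Idx) : ℝ := wt j d * |coeff d f|

lemma ac_nonneg (j : ℕ) (f : PS) (d : Idx) : 0 ≤ ac j f d :=
  mul_nonneg (wt_pos j d).le (abs_nonneg _)

lemma ac_mul_le (j : ℕ) (f g : PS) (d : Idx) :
    ac j (f * g) d ≤ ∑ p ∈ antidiagonal d, ac j f p.1 * ac j g p.2 := by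
  classical
  unfold ac
  rw [coeff_mul]
  calc wt j d * |∑ p ∈ antidiagonal d, coeff p.1 f * coeff p.2 g|
      ≤ wt j d * ∑ p ∈ antidiagonal d, |coeff p.1 f * coeff p.2 g| :=
        mul_le_mul_of_nonneg_left (abs_sum_le_sum_abs _ _) (wt_pos j d).le
    _ = ∑ p ∈ antidiagonal d, wt j d * |coeff p.1 f * coeff p.2 g| := by rw [mul_sum]
    _ ≤ _ := by
        apply sum_le_sum
        intro p hp
        rw [HasAntidiagonal.mem_antidiagonal] at hp
        rw [← hp, abs_mul]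
        calc wt j (p.1 + p.2) * (|coeff p.1 f| * |coeff p.2 g|)
            ≤ (wt j p.1 * wt j p.2) * (|coeff p.1 f| * |coeff p.2 g|) :=
              mul_le_mul_of_nonneg_right (wt_add_le j _ _) (by positivity)
          _ = _ := by ring

lemma ac_add_le (j : ℕ) (f g : PS) (d : Idx) : ac j (f + g) d ≤ ac j f d + ac j g d := by
  unfold ac
  rw [map_add, ← mul_add]
  exact mul_le_mul_of_nonneg_left (abs_add_le _ _) (wt_pos j d).le

lemma ac_smul (j : ℕ) (c : ℝ) (f : PS) (d : Idx) : ac j (c • f) d = |c| * ac j f d := by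
  unfold ac
  rw [map_smul, smul_eq_mul, abs_mul]; ring

lemma summable_conv {j : ℕ} {f g : PS} (hf : Summable (ac j f)) (hg : Summable (ac j g)) :
    Summable fun d : Idx => ∑ p ∈ antidiagonal d, ac j f p.1 * ac j g p.2 :=
  summable_sum_mul_antidiagonal_of_summable_mul
    (hf.mul_of_nonneg hg (ac_nonneg j f) (ac_nonneg j g))

lemma summable_ac_monomial (j : ℕ) (e : Idx) (c : ℝ) : Summable (ac j (monomial e c)) := by
  classical
  apply summable_of_ne_finset_zero (s := {e})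
  intro d hd
  rw [mem_singleton] at hd
  simp [ac, coeff_monomial, hd]

/-- The weighted Wiener algebra as a subalgebra of the power series. -/
noncomputable def waSub (j : ℕ) : Subalgebra ℝ PS where
  carrier := {f | Summable (ac j f)}
  mul_mem' := fun {f g} hf hg =>
    Summable.of_nonneg_of_le (ac_nonneg j _) (ac_mul_le j f g) (summable_conv hf hg)
  add_mem' := fun {f g} hf hg =>
    Summable.of_nonneg_of_le (ac_nonneg j _) (ac_add_le j f g) (Summable.add hf hg)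
  algebraMap_mem' := fun c => by
    have : (algebraMap ℝ PS c) = monomial 0 c := by
      rw [MvPowerSeries.algebraMap_apply]; simp
    change Summable (ac j (algebraMap ℝ PS c))
    rw [this]
    exact summable_ac_monomial j 0 c

lemma mem_waSub {j : ℕ} {f : PS} : f ∈ waSub j ↔ Summable (ac j f) := Iff.rfl

/-- The weighted Wiener algebra as a type. -/
def WA (j : ℕ) : Type := waSub j

noncomputable instance (j : ℕ) : CommRing (WA j) := inferInstanceAs (CommRing (waSub j))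
noncomputable instance (j : ℕ) : Algebra ℝ (WA j) := inferInstanceAs (Algebra ℝ (waSub j))

namespace WA

variable {j : ℕ}

/-- The underlying power series, as an algebra map. -/
noncomputable def val (j : ℕ) : WA j →ₐ[ℝ] PS := (waSub j).val

lemma val_injective : Function.Injective (val j) := Subtype.val_injective

lemma summable (f : WA j) : Summable (ac j (val j f)) := f.2

/-- Build an element from a series with summable weighted coefficients. -/
def mk (f : PS) (h : Summable (ac j f)) : WA j := ⟨f, h⟩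

@[simp] lemma val_mk (f : PS) (h : Summable (ac j f)) : val j (mk f h) = f := rfl

lemma ext' {f g : WA j} (h : val j f = val j g) : f = g := val_injective h

noncomputable def toLp (j : ℕ) : WA j →ₗ[ℝ] lp (fun _ : Idx => ℝ) 1 where
  toFun f := ⟨fun d => wt j d * coeff d (val j f), by
    apply memℓp_gen
    have := f.summable
    refine this.congr fun d => ?_
    simp [ac, abs_of_pos (wt_pos j d)]⟩
  map_add' f g := by
    ext d
    simp only [map_add, mul_add, lp.coeFn_add, Pi.add_apply]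
  map_smul' c f := by
    ext d
    simp
    ring

lemma toLp_apply (f : WA j) (d : Idx) : toLp j f d = wt j d * coeff d (val j f) := rfl

lemma toLp_injective : Function.Injective (toLp j) := by
  intro f g h
  apply ext'
  ext d
  have := congrArg (fun u : lp (fun _ : Idx => ℝ) 1 => u d) h
  simp only [toLp_apply] at this
  exact mul_left_cancel₀ (wt_pos j d).ne' this

lemma toLp_surjective : Function.Surjective (toLp j) := by
  intro u
  have hu : Summable fun d => ‖u d‖ := by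
    have := (lp.memℓp u).summable (by simp)
    simpa using this
  refine ⟨mk (fun d => u d / wt j d) ?_, ?_⟩
  · refine hu.congr fun d => ?_
    have := wt_pos j d
    change ‖u d‖ = wt j d * |u d / wt j d|
    rw [abs_div, abs_of_pos this, Real.norm_eq_abs]
    field_simp
  · ext d
    have := wt_pos j d
    change wt j d * (u d / wt j d) = u d
    field_simp

noncomputable instance : NormedAddCommGroup (WA j) :=
  NormedAddCommGroup.induced (WA j) _ (toLp j) toLp_injective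

lemma norm_eq_toLp (f : WA j) : ‖f‖ = ‖toLp j f‖ := rfl

lemma norm_eq (f : WA j) : ‖f‖ = ∑' d, ac j (val j f) d := by
  rw [norm_eq_toLp, lp.norm_eq_tsum_rpow (by simp)]
  simp [toLp_apply, ac, abs_of_pos (wt_pos j _)]

lemma norm_mul_le' (f g : WA j) : ‖f * g‖ ≤ ‖f‖ * ‖g‖ := by
  rw [norm_eq, norm_eq, norm_eq, map_mul,
    f.summable.tsum_mul_tsum_eq_tsum_sum_antidiagonal g.summable
      (f.summable.mul_of_nonneg g.summable (ac_nonneg j _) (ac_nonneg j _))]
  refine Summable.tsum_le_tsum (ac_mul_le j _ _) ?_ (summable_conv f.summable g.summable)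
  rw [← map_mul]
  exact (f * g).summable

noncomputable instance : NormedCommRing (WA j) :=
  { (inferInstance : NormedAddCommGroup (WA j)), (inferInstance : CommRing (WA j)) with
    norm_mul_le := norm_mul_le' }

noncomputable instance : NormedAlgebra ℝ (WA j) where
  norm_smul_le c f := by
    rw [norm_eq_toLp, map_smul, norm_eq_toLp]
    exact norm_smul_le _ _

noncomputable def toLpEquiv (j : ℕ) : WA j ≃ₗᵢ[ℝ] lp (fun _ : Idx => ℝ) 1 where
  toLinearEquiv := LinearEquiv.ofBijective (toLp j) ⟨toLp_injective, toLp_surjective⟩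
  norm_map' _ := rfl

instance : CompleteSpace (WA j) := (toLpEquiv j).toIsometryEquiv.completeSpace

lemma ac_le_norm (f : WA j) (d : Idx) : ac j (val j f) d ≤ ‖f‖ := by
  rw [norm_eq]
  exact f.summable.le_tsum d fun _ _ => ac_nonneg _ _ _

/-- A linear map on power series that is dominated after an injective re-indexing gives a
continuous linear map between weighted Wiener algebras. -/
noncomputable def mkCLM (i j : ℕ) (L : PS →ₗ[ℝ] PS) (e : Idx → Idx) (he : Function.Injective e)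
    (C : ℝ) (hC : 0 ≤ C) (h : ∀ f d, ac j (L f) d ≤ C * ac i f (e d)) : WA i →L[ℝ] WA j :=
  LinearMap.mkContinuous
    { toFun := fun f => mk (L (val i f))
        (Summable.of_nonneg_of_le (ac_nonneg j _) (h _)
          ((f.summable.comp_injective he).mul_left C))
      map_add' := fun f g => ext' (by simp)
      map_smul' := fun c f => ext' (by simp) } C (fun f => by
        rw [norm_eq, norm_eq]
        have hs : Summable fun d => ac i (val i f) (e d) := f.summable.comp_injective he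
        calc ∑' d, ac j (L (val i f)) d ≤ ∑' d, C * ac i (val i f) (e d) :=
              Summable.tsum_le_tsum (h _)
                (Summable.of_nonneg_of_le (ac_nonneg j _) (h _) (hs.mul_left C)) (hs.mul_left C)
          _ = C * ∑' d, ac i (val i f) (e d) := tsum_mul_left
          _ ≤ C * ∑' d, ac i (val i f) d := by
              apply mul_le_mul_of_nonneg_left _ hC
              exact Summable.tsum_le_tsum_of_inj e he (fun c _ => ac_nonneg _ _ _)
                (fun _ => le_rfl) hs f.summable)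

@[simp] lemma val_mkCLM (i j : ℕ) (L : PS →ₗ[ℝ] PS) (e : Idx → Idx) (he : Function.Injective e)
    (C : ℝ) (hC : 0 ≤ C) (h : ∀ f d, ac j (L f) d ≤ C * ac i f (e d)) (f : WA i) :
    val j (mkCLM i j L e he C hC h f) = L (val i f) := rfl

lemma wt_le_succ (j : ℕ) (d : Idx) : wt j d ≤ wt (j + 1) d := by
  have h1 := one_le_wt 1 d
  have h2 := wt_pos j d
  have : wt (j + 1) d = wt j d * wt 1 d := by simp [wt, pow_succ]
  rw [this]
  nlinarith

/-- The inclusion as a continuous linear map. -/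
noncomputable def inc (j : ℕ) : WA (j + 1) →L[ℝ] WA j :=
  mkCLM (j + 1) j LinearMap.id id Function.injective_id 1 zero_le_one (fun f d => by
    simp only [ac, LinearMap.id_coe, id_eq, one_mul]
    exact mul_le_mul_of_nonneg_right (wt_le_succ j d) (abs_nonneg _))

@[simp] lemma val_inc (f : WA (j + 1)) : val j (inc j f) = val (j + 1) f := by
  unfold inc
  rw [val_mkCLM, LinearMap.id_apply]

/-- The partial derivatives as continuous linear maps. -/
noncomputable def der (j : ℕ) (i : Fin 2) : WA (j + 1) →L[ℝ] WA j :=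
  mkCLM (j + 1) j (pderiv ℝ i : Derivation ℝ PS PS).toLinearMap (fun d => d + Finsupp.single i 1)
    (add_left_injective _) 1 zero_le_one (fun f d => by
      simp only [ac, Derivation.coeFn_coe, coeff_pderiv, one_mul, abs_mul]
      have h0 : (0 : ℝ) ≤ d 0 := Nat.cast_nonneg _
      have h1 : (0 : ℝ) ≤ d 1 := Nat.cast_nonneg _
      have key : wt j d * |(d i : ℝ) + 1| ≤ wt (j + 1) (d + Finsupp.single i 1) := by
        rw [abs_of_nonneg (by positivity)]
        unfold wt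
        rw [pow_succ]
        have e : (1 + (((d + Finsupp.single i 1 : Idx) 0 : ℕ) : ℝ)
            + (((d + Finsupp.single i 1 : Idx) 1 : ℕ) : ℝ)) = 2 + d 0 + d 1 := by
          fin_cases i <;> simp <;> ring
        rw [e]
        apply mul_le_mul
        · exact pow_le_pow_left₀ (by positivity) (by linarith) _
        · fin_cases i <;> simp <;> linarith
        · positivity
        · positivity
      calc wt j d * (|coeff (d + Finsupp.single i 1) f| * |(d i : ℝ) + 1|)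
          = (wt j d * |(d i : ℝ) + 1|) * |coeff (d + Finsupp.single i 1) f| := by ring
        _ ≤ _ := mul_le_mul_of_nonneg_right key (abs_nonneg _))

@[simp] lemma val_der (i : Fin 2) (f : WA (j + 1)) :
    val j (der j i f) = pderiv ℝ i (val (j + 1) f) := rfl

/-- Exchange of the two exponents. -/
noncomputable def swapIdx (d : Idx) : Idx := Finsupp.equivMapDomain (Equiv.swap 0 1) d

@[simp] lemma swapIdx_zero (d : Idx) : swapIdx d 0 = d 1 := by simp [swapIdx]
@[simp] lemma swapIdx_one (d : Idx) : swapIdx d 1 = d 0 := by simp [swapIdx]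

lemma swapIdx_swapIdx (d : Idx) : swapIdx (swapIdx d) = d := by
  ext i; fin_cases i <;> simp

noncomputable def swapEquiv : Idx ≃ Idx :=
  ⟨swapIdx, swapIdx, swapIdx_swapIdx, swapIdx_swapIdx⟩

/-- Exchange of the two variables on power series. -/
noncomputable def swapPS : PS →ₗ[ℝ] PS where
  toFun f := fun d => coeff (swapIdx d) f
  map_add' _ _ := rfl
  map_smul' _ _ := rfl

lemma coeff_swapPS (f : PS) (d : Idx) : coeff d (swapPS f) = coeff (swapIdx d) f := rfl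

/-- Exchange of the two variables. -/
noncomputable def sw (j : ℕ) : WA j →L[ℝ] WA j :=
  mkCLM j j swapPS swapIdx swapEquiv.injective 1 zero_le_one (fun f d => by
    simp only [ac, coeff_swapPS, one_mul, wt, swapIdx_zero, swapIdx_one]
    rw [add_right_comm])

@[simp] lemma val_sw (f : WA j) : val j (sw j f) = swapPS (val j f) := rfl

/-- The coordinate functions. -/
noncomputable def xv (j : ℕ) (i : Fin 2) : WA j :=
  mk (X i) (summable_ac_monomial j _ 1)

@[simp] lemma val_xv (i : Fin 2) : val j (xv j i) = X i := rfl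

/-- The constant coefficient as a continuous linear form. -/
noncomputable def cc (j : ℕ) : WA j →L[ℝ] ℝ :=
  LinearMap.mkContinuous ((coeff (0 : Idx)).comp (val j).toLinearMap) 1 (fun f => by
    have := ac_le_norm f 0
    simpa [ac, wt_zero_idx] using this)

lemma cc_apply (f : WA j) : cc j f = coeff (0 : Idx) (val j f) := rfl

/-- The inclusion as a ring map. -/
noncomputable def incR (j : ℕ) : WA (j + 1) →+* WA j where
  toFun := inc j
  map_one' := ext' (by rw [val_inc, map_one, map_one])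
  map_mul' _ _ := ext' (by rw [val_inc, map_mul, map_mul, val_inc, val_inc])
  map_zero' := map_zero _
  map_add' := map_add _

lemma incR_apply (f : WA (j + 1)) : incR j f = inc j f := rfl

end WA

end Pool.Agent.Work.MP_3fb46c_gt
end

-- merged part: Pool.Agent.Work.MP_3fb46c_gt.Eval
section
/-!
Evaluation of elements of the weighted Wiener algebras on the bidisc.
-/

set_option autoImplicit false

open MvPowerSeries Metric

namespace Pool.Agent.Work.MP_3fb46c_gt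

/-- The monomial with exponent `d`. -/
noncomputable def mono (d : Idx) (p : ℂ × ℂ) : ℂ := p.1 ^ d 0 * p.2 ^ d 1

/-- The sum of a power series at a point of `ℂ × ℂ`. -/
noncomputable def evS (f : PS) (p : ℂ × ℂ) : ℂ := ∑' d : Idx, ((coeff d f : ℝ) : ℂ) * mono d p

lemma mono_add (a b : Idx) (p : ℂ × ℂ) : mono (a + b) p = mono a p * mono b p := by
  simp only [mono, Finsupp.coe_add, Pi.add_apply, pow_add]; ring

lemma norm_mono_le {p : ℂ × ℂ} (hp : ‖p‖ ≤ 1) (d : Idx) : ‖mono d p‖ ≤ 1 := by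
  have h1 : ‖p.1‖ ≤ 1 := (norm_fst_le p).trans hp
  have h2 : ‖p.2‖ ≤ 1 := (norm_snd_le p).trans hp
  rw [mono, norm_mul, norm_pow, norm_pow]
  exact mul_le_one₀ (pow_le_one₀ (norm_nonneg _) h1) (by positivity)
    (pow_le_one₀ (norm_nonneg _) h2)

lemma norm_term_le (j : ℕ) (f : PS) {p : ℂ × ℂ} (hp : ‖p‖ ≤ 1) (d : Idx) :
    ‖((coeff d f : ℝ) : ℂ) * mono d p‖ ≤ ac j f d := by
  rw [norm_mul, Complex.norm_real, Real.norm_eq_abs, ac]
  have h1 := norm_mono_le hp d
  have h2 := one_le_wt j d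
  have h3 := abs_nonneg (coeff d f)
  have h4 := norm_nonneg (mono d p)
  nlinarith

lemma summable_norm_term {j : ℕ} {f : PS} (hf : Summable (ac j f)) {p : ℂ × ℂ} (hp : ‖p‖ ≤ 1) :
    Summable fun d : Idx => ‖((coeff d f : ℝ) : ℂ) * mono d p‖ :=
  Summable.of_nonneg_of_le (fun _ => norm_nonneg _) (norm_term_le j f hp) hf

lemma summable_term {j : ℕ} {f : PS} (hf : Summable (ac j f)) {p : ℂ × ℂ} (hp : ‖p‖ ≤ 1) :
    Summable fun d : Idx => ((coeff d f : ℝ) : ℂ) * mono d p :=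
  (summable_norm_term hf hp).of_norm

lemma evS_monomial (e : Idx) (c : ℝ) (p : ℂ × ℂ) : evS (monomial e c) p = c * mono e p := by
  classical
  unfold evS
  rw [tsum_eq_single e]
  · simp
  · intro d hd
    simp [coeff_monomial, hd]

lemma evS_add {j : ℕ} {f g : PS} (hf : Summable (ac j f)) (hg : Summable (ac j g)) {p : ℂ × ℂ}
    (hp : ‖p‖ ≤ 1) : evS (f + g) p = evS f p + evS g p := by
  unfold evS
  rw [← (summable_term hf hp).tsum_add (summable_term hg hp)]
  congr 1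
  ext d
  simp [add_mul]

lemma evS_mul {j : ℕ} {f g : PS} (hf : Summable (ac j f)) (hg : Summable (ac j g)) {p : ℂ × ℂ}
    (hp : ‖p‖ ≤ 1) : evS (f * g) p = evS f p * evS g p := by
  classical
  unfold evS
  have h := summable_mul_of_summable_norm
    (f := fun d : Idx => ((coeff d f : ℝ) : ℂ) * mono d p)
    (g := fun d : Idx => ((coeff d g : ℝ) : ℂ) * mono d p)
    (summable_norm_term hf hp) (summable_norm_term hg hp)
  rw [(summable_term hf hp).tsum_mul_tsum_eq_tsum_sum_antidiagonal (summable_term hg hp) h]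
  congr 1
  ext d
  rw [coeff_mul]
  push_cast
  rw [Finset.sum_mul]
  apply Finset.sum_congr rfl
  intro q hq
  rw [Finset.HasAntidiagonal.mem_antidiagonal] at hq
  rw [← hq, mono_add]
  ring

/-- Evaluation at a point of the closed bidisc as a ring map. -/
noncomputable def evR (j : ℕ) (p : ℂ × ℂ) (hp : ‖p‖ ≤ 1) : WA j →+* ℂ where
  toFun f := evS (WA.val j f) p
  map_one' := by
    rw [map_one]
    have : (1 : PS) = monomial 0 1 := by simp
    rw [this, evS_monomial]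
    simp [mono]
  map_mul' f g := by rw [map_mul]; exact evS_mul f.summable g.summable hp
  map_zero' := by simp [evS]
  map_add' f g := by rw [map_add]; exact evS_add f.summable g.summable hp

lemma evR_apply (j : ℕ) (p : ℂ × ℂ) (hp : ‖p‖ ≤ 1) (f : WA j) :
    evR j p hp f = evS (WA.val j f) p := rfl

lemma norm_evS_le {j : ℕ} (f : WA j) {p : ℂ × ℂ} (hp : ‖p‖ ≤ 1) :
    ‖evS (WA.val j f) p‖ ≤ ‖f‖ := by
  rw [WA.norm_eq]
  exact tsum_of_norm_bounded f.summable.hasSum (norm_term_le j _ hp)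

lemma evS_X0 (p : ℂ × ℂ) : evS (X 0) p = p.1 := by
  have : (X 0 : PS) = monomial (Finsupp.single 0 1) 1 := rfl
  rw [this, evS_monomial]; simp [mono]

lemma evS_X1 (p : ℂ × ℂ) : evS (X 1) p = p.2 := by
  have : (X 1 : PS) = monomial (Finsupp.single 1 1) 1 := rfl
  rw [this, evS_monomial]; simp [mono]

lemma evS_algebraMap (c : ℝ) (p : ℂ × ℂ) : evS (algebraMap ℝ PS c) p = c := by
  have : (algebraMap ℝ PS c) = monomial 0 c := by
    rw [MvPowerSeries.algebraMap_apply]; simp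
  rw [this, evS_monomial]; simp [mono]

lemma evS_at_zero (f : PS) : evS f 0 = ((coeff (0 : Idx) f : ℝ) : ℂ) := by
  unfold evS
  rw [tsum_eq_single 0]
  · simp [mono]
  · intro d hd
    have : d 0 ≠ 0 ∨ d 1 ≠ 0 := by
      by_contra h
      push Not at h
      apply hd
      ext i
      fin_cases i
      · simpa using h.1
      · simpa using h.2
    rcases this with h | h <;> simp [mono, h]

lemma evS_swap (f : PS) (z : ℂ) :
    evS (WA.swapPS f) (z, (starRingEnd ℂ) z) = (starRingEnd ℂ) (evS f (z, (starRingEnd ℂ) z)) := by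
  unfold evS
  rw [Complex.conj_tsum, ← WA.swapEquiv.tsum_eq]
  congr 1
  ext d
  change ((coeff (WA.swapIdx d) (WA.swapPS f) : ℝ) : ℂ) * mono (WA.swapIdx d) _ = _
  rw [WA.coeff_swapPS, WA.swapIdx_swapIdx]
  simp [mono, mul_comm]

/-- The derivative of a monomial. -/
noncomputable def dmono (d : Idx) (p : ℂ × ℂ) : ℂ × ℂ →L[ℂ] ℂ :=
  ((d 0 : ℂ) * p.1 ^ (d 0 - 1) * p.2 ^ d 1) • ContinuousLinearMap.fst ℂ ℂ ℂ +
    ((d 1 : ℂ) * p.1 ^ d 0 * p.2 ^ (d 1 - 1)) • ContinuousLinearMap.snd ℂ ℂ ℂ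

lemma hasFDerivAt_mono (d : Idx) (p : ℂ × ℂ) : HasFDerivAt (mono d) (dmono d p) p := by
  have h1 := (hasFDerivAt_fst (𝕜 := ℂ) (p := p)).pow (d 0)
  have h2 := (hasFDerivAt_snd (𝕜 := ℂ) (p := p)).pow (d 1)
  refine (h1.mul h2).congr_fderiv ?_
  ext <;> simp [dmono] <;> ring

lemma norm_dmono_le {p : ℂ × ℂ} (hp : ‖p‖ ≤ 1) (d : Idx) : ‖dmono d p‖ ≤ wt 1 d := by
  have h1 : ‖p.1‖ ≤ 1 := (norm_fst_le p).trans hp
  have h2 : ‖p.2‖ ≤ 1 := (norm_snd_le p).trans hp
  have b : ∀ (n a b : ℕ), ‖(n : ℂ) * p.1 ^ a * p.2 ^ b‖ ≤ n := by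
    intro n a b
    rw [norm_mul, norm_mul, norm_pow, norm_pow, Complex.norm_natCast, mul_assoc]
    exact mul_le_of_le_one_right (Nat.cast_nonneg _)
      (mul_le_one₀ (pow_le_one₀ (norm_nonneg _) h1) (by positivity)
        (pow_le_one₀ (norm_nonneg _) h2))
  unfold dmono
  refine (norm_add_le _ _).trans ?_
  rw [norm_smul, norm_smul]
  have f1 : ‖ContinuousLinearMap.fst ℂ ℂ ℂ‖ ≤ 1 := ContinuousLinearMap.norm_fst_le ..
  have f2 : ‖ContinuousLinearMap.snd ℂ ℂ ℂ‖ ≤ 1 := ContinuousLinearMap.norm_snd_le ..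
  have e1 := mul_le_mul (b (d 0) (d 0 - 1) (d 1)) f1 (norm_nonneg _) (Nat.cast_nonneg _)
  have e2 := mul_le_mul (b (d 1) (d 0) (d 1 - 1)) f2 (norm_nonneg _) (Nat.cast_nonneg _)
  simp only [wt, pow_one]
  linarith

lemma summable_ac_pderiv {j : ℕ} {f : PS} (hf : Summable (ac (j + 1) f)) (i : Fin 2) :
    Summable (ac j (pderiv ℝ i f)) :=
  (WA.der j i (WA.mk f hf)).summable

lemma tsum_shift (f : PS) (i : Fin 2) (g : Idx → ℂ) (p : ℂ × ℂ)
    (h0 : ∀ d : Idx, d i = 0 → g d = 0)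
    (h1 : ∀ d : Idx, g (d + Finsupp.single i 1) = ((d i : ℂ) + 1) * mono d p) :
    ∑' d : Idx, ((coeff d f : ℝ) : ℂ) * g d = evS (pderiv ℝ i f) p := by
  unfold evS
  have hinj : Function.Injective fun d : Idx => d + Finsupp.single i 1 := add_left_injective _
  rw [← hinj.tsum_eq]
  · congr 1
    ext d
    rw [h1, coeff_pderiv]
    push_cast
    ring
  · intro d hd
    have hne : d i ≠ 0 := by
      intro h
      apply hd
      simp [h0 d h]
    refine ⟨d - Finsupp.single i 1, ?_⟩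
    apply tsub_add_cancel_of_le
    rw [Finsupp.single_le_iff]
    omega

lemma hasFDerivAt_evS {f : PS} (hf : Summable (ac 1 f)) {p : ℂ × ℂ} (hp : ‖p‖ < 1) :
    HasFDerivAt (evS f)
      (evS (pderiv ℝ 0 f) p • ContinuousLinearMap.fst ℂ ℂ ℂ +
        evS (pderiv ℝ 1 f) p • ContinuousLinearMap.snd ℂ ℂ ℂ) p := by
  have hb : ∀ (d : Idx) (x : ℂ × ℂ), x ∈ ball (0 : ℂ × ℂ) 1 →
      ‖((coeff d f : ℝ) : ℂ) • dmono d x‖ ≤ ac 1 f d := by
    intro d x hx
    rw [mem_ball_zero_iff] at hx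
    rw [norm_smul, Complex.norm_real, Real.norm_eq_abs, ac, mul_comm]
    exact mul_le_mul_of_nonneg_right (norm_dmono_le hx.le d) (abs_nonneg _)
  have hp' : p ∈ ball (0 : ℂ × ℂ) 1 := mem_ball_zero_iff.2 hp
  have key := hasFDerivAt_tsum_of_isPreconnected (𝕜 := ℂ)
    (f := fun (d : Idx) (x : ℂ × ℂ) => ((coeff d f : ℝ) : ℂ) * mono d x)
    (f' := fun d x => ((coeff d f : ℝ) : ℂ) • dmono d x) hf isOpen_ball
    (convex_ball (0 : ℂ × ℂ) 1).isPreconnected
    (fun d x _ => (hasFDerivAt_mono d x).const_mul _) hb hp' (summable_term hf hp.le) hp'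
  refine key.congr_fderiv ?_
  have hs : Summable fun d : Idx => ((coeff d f : ℝ) : ℂ) • dmono d p :=
    Summable.of_norm_bounded hf fun d => hb d p hp'
  have e : ∀ v : ℂ × ℂ, (∑' d : Idx, ((coeff d f : ℝ) : ℂ) • dmono d p) v =
      ∑' d : Idx, ((coeff d f : ℝ) : ℂ) * dmono d p v := by
    intro v
    have := (ContinuousLinearMap.apply ℂ ℂ v).map_tsum hs
    simpa using this
  ext
  · simp only [ContinuousLinearMap.coe_comp, Function.comp_apply, ContinuousLinearMap.inl_apply, e]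
    rw [tsum_shift f 0 _ p]
    · simp
    · intro d hd; simp [dmono, hd]
    · intro d; simp [dmono, mono, mul_assoc]
  · simp only [ContinuousLinearMap.coe_comp, Function.comp_apply, ContinuousLinearMap.inr_apply, e]
    rw [tsum_shift f 1 _ p]
    · simp
    · intro d hd; simp [dmono, hd]
    · intro d; simp [dmono, mono, mul_assoc]

lemma contDiffOn_evS_of_all (n : ℕ) : ∀ {f : PS}, (∀ j, Summable (ac j f)) →
    ContDiffOn ℂ n (evS f) (ball 0 1) := by
  induction n with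
  | zero =>
    intro f hf
    rw [Nat.cast_zero, contDiffOn_zero]
    intro p hp
    exact (hasFDerivAt_evS (hf 1) (mem_ball_zero_iff.1 hp)).continuousAt.continuousWithinAt
  | succ n ih =>
    intro f hf
    rw [Nat.cast_succ, contDiffOn_succ_iff_hasFDerivWithinAt_of_uniqueDiffOn isOpen_ball.uniqueDiffOn]
    refine ⟨by simp, fun p => evS (pderiv ℝ 0 f) p • ContinuousLinearMap.fst ℂ ℂ ℂ +
        evS (pderiv ℝ 1 f) p • ContinuousLinearMap.snd ℂ ℂ ℂ, ?_, fun p hp =>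
          (hasFDerivAt_evS (hf 1) (mem_ball_zero_iff.1 hp)).hasFDerivWithinAt⟩
    exact ((ih fun j => summable_ac_pderiv (hf (j + 1)) 0).smul contDiffOn_const).add
      ((ih fun j => summable_ac_pderiv (hf (j + 1)) 1).smul contDiffOn_const)

/-- The series with both variables halved. -/
noncomputable def half (f : PS) : PS := fun d => (1 / 2 : ℝ) ^ (d 0 + d 1) * coeff d f

lemma coeff_half (f : PS) (d : Idx) : coeff d (half f) = (1 / 2 : ℝ) ^ (d 0 + d 1) * coeff d f := rfl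

lemma evS_half (f : PS) (p : ℂ × ℂ) : evS f p = evS (half f) ((2 : ℂ) • p) := by
  unfold evS
  congr 1
  ext d
  rw [coeff_half]
  simp only [mono, Prod.smul_fst, Prod.smul_snd, smul_eq_mul, mul_pow, pow_add]
  push_cast
  have h2 : ∀ n : ℕ, (1 / 2 : ℂ) ^ n * 2 ^ n = 1 := by
    intro n; rw [← mul_pow]; norm_num
  linear_combination (-((coeff d f : ℝ) : ℂ) * p.1 ^ d 0 * p.2 ^ d 1) * (h2 (d 0)) -
    ((coeff d f : ℝ) : ℂ) * p.1 ^ d 0 * p.2 ^ d 1 * ((1 / 2 : ℂ) ^ d 0 * 2 ^ d 0) * (h2 (d 1))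

lemma exists_bound_half (j : ℕ) : ∃ C : ℝ, ∀ n : ℕ, (1 + (n : ℝ)) ^ j * (1 / 2 : ℝ) ^ n ≤ C := by
  have h := (summable_pow_mul_geometric_of_norm_lt_one (R := ℝ) j (r := 1 / 2)
    (by norm_num)).tendsto_atTop_zero
  obtain ⟨C, hC⟩ := h.bddAbove_range
  refine ⟨2 * C, fun n => ?_⟩
  have := hC ⟨n + 1, rfl⟩
  simp only [Nat.cast_add, Nat.cast_one, pow_succ] at this
  rw [add_comm]
  linarith

lemma summable_ac_half {f : PS} (hf : Summable (ac 0 f)) (j : ℕ) : Summable (ac j (half f)) := by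
  obtain ⟨C, hC⟩ := exists_bound_half j
  refine Summable.of_nonneg_of_le (ac_nonneg _ _) (fun d => ?_) (hf.mul_left C)
  have := hC (d 0 + d 1)
  simp only [ac, coeff_half, wt, pow_zero, one_mul, abs_mul]
  rw [abs_of_nonneg (by positivity), ← mul_assoc]
  apply mul_le_mul_of_nonneg_right _ (abs_nonneg _)
  push_cast at this
  rwa [add_assoc]

lemma summable_ac_zero {j : ℕ} {f : PS} (hf : Summable (ac j f)) : Summable (ac 0 f) := by
  refine Summable.of_nonneg_of_le (ac_nonneg _ _) (fun d => ?_) hf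
  unfold ac
  apply mul_le_mul_of_nonneg_right _ (abs_nonneg _)
  simpa [wt] using one_le_wt j d

lemma contDiffAt_evS {j : ℕ} {f : PS} (hf : Summable (ac j f)) {p : ℂ × ℂ} (hp : ‖p‖ < 1 / 2) :
    ContDiffAt ℂ ((⊤ : ℕ∞) : WithTop ℕ∞) (evS f) p := by
  have h1 : ContDiffOn ℂ ((⊤ : ℕ∞) : WithTop ℕ∞) (evS (half f)) (ball 0 1) :=
    contDiffOn_infty.2 fun n =>
      contDiffOn_evS_of_all n (summable_ac_half (summable_ac_zero hf))
  have h2 : (2 : ℂ) • p ∈ ball (0 : ℂ × ℂ) 1 := by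
    rw [mem_ball_zero_iff, norm_smul]
    simp only [Complex.norm_ofNat]
    linarith
  have h3 : evS f = evS (half f) ∘ fun q => (2 : ℂ) • q := funext fun q => evS_half f q
  rw [h3]
  exact (h1.contDiffAt (isOpen_ball.mem_nhds h2)).comp p (contDiffAt_id.const_smul _)

end Pool.Agent.Work.MP_3fb46c_gt
end
end
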