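import Pool.Agent.Work.MP_3fb46c_gt.Main

/-!
The critical fields that are not Hopf fields accumulate at the unit Hopf field.
-/

set_option autoImplicit false

open Matrix Complex MeasureTheory Metric Filter Topology

namespace Pool.Agent.Work.MP_3fb46c_gt

open WA

lemma near_solution {U : Set (ℝ × WA 2)} (hU : U ∈ 𝓝 ((0 : ℝ), (1 : WA 2))) :
    ∃ p ∈ U, p.1 ≠ 0 ∧ |p.1| < 1 / 8 ∧ 0 < cc 2 p.2 ∧ ‖yy p‖ < 1 ∧ FF p = 0 := by
  have hV : {p : ℝ × WA 2 | |p.1| < 1 / 8 ∧ 0 < cc 2 p.2 ∧ ‖yy p‖ < 1} ∈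
      𝓝 ((0 : ℝ), (1 : WA 2)) := by
    apply IsOpen.mem_nhds
    · exact (isOpen_lt (continuous_abs.comp continuous_fst) continuous_const).inter
        ((isOpen_lt continuous_const ((cc 2).continuous.comp continuous_snd)).inter
          (isOpen_lt (contDiff_yy (n := 0)).continuous.norm continuous_const))
    · simp [cc_one, yy_zero]
  obtain ⟨p, hp, h0, hF⟩ := exists_zero_of_bifurcation FF 1 TT TT_surj (contDiffAt_FF 1)
    (Eventually.of_forall fun ξ => (hj_FF ξ).1.trans (fst_eq_zero ξ)) psi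
    (Eventually.of_forall fun ξ => snd_eq_psi ξ ▸ (hj_FF ξ).2) psi_one hasFDerivAt_psi _
    (inter_mem hU hV)
  exact ⟨p, hp.1, h0, hp.2.1, hp.2.2.1, hp.2.2.2, hF⟩

/-- The unit Hopf field. -/
noncomputable def hop (x : E6) : E6 := !₂[-x 1, x 0, -x 3, x 2, -x 5, x 4]

lemma cx_hop (x : E6) : cx (hop x) = I • Tv (cx x) := by
  ext i
  fin_cases i <;> simp [hop, cx, Tv, jm, dotProduct, Fin.sum_univ_six, ← mul_assoc]

lemma near_hop {p : ℝ × WA 2} (ht : |p.1| < 1 / 8) (hρ : 0 < cc 2 p.2) (hy : ‖yy p‖ < 1)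
    {x : E6} (hx : ‖x‖ = 1) :
    ‖sig p x - hop x‖ ^ 2 ≤ (rr p - 1) ^ 2 + 2 * rr p * ‖om0 p - 1‖ := by
  have hx' := cx_dot_self hx
  have hq := (hp_sph ht hx).le
  have h1 := cx_dot (hop x) (hop x)
  rw [cx_hop, smul_dotProduct, dotProduct_smul, Tv_Tv hx', real_inner_self_eq_norm_sq] at h1
  have h2 : ‖hop x‖ ^ 2 = 1 := by
    have : ((‖hop x‖ ^ 2 : ℝ) : ℂ) = 1 := by
      rw [← h1]
      simp only [smul_eq_mul]
      linear_combination (-1 : ℂ) * I_mul_I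
    exact_mod_cast this
  have h3 := cx_dot (sig p x) (hop x)
  rw [cx_hop, cx_sig ht hy hx] at h3
  simp only [Wf, add_dotProduct, smul_dotProduct, dotProduct_smul, Tv_Tv hx', Zv_Tv hx',
    Zb_Tv hx', smul_eq_mul] at h3
  have h4 : ((inner ℝ (sig p x) (hop x) - rr p : ℝ) : ℂ) =
      rr p * evR 2 (pt p.1 x) hq (om0 p - 1) := by
    rw [map_sub, map_one]
    push_cast
    rw [← h3]
    change _ = (rr p : ℂ) * (ef 2 p.1 (om0 p) x - 1)
    linear_combination (-(rr p : ℂ) * ef 2 p.1 (om0 p) x) * I_mul_I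
  have h5 : |inner ℝ (sig p x) (hop x) - rr p| ≤ rr p * ‖om0 p - 1‖ := by
    have := congrArg norm h4
    rw [norm_real, norm_mul, norm_real, Real.norm_eq_abs, Real.norm_of_nonneg (rr_pos hρ).le]
      at this
    rw [this]
    exact mul_le_mul_of_nonneg_left (norm_evS_le (om0 p - 1) hq) (rr_pos hρ).le
  rw [norm_sub_sq_real, h2, (sig_props ht hρ hy hx).1]
  nlinarith [(abs_le.1 h5).1]

lemma critical_local {p : ℝ × WA 2} (ht : |p.1| < 1 / 8) (hρ : 0 < cc 2 p.2) (hy : ‖yy p‖ < 1)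
    (hF : FF p = 0) (Φ : ℝ → E6 → E6) (hΦ : ContDiff ℝ inf fun q : ℝ × E6 => Φ q.1 q.2)
    (h0 : ∀ x ∈ sphere (0 : E6) 1, Φ 0 x = sig p x)
    (h1 : ∀ᶠ t : ℝ in 𝓝 0, ∀ x ∈ sphere (0 : E6) 1, ‖Φ t x‖ = rr p ∧ inner ℝ x (Φ t x) = 0) :
    HasDerivAt (fun t : ℝ => ∫ x : sphere (0 : E6) 1, volInt (fderiv ℝ (Φ t) x) x
      ∂(volume : Measure E6).toSphere) 0 0 := by
  obtain ⟨δ, hδ, hb⟩ := Metric.eventually_nhds_iff.1 h1
  let s : ℝ → ℝ := fun t => δ / 2 * Real.sin t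
  have s0 : s 0 = 0 := by simp [s]
  have hs : ContDiff ℝ inf s := contDiff_const.mul Real.contDiff_sin
  have hs' : HasDerivAt s (δ / 2) 0 := by
    simpa using (Real.hasDerivAt_sin 0).const_mul (δ / 2)
  have h2 := critical ht hρ hy hF (fun t => Φ (s t))
    (hΦ.comp ((hs.comp contDiff_fst).prodMk contDiff_snd)) (by simpa only [s0] using h0)
    (fun t => hb (by
      rw [dist_zero_right, Real.norm_eq_abs, abs_mul, abs_of_pos (half_pos hδ)]
      nlinarith [Real.abs_sin_le_one t]))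
  have h3 := first_variation hΦ
  have h4 := (HasDerivAt.comp_of_eq (0 : ℝ) h3 hs' s0.symm).deriv
  rw [(mul_eq_zero.1 (h4.symm.trans h2)).resolve_right (half_pos hδ).ne'] at h3
  exact h3

theorem exists_nonHopf_near {ε : ℝ} (hε : 0 < ε) : ∃ (r : ℝ) (σ : E6 → E6), 0 < r ∧
    |r - 1| < ε ∧ ContDiff ℝ inf σ ∧
    (∀ x ∈ sphere (0 : E6) 1, ‖σ x‖ = r ∧ inner ℝ x (σ x) = 0 ∧ ‖σ x - hop x‖ < ε) ∧
    (∀ Φ : ℝ → E6 → E6, ContDiff ℝ inf (fun q : ℝ × E6 => Φ q.1 q.2) →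
      (∀ x ∈ sphere (0 : E6) 1, Φ 0 x = σ x) →
      (∀ᶠ t : ℝ in 𝓝 0, ∀ x ∈ sphere (0 : E6) 1, ‖Φ t x‖ = r ∧ inner ℝ x (Φ t x) = 0) →
      HasDerivAt (fun t : ℝ => ∫ x : sphere (0 : E6) 1, volInt (fderiv ℝ (Φ t) x) x
        ∂(volume : Measure E6).toSphere) 0 0) ∧
    ∀ A : E6 →L[ℝ] E6, ¬ ∀ x ∈ sphere (0 : E6) 1, σ x = A x := by
  have c1 : Continuous rr := ((cc 2).continuous.comp continuous_snd).sqrt
  have c2 : ContinuousAt om0 (0, 1) :=
    ((contDiffAt_const.sub contDiff_yy.contDiffAt).mul (contDiffAt_ii (n := 0) 1)).continuousAt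
  have e1 : rr (0, 1) = 1 := by simp [rr, cc_one]
  have e2 : om0 (0, 1) = 1 := by simp [om0, ii, yy_zero]
  have c3 : ContinuousAt (fun p => (rr p - 1) ^ 2 + 2 * rr p * ‖om0 p - 1‖) (0, 1) :=
    ((c1.continuousAt.sub continuousAt_const).pow 2).add
      ((continuousAt_const.mul c1.continuousAt).mul (c2.sub continuousAt_const).norm)
  have c4 : ContinuousAt (fun p => |rr p - 1|) (0, 1) :=
    (c1.continuousAt.sub continuousAt_const).abs
  have u1 := c3.eventually (gt_mem_nhds (show _ < ε ^ 2 by simp [e1, e2]; positivity))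
  have u2 := c4.eventually (gt_mem_nhds (show _ < ε by simpa [e1] using hε))
  obtain ⟨p, ⟨v1, v2⟩, h0, ht, hρ, hy, hF⟩ := near_solution (u1.and u2)
  refine ⟨rr p, sig p, rr_pos hρ, v2, contDiff_sig ht, fun x hx => ?_,
    critical_local ht hρ hy hF, fun A hA => not_hopf ht hρ hy h0 ((rr p)⁻¹ • A) fun x hx => ?_⟩
  · have hx' : ‖x‖ = 1 := by simpa using hx
    exact ⟨(sig_props ht hρ hy hx').1, (sig_props ht hρ hy hx').2,
      lt_of_pow_lt_pow_left₀ 2 hε.le ((near_hop ht hρ hy hx').trans_lt v1)⟩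
  · rw [hA x hx, _root_.smul_apply, smul_smul, mul_inv_cancel₀ (rr_pos hρ).ne',
      one_smul]

end Pool.Agent.Work.MP_3fb46c_gt
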